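import Pool.Agent.Helper576_GD4.Loc

set_option autoImplicit false

open MulOpposite

namespace GD4

/-- TARGET -/
theorem exists_cover {T : Type} [Ring T] [IsLocalRing T] (M : Type) [AddCommGroup M]
    [Module T M] [Module.Finite T M] :
    ∃ (n : ℕ) (e : (Fin n → T) →ₗ[T] M), Function.Surjective e ∧
      (∀ x, e x = 0 → ∀ i, x i ∈ J T) ∧
      (IsNoetherianRing T → Module.Projective T M → Function.Injective e) := by
  classical
  obtain ⟨n, ⟨e, he⟩, hmin⟩ : ∃ n : ℕ, (∃ e : (Fin n → T) →ₗ[T] M, Function.Surjective e) ∧
      ∀ m < n, ¬ ∃ e : (Fin m → T) →ₗ[T] M, Function.Surjective e :=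
    ⟨Nat.find (Module.Finite.exists_fin' T M), Nat.find_spec (Module.Finite.exists_fin' T M),
      fun m hm => Nat.find_min (Module.Finite.exists_fin' T M) hm⟩
  have hdec : ∀ y : Fin n → T, y = ∑ k, y k • (Pi.single k (1 : T) : Fin n → T) := by
    intro y
    ext k
    simp [Finset.sum_apply, Pi.single_apply]
  have hJ : ∀ x, e x = 0 → ∀ i, x i ∈ J T := by
    intro x hx i
    by_contra hi
    rw [mem_J, not_not] at hi
    cases n with
    | zero => exact i.elim0
    | succ m =>
      apply hmin m (Nat.lt_succ_self m)
      let v : Fin m → M := fun k => e (Pi.single (i.succAbove k) 1)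
      have hv : ∀ k, k ≠ i → e (Pi.single k 1) ∈ Submodule.span T (Set.range v) := by
        intro k hk
        obtain ⟨k', rfl⟩ := Fin.exists_succAbove_eq hk
        exact Submodule.subset_span ⟨k', rfl⟩
      have hvi : e (Pi.single i 1) ∈ Submodule.span T (Set.range v) := by
        have h1 : ∑ k, x k • e (Pi.single k (1 : T)) = 0 := by
          have h2 := congrArg e (hdec x)
          rw [hx, map_sum] at h2
          simp only [map_smul] at h2
          exact h2.symm
        rw [← Finset.add_sum_erase _ _ (Finset.mem_univ i)] at h1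
        have h3 : x i • e (Pi.single i (1 : T)) ∈ Submodule.span T (Set.range v) := by
          rw [eq_neg_of_add_eq_zero_left h1]
          apply Submodule.neg_mem
          apply Submodule.sum_mem
          intro k hk
          exact Submodule.smul_mem _ _ (hv k (Finset.ne_of_mem_erase hk))
        obtain ⟨u, hu⟩ := hi
        have h4 := Submodule.smul_mem _ (↑u⁻¹ : T) h3
        rw [← hu, ← mul_smul, Units.inv_mul, one_smul] at h4
        exact h4
      have htop : Submodule.span T (Set.range v) = ⊤ := by
        rw [eq_top_iff]
        intro z _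
        obtain ⟨y, rfl⟩ := he z
        rw [hdec y, map_sum]
        apply Submodule.sum_mem
        intro k _
        rw [map_smul]
        apply Submodule.smul_mem
        by_cases hk : k = i
        · rw [hk]; exact hvi
        · exact hv k hk
      refine ⟨Fintype.linearCombination T v, ?_⟩
      rw [← LinearMap.range_eq_top, Fintype.range_linearCombination]
      exact htop
  refine ⟨n, e, he, hJ, fun hN hP => ?_⟩
  obtain ⟨s, hs⟩ := Module.projective_lifting_property e LinearMap.id he
  have hs' : ∀ z, e (s z) = z := fun z => by
    have := congrArg (fun g : M →ₗ[T] M => g z) hs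
    simpa using this
  rw [← LinearMap.ker_eq_bot, ← le_bot_iff]
  refine nakayama ⊥ (LinearMap.ker e) (IsNoetherian.noetherian _) ?_
  rw [bot_sup_eq]
  intro k hk
  have hk0 : e k = 0 := hk
  have h1 : k = ∑ i, k i • ((Pi.single i (1 : T) : Fin n → T) - s (e (Pi.single i (1 : T)))) := by
    simp only [smul_sub, Finset.sum_sub_distrib]
    have h2 : ∑ i, k i • s (e (Pi.single i (1 : T))) = 0 := by
      have h3 := congrArg (fun y => s (e y)) (hdec k)
      simp only [hk0, map_zero, map_sum, map_smul] at h3
      exact h3.symm
    rw [h2, sub_zero]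
    exact hdec k
  rw [h1]
  apply Submodule.sum_mem
  intro i _
  apply Submodule.smul_mem_smul (hJ k hk0 i)
  rw [LinearMap.mem_ker, map_sub, hs', sub_self]

end GD4
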