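import Mathlib

set_option autoImplicit false

open MulOpposite

namespace GD4

/-! ### Local rings -/

theorem isUnit_of_left_inv {R : Type} [Ring R] [IsLocalRing R] {x y : R} (h : y * x = 1) :
    IsUnit x := by
  -- the idempotent x*y
  have hidem : (x * y) * (x * y) = x * y := by
    calc (x * y) * (x * y) = x * (y * x) * y := by simp only [mul_assoc]
      _ = x * y := by rw [h, mul_one]
  rcases IsLocalRing.isUnit_or_isUnit_of_add_one (show x * y + (1 - x * y) = 1 by abel) with hu | hu
  · have h1 : x * y = 1 := by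
      have := hu.mul_left_cancel (show (x * y) * (x * y) = (x * y) * 1 by rw [hidem, mul_one])
      exact this
    exact ⟨⟨x, y, h1, h⟩, rfl⟩
  · exfalso
    have h2 : (1 - x * y) * (x * y) = 0 := by rw [sub_mul, one_mul, hidem, sub_self]
    have h3 : x * y = 0 := by
      have := hu.mul_left_cancel (show (1 - x * y) * (x * y) = (1 - x * y) * 0 by rw [h2, mul_zero])
      exact this
    have h4 : (1 : R) = 0 := by
      calc (1 : R) = (y * x) * (y * x) := by rw [h, one_mul]
        _ = y * (x * y) * x := by simp only [mul_assoc]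
        _ = 0 := by rw [h3, mul_zero, zero_mul]
    exact one_ne_zero h4

theorem isUnit_of_right_inv {R : Type} [Ring R] [IsLocalRing R] {x y : R} (h : x * y = 1) :
    IsUnit x := by
  have hy : IsUnit y := isUnit_of_left_inv h
  obtain ⟨u, rfl⟩ := hy
  have : x = ↑u⁻¹ := by
    rw [← mul_one x, ← u.mul_inv, ← mul_assoc, h, one_mul]
  rw [this]; exact u⁻¹.isUnit

/-- The maximal (two-sided) ideal of a local ring: the set of nonunits. -/
def J (R : Type) [Ring R] [IsLocalRing R] : Ideal R where
  carrier := {x | ¬ IsUnit x}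
  add_mem' := fun ha hb => IsLocalRing.nonunits_add ha hb
  zero_mem' := by simp
  smul_mem' := by
    intro c x hx hu
    obtain ⟨u, hu⟩ := hu
    apply hx
    apply isUnit_of_left_inv (y := ↑u⁻¹ * c)
    have : ((u⁻¹ : Rˣ) : R) * (c * x) = 1 := by
      rw [← smul_eq_mul c x, ← hu, Units.inv_mul]
    rw [mul_assoc, this]

theorem mem_J {R : Type} [Ring R] [IsLocalRing R] {x : R} : x ∈ J R ↔ ¬ IsUnit x := Iff.rfl

instance J_twoSided (R : Type) [Ring R] [IsLocalRing R] : (J R).IsTwoSided := by
  refine ⟨fun {a} b ha hu => ?_⟩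
  obtain ⟨u, hu⟩ := hu
  apply ha
  apply isUnit_of_right_inv (y := b * ↑u⁻¹)
  rw [← mul_assoc, ← hu, Units.mul_inv]

theorem J_ne_top (R : Type) [Ring R] [IsLocalRing R] : J R ≠ ⊤ := by
  intro h
  have : (1 : R) ∈ J R := h ▸ Submodule.mem_top
  exact this isUnit_one

theorem le_J {R : Type} [Ring R] [IsLocalRing R] {I : Ideal R} (h : I ≠ ⊤) : I ≤ J R := by
  intro x hx hu
  apply h
  obtain ⟨u, rfl⟩ := hu
  rw [Ideal.eq_top_iff_one]
  have := I.mul_mem_left (↑u⁻¹ : R) hx
  rwa [Units.inv_mul] at this

theorem J_isCoatom (R : Type) [Ring R] [IsLocalRing R] : IsCoatom (J R) :=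
  ⟨J_ne_top R, fun b hb => by
    by_contra h
    exact absurd (le_J h) (not_le_of_gt hb)⟩

theorem jacobson_eq_J (R : Type) [Ring R] [IsLocalRing R] : Ring.jacobson R = J R := by
  apply le_antisymm
  · exact le_J (Ring.jacobson_lt_top R).ne
  · rw [Ring.jacobson, Module.jacobson]
    refine le_sInf fun m hm => ?_
    have : m = J R := by
      have h1 : m ≤ J R := le_J hm.1
      rcases eq_or_lt_of_le h1 with h | h
      · exact h
      · exact absurd (hm.2 _ h) (J_ne_top R)
    rw [this]

instance opLocal {R : Type} [Ring R] [h : IsLocalRing R] : IsLocalRing Rᵐᵒᵖ where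
  isUnit_or_isUnit_of_add_one := by
    intro a b hab
    have : unop a + unop b = 1 := by
      have := congrArg unop hab
      simpa using this
    rcases h.isUnit_or_isUnit_of_add_one this with hu | hu
    · left; simpa using hu.op
    · right; simpa using hu.op

theorem mem_J_op {R : Type} [Ring R] [IsLocalRing R] {x : Rᵐᵒᵖ} : x ∈ J Rᵐᵒᵖ ↔ unop x ∈ J R := by
  rw [mem_J, mem_J, not_iff_not]
  constructor
  · intro h; simpa using h.unop
  · intro h; simpa using h.op

/-! ### Serre classes and length functions -/

/-- A Serre class of left `T`-modules (in `Type`). -/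
structure SerreClass (T : Type) [Ring T] where
  mem : ∀ (M : Type) [AddCommGroup M] [Module T M], Prop
  of_inj : ∀ {M N : Type} [AddCommGroup M] [Module T M] [AddCommGroup N] [Module T N]
    (g : M →ₗ[T] N), Function.Injective g → mem N → mem M
  of_surj : ∀ {M N : Type} [AddCommGroup M] [Module T M] [AddCommGroup N] [Module T N]
    (g : M →ₗ[T] N), Function.Surjective g → mem M → mem N
  ext : ∀ {M : Type} [AddCommGroup M] [Module T M] (N : Submodule T M),
    mem N → mem (M ⧸ N) → mem M
  zero : ∀ (M : Type) [AddCommGroup M] [Module T M] [Subsingleton M], mem M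

/-- An additive (length) function on left `T`-modules (in `Type`). -/
structure LengthFn (T : Type) [Ring T] where
  f : ∀ (M : Type) [AddCommGroup M] [Module T M], ℕ∞
  add : ∀ {M' M M'' : Type} [AddCommGroup M'] [AddCommGroup M] [AddCommGroup M'']
    [Module T M'] [Module T M] [Module T M''] (i : M' →ₗ[T] M) (p : M →ₗ[T] M''),
    Function.Injective i → Function.Surjective p → LinearMap.range i = LinearMap.ker p →
    f M = f M' + f M''
  zero : ∀ (M : Type) [AddCommGroup M] [Module T M] [Subsingleton M], f M = 0

/-! ### Projective dimension -/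

/-- `M` has projective dimension at most `n`. -/
def PdLE (T : Type) [Ring T] (M : Type) [AddCommGroup M] [Module T M] (n : ℕ) : Prop :=
  CategoryTheory.HasProjectiveDimensionLE (ModuleCat.of T M) n

/-! ### Right action of matrices on rows with entries in a right module -/

/-- `rAct y A`: the row `y` (entries in a right `R`-module) times the matrix `A`. -/
def rAct {R : Type} [Ring R] {Y : Type} [AddCommGroup Y] [Module Rᵐᵒᵖ Y] {m n : ℕ}
    (y : Fin m → Y) (A : Matrix (Fin m) (Fin n) R) : Fin n → Y :=
  fun j => ∑ i, op (A i j) • y i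

end GD4
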