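import Pool.Agent.Helper576_GD4.Defs

set_option autoImplicit false

open MulOpposite

namespace GD4

namespace LengthFn

variable {T : Type} [Ring T] (f : LengthFn T)
variable {M N : Type} [AddCommGroup M] [Module T M] [AddCommGroup N] [Module T N]

theorem sub_add_quot (K : Submodule T M) : f.f M = f.f K + f.f (M ⧸ K) :=
  f.add K.subtype K.mkQ K.subtype_injective K.mkQ_surjective (by simp)

theorem congr (e : M ≃ₗ[T] N) : f.f M = f.f N := by
  have h := f.add (0 : PUnit →ₗ[T] M) e.toLinearMap (fun a b _ => Subsingleton.elim a b)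
    e.surjective (by simp)
  rw [f.zero PUnit, zero_add] at h
  exact h

theorem ker_add_range (g : M →ₗ[T] N) :
    f.f M = f.f (LinearMap.ker g) + f.f (LinearMap.range g) :=
  f.add (LinearMap.ker g).subtype g.rangeRestrict (LinearMap.ker g).subtype_injective
    g.surjective_rangeRestrict (by simp)

theorem le_of_surj (g : M →ₗ[T] N) (hg : Function.Surjective g) : f.f N ≤ f.f M := by
  have h := f.add (LinearMap.ker g).subtype g (LinearMap.ker g).subtype_injective hg (by simp)
  rw [h]; exact le_add_self

theorem le_of_inj (g : M →ₗ[T] N) (hg : Function.Injective g) : f.f M ≤ f.f N := by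
  have h := f.add g (LinearMap.range g).mkQ hg (LinearMap.range g).mkQ_surjective (by simp)
  rw [h]; exact le_self_add

theorem le_of_le {K L : Submodule T M} (h : K ≤ L) : f.f K ≤ f.f L :=
  f.le_of_inj (Submodule.inclusion h) (Submodule.inclusion_injective h)

theorem le_top (K : Submodule T M) : f.f K ≤ f.f M :=
  f.le_of_inj K.subtype K.subtype_injective

theorem prod : f.f (M × N) = f.f M + f.f N :=
  f.add (LinearMap.inl T M N) (LinearMap.snd T M N) LinearMap.inl_injective
    LinearMap.snd_surjective (LinearMap.range_inl T M N)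

theorem pi (n : ℕ) : f.f (Fin n → M) = n * f.f M := by
  induction n with
  | zero => simp [f.zero]
  | succ n ih =>
    have e : (Fin (n+1) → M) ≃ₗ[T] (M × (Fin n → M)) :=
      { (Fin.consEquiv (fun _ : Fin (n+1) => M)).symm with
        map_add' := fun x y => rfl
        map_smul' := fun c x => rfl }
    rw [f.congr e, f.prod, ih]
    push_cast
    ring

theorem sup_le (K L : Submodule T M) : f.f (K ⊔ L : Submodule T M) ≤ f.f K + f.f L := by
  let g : (K × L) →ₗ[T] (K ⊔ L : Submodule T M) :=
    (Submodule.inclusion (le_sup_left : K ≤ K ⊔ L)).coprod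
      (Submodule.inclusion (le_sup_right : L ≤ K ⊔ L))
  have hg : Function.Surjective g := by
    rintro ⟨x, hx⟩
    obtain ⟨k, hk, l, hl, rfl⟩ := Submodule.mem_sup.1 hx
    exact ⟨(⟨k, hk⟩, ⟨l, hl⟩), rfl⟩
  rw [← f.prod]
  exact f.le_of_surj g hg

/-- if a finite family generates `M`, then `f M ≤ ∑ f (span {x_i})` -/
theorem le_sum_span {n : ℕ} (x : Fin n → M) (hx : Submodule.span T (Set.range x) = ⊤) :
    f.f M ≤ ∑ i, f.f (Submodule.span T {x i}) := by
  have key : ∀ s : Finset (Fin n), f.f (Submodule.span T (x '' s)) ≤
      ∑ i ∈ s, f.f (Submodule.span T {x i}) := by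
    intro s
    classical
    induction s using Finset.induction_on with
    | empty =>
      have : Subsingleton (Submodule.span T (x '' ((∅ : Finset (Fin n)) : Set (Fin n)))) := by
        simp only [Finset.coe_empty, Set.image_empty, Submodule.span_empty]
        infer_instance
      rw [f.zero]; exact zero_le
    | insert a s ha ih =>
      rw [Finset.sum_insert ha, Finset.coe_insert, Set.image_insert_eq, Submodule.span_insert]
      exact (f.sup_le _ _).trans (add_le_add le_rfl ih)
  have h := key Finset.univ
  rw [Finset.coe_univ, Set.image_univ, hx] at h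
  rwa [f.congr (Submodule.topEquiv (R := T) (M := M))] at h

theorem eq_zero_of_span {n : ℕ} (x : Fin n → M) (hx : Submodule.span T (Set.range x) = ⊤)
    (h : ∀ i, f.f (Submodule.span T {x i}) = 0) : f.f M = 0 := by
  have := f.le_sum_span x hx
  simpa [h] using this

theorem ne_top_of_span {n : ℕ} (x : Fin n → M) (hx : Submodule.span T (Set.range x) = ⊤)
    (h : ∀ i, f.f (Submodule.span T {x i}) ≠ ⊤) : f.f M ≠ ⊤ := by
  have := f.le_sum_span x hx
  refine ne_top_of_le_ne_top ?_ this
  exact (WithTop.sum_ne_top (s := Finset.univ) (f := fun i => f.f (Submodule.span T {x i}))).2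
    (fun i _ => h i)

end LengthFn

end GD4
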