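import Pool.Agent.Helper576_GD4.PhiT
import Pool.Agent.Helper576_GD4.Length

set_option autoImplicit false

open MulOpposite

namespace GD4

/-- matrix of a linear map between row modules over the opposite ring -/
theorem op_mulVec {R : Type} [Ring R] {p q : ℕ} (F : (Fin p → Rᵐᵒᵖ) →ₗ[Rᵐᵒᵖ] (Fin q → Rᵐᵒᵖ))
    (x : Fin p → R) (i : Fin q) :
    F (fun j => op (x j)) i =
      op (Matrix.mulVec (Matrix.of fun (i : Fin q) (j : Fin p) => unop (F (Pi.single j 1) i)) x i) := by
  have h1 : (fun j => op (x j)) = ∑ j, op (x j) • (Pi.single j 1 : Fin p → Rᵐᵒᵖ) := by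
    ext k
    simp [Finset.sum_apply, Pi.single_apply]
  rw [h1, map_sum, Finset.sum_apply]
  simp only [map_smul, Pi.smul_apply, smul_eq_mul, Matrix.mulVec, dotProduct, Matrix.of_apply]
  rw [← unop_inj, Finset.unop_sum, unop_op]
  refine Finset.sum_congr rfl fun j _ => ?_
  rw [unop_mul, unop_op]

/-- TARGET -/
theorem domain_or_Phi {R : Type} [Ring R] [IsLocalRing R] [IsNoetherianRing R]
    [IsNoetherianRing Rᵐᵒᵖ] (n : ℕ)
    (hpd : ∀ (M : Type) [AddCommGroup M] [Module Rᵐᵒᵖ M] [Module.Finite Rᵐᵒᵖ M],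
      PdLE Rᵐᵒᵖ M n) :
    (∀ x y : R, x * y = 0 → x = 0 ∨ y = 0) ∨
    ∃ (a b c : ℕ) (Φ : Matrix (Fin a) (Fin b) R) (Φ' : Matrix (Fin c) (Fin a) R),
      0 < b ∧ (∀ i j, Φ i j ∈ J R) ∧ Φ' * Φ = 0 ∧
      (∀ x : Fin b → R, Matrix.mulVec Φ x = 0 → x = 0) ∧
      (∀ y : Fin a → R, Matrix.mulVec Φ' y = 0 → ∃ x, y = Matrix.mulVec Φ x) := by
  obtain ⟨m, e, he, hk, -⟩ := exists_cover (T := Rᵐᵒᵖ) ↥(J Rᵐᵒᵖ)
  by_cases hinj : Function.Injective e
  · left
    intro x y hxy
    by_cases hy : y = 0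
    · exact Or.inr hy
    left
    set u : (Fin m → Rᵐᵒᵖ) →ₗ[Rᵐᵒᵖ] (Fin 1 → Rᵐᵒᵖ) :=
      LinearMap.pi (fun _ => (J Rᵐᵒᵖ).subtype ∘ₗ e) with hu
    set φ : Fin m → R := fun j => unop (u (Pi.single j 1) 0) with hφ
    have hφJ : ∀ j, φ j ∈ J R := fun j => mem_J_op.1 (e (Pi.single j 1)).2
    have hval : ∀ r : Fin m → R, ((e (fun j => op (r j)) : J Rᵐᵒᵖ) : Rᵐᵒᵖ) =
        op (∑ j, φ j * r j) := by
      intro r
      have h := op_mulVec u r 0
      simpa [hu, hφ, Matrix.mulVec, dotProduct] using h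
    have hrep : ∀ r ∈ J R, ∃ s : Fin m → R, r = ∑ j, φ j * s j := by
      intro r hr
      obtain ⟨z, hz⟩ := he ⟨op r, mem_J_op.2 (by simpa using hr)⟩
      refine ⟨fun j => unop (z j), ?_⟩
      have h := hval (fun j => unop (z j))
      simp only [op_unop] at h
      have h2 : (fun j => z j) = z := rfl
      rw [h2, hz] at h
      exact op_injective h
    have hz : ∀ s : Fin m → R, ∑ j, φ j * s j = 0 → ∀ j, s j = 0 := by
      intro s hs j
      have h := hval s
      rw [hs] at h
      have h2 : e (fun j => op (s j)) = 0 := by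
        apply Subtype.ext
        rw [h]
        simp
      have h3 : (fun j => op (s j)) = (0 : Fin m → Rᵐᵒᵖ) := hinj (by rw [h2, map_zero])
      have h4 := congrFun h3 j
      exact (op_eq_zero_iff _).1 h4
    set Λ : Ideal R := LinearMap.ker (LinearMap.toSpanSingleton R R y) with hΛ
    have hmem : ∀ r, r ∈ Λ ↔ r * y = 0 := by
      intro r
      rw [hΛ, LinearMap.mem_ker, LinearMap.toSpanSingleton_apply, smul_eq_mul]
    have hle : Λ ≤ J R := by
      intro r hr
      rw [mem_J]
      intro hru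
      rw [hmem] at hr
      exact hy ((hru.mul_right_eq_zero).1 hr)
    have hsub : Λ ≤ ⊥ ⊔ (J R) • Λ := by
      intro r hr
      obtain ⟨s, rfl⟩ := hrep r (hle hr)
      have h1 : ∑ j, φ j * (s j * y) = 0 := by
        rw [hmem, Finset.sum_mul] at hr
        simpa only [mul_assoc] using hr
      have h2 := hz _ h1
      apply Submodule.mem_sup_right
      refine Submodule.sum_mem _ fun j _ => ?_
      have h3 : s j ∈ Λ := (hmem _).2 (h2 j)
      exact Submodule.smul_mem_smul (hφJ j) h3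
    have h0 : Λ ≤ ⊥ := nakayama ⊥ Λ (IsNoetherian.noetherian Λ) hsub
    have := h0 ((hmem x).2 hxy)
    simpa using this
  · right
    set u : (Fin m → Rᵐᵒᵖ) →ₗ[Rᵐᵒᵖ] (Fin 1 → Rᵐᵒᵖ) :=
      LinearMap.pi (fun _ => (J Rᵐᵒᵖ).subtype ∘ₗ e) with hu
    have hu0 : ∀ x, u x = 0 ↔ e x = 0 := by
      intro x
      constructor
      · intro h
        have := congrFun h 0
        apply Subtype.ext
        simpa [hu] using this
      · intro h
        ext i
        simp [hu, h]
    have hne : LinearMap.ker u ≠ ⊥ := by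
      intro h
      apply hinj
      rw [injective_iff_map_eq_zero]
      intro x hx
      have : x ∈ LinearMap.ker u := by rw [LinearMap.mem_ker, hu0]; exact hx
      rw [h] at this
      simpa using this
    obtain ⟨a', b', c', ΦT, ΦT', hb, hΦinj, hex, hJ⟩ := exists_PhiT (T := Rᵐᵒᵖ) n m 1 u
      (hpd (LinearMap.ker u)) (fun x hx => hk x ((hu0 x).1 hx)) hne
    refine ⟨a', b', c', Matrix.of fun i j => unop (ΦT (Pi.single j 1) i),
      Matrix.of fun i j => unop (ΦT' (Pi.single j 1) i), hb, ?_, ?_, ?_, ?_⟩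
    · intro i j
      exact mem_J_op.1 (hJ _ _)
    · ext i k
      have h1 := op_mulVec ΦT' (fun j => unop (ΦT (Pi.single k 1) j)) i
      simp only [op_unop] at h1
      have h2 : ΦT' (fun j => ΦT (Pi.single k 1) j) = 0 := by
        have : ΦT (Pi.single k 1) ∈ LinearMap.ker ΦT' := by
          rw [← hex]; exact ⟨_, rfl⟩
        exact this
      rw [h2] at h1
      have h3 := (op_eq_zero_iff _).1 h1.symm
      rw [Matrix.mul_apply]
      simpa [Matrix.mulVec, dotProduct] using h3
    · intro x hx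
      have h1 : ΦT (fun j => op (x j)) = 0 := by
        ext i
        rw [op_mulVec ΦT x i, hx]
        simp
      have h2 : (fun j => op (x j)) = (0 : Fin b' → Rᵐᵒᵖ) := hΦinj (by rw [h1, map_zero])
      ext j
      exact (op_eq_zero_iff _).1 (congrFun h2 j)
    · intro y hy
      have h1 : ΦT' (fun j => op (y j)) = 0 := by
        ext i
        rw [op_mulVec ΦT' y i, hy]
        simp
      have h2 : (fun j => op (y j)) ∈ LinearMap.range ΦT := by
        rw [hex]; exact h1
      obtain ⟨z, hz⟩ := h2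
      refine ⟨fun j => unop (z j), ?_⟩
      ext i
      have h3 := op_mulVec ΦT (fun j => unop (z j)) i
      simp only [op_unop] at h3
      have h4 : (fun j => z j) = z := rfl
      rw [h4, hz] at h3
      exact op_injective h3

end GD4
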