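import Pool.Agent.Helper576_GD4.Regular

set_option autoImplicit false

open MulOpposite

namespace GD4

/-- TARGET -/
theorem exists_gabriel {R : Type} [Ring R] [IsNoetherianRing R] [IsNoetherianRing Rᵐᵒᵖ]
    (P : Ideal R) [P.IsTwoSided] (hPne : P ≠ ⊤)
    (hprime : ∀ a b : R, (∀ s, a * s * b ∈ P) → a ∈ P ∨ b ∈ P)
    (I : Ideal R) [I.IsTwoSided] (hI : ¬ I ≤ P) :
    ∃ c ∈ I, ∃ L : Set (Ideal R),
      (∀ A ∈ L, ¬ A ≤ P) ∧ (∀ A ∈ L, ∀ B ∈ L, A ⊓ B ∈ L) ∧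
      (∀ A ∈ L, ∀ r : R, Submodule.comap (LinearMap.toSpanSingleton R R r) A ∈ L) ∧
      Ideal.span {c} ⊔ P ∈ L := by
  classical
  let π : R →+* R ⧸ P := Ideal.Quotient.mk P
  have hπ : Function.Surjective π := Ideal.Quotient.mk_surjective
  have hπ0 : ∀ x : R, π x = 0 ↔ x ∈ P := fun x => Ideal.Quotient.eq_zero_iff_mem
  have : Nontrivial (R ⧸ P) := Ideal.Quotient.nontrivial_iff.2 hPne
  have : IsNoetherianRing (R ⧸ P) := isNoetherianRing_of_surjective R (R ⧸ P) π hπ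
  have : IsNoetherianRing (R ⧸ P)ᵐᵒᵖ := by
    refine isNoetherianRing_of_surjective Rᵐᵒᵖ (R ⧸ P)ᵐᵒᵖ (RingHom.op π) ?_
    intro y
    obtain ⟨x, hx⟩ := hπ (unop y)
    refine ⟨op x, ?_⟩
    show op (π (unop (op x))) = y
    rw [unop_op, hx, op_unop]
  have hprime' : ∀ a b : R ⧸ P, (∀ s, a * s * b = 0) → a = 0 ∨ b = 0 := by
    intro a b h
    obtain ⟨a, rfl⟩ := hπ a
    obtain ⟨b, rfl⟩ := hπ b
    rw [hπ0, hπ0]
    refine hprime a b fun s => ?_
    rw [← hπ0, map_mul, map_mul]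
    exact h (π s)
  let I0 : Ideal (R ⧸ P) :=
    { carrier := {y | ∃ x ∈ I, π x = y}
      add_mem' := by
        rintro _ _ ⟨x, hx, rfl⟩ ⟨y, hy, rfl⟩
        exact ⟨x + y, I.add_mem hx hy, map_add _ _ _⟩
      zero_mem' := ⟨0, I.zero_mem, map_zero _⟩
      smul_mem' := by
        rintro c _ ⟨x, hx, rfl⟩
        obtain ⟨c, rfl⟩ := hπ c
        exact ⟨c * x, I.mul_mem_left c hx, map_mul _ _ _⟩ }
  have hmem : ∀ y, y ∈ I0 ↔ ∃ x ∈ I, π x = y := fun y => Iff.rfl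
  have hI0t : I0.IsTwoSided := by
    refine ⟨fun {a} b ha => ?_⟩
    obtain ⟨x, hx, rfl⟩ := (hmem _).1 ha
    obtain ⟨b, rfl⟩ := hπ b
    exact (hmem _).2 ⟨x * b, I.mul_mem_right b hx, map_mul _ _ _⟩
  have hI0 : I0 ≠ ⊥ := by
    intro h
    apply hI
    intro x hx
    have h1 : π x ∈ I0 := (hmem _).2 ⟨x, hx, rfl⟩
    rw [h, Submodule.mem_bot] at h1
    exact (hπ0 x).1 h1
  obtain ⟨f, hf0, hft, c', hc', hreg⟩ := exists_regular hprime' I0 hI0
  obtain ⟨c, hc, rfl⟩ := (hmem _).1 hc'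
  refine ⟨c, hc, {A : Ideal R | ∃ B : Ideal (R ⧸ P), f.f ((R ⧸ P) ⧸ B) = 0 ∧ ∀ x, x ∈ A ↔ π x ∈ B},
    ?_, ?_, ?_, ?_⟩
  · rintro A ⟨B, hB, hAB⟩ hle
    have hB0 : B = ⊥ := by
      rw [eq_bot_iff]
      intro y hy
      obtain ⟨x, rfl⟩ := hπ y
      rw [Submodule.mem_bot, hπ0]
      exact hle ((hAB x).2 hy)
    subst hB0
    rw [f.congr (Submodule.quotEquivOfEqBot (⊥ : Ideal (R ⧸ P)) rfl)] at hB
    exact hf0 hB
  · rintro A ⟨B, hB, hAB⟩ A' ⟨B', hB', hAB'⟩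
    refine ⟨B ⊓ B', ?_, fun x => ?_⟩
    · let g : ((R ⧸ P) ⧸ (B ⊓ B')) →ₗ[R ⧸ P] ((R ⧸ P) ⧸ B) × ((R ⧸ P) ⧸ B') :=
        (B ⊓ B').liftQ (B.mkQ.prod B'.mkQ) (by
          intro x hx
          rw [LinearMap.mem_ker, LinearMap.prod_apply]
          refine Prod.ext ?_ ?_
          · exact (Submodule.Quotient.mk_eq_zero B).2 hx.1
          · exact (Submodule.Quotient.mk_eq_zero B').2 hx.2)
      have hg : Function.Injective g := by
        rw [← LinearMap.ker_eq_bot, Submodule.ker_liftQ_eq_bot]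
        intro x hx
        rw [LinearMap.mem_ker, LinearMap.prod_apply] at hx
        have h1 := congrArg Prod.fst hx
        have h2 := congrArg Prod.snd hx
        exact ⟨(Submodule.Quotient.mk_eq_zero B).1 h1, (Submodule.Quotient.mk_eq_zero B').1 h2⟩
      have h1 := f.le_of_inj g hg
      rw [f.prod, hB, hB', add_zero] at h1
      exact nonpos_iff_eq_zero.1 h1
    · rw [Submodule.mem_inf, Submodule.mem_inf, hAB, hAB']
  · rintro A ⟨B, hB, hAB⟩ r
    refine ⟨Submodule.comap (LinearMap.toSpanSingleton (R ⧸ P) (R ⧸ P) (π r)) B, ?_, fun x => ?_⟩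
    · let B' := Submodule.comap (LinearMap.toSpanSingleton (R ⧸ P) (R ⧸ P) (π r)) B
      let g : ((R ⧸ P) ⧸ B') →ₗ[R ⧸ P] ((R ⧸ P) ⧸ B) :=
        B'.mapQ B (LinearMap.toSpanSingleton (R ⧸ P) (R ⧸ P) (π r)) le_rfl
      have hg : Function.Injective g := by
        rw [← LinearMap.ker_eq_bot]
        exact Submodule.ker_liftQ_eq_bot _ _ _ (by
          intro x hx
          rw [LinearMap.mem_ker, LinearMap.comp_apply, Submodule.mkQ_apply,
            Submodule.Quotient.mk_eq_zero] at hx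
          exact hx)
      have h1 := f.le_of_inj g hg
      rw [hB] at h1
      exact nonpos_iff_eq_zero.1 h1
    · rw [Submodule.mem_comap, Submodule.mem_comap, LinearMap.toSpanSingleton_apply,
        LinearMap.toSpanSingleton_apply, smul_eq_mul, smul_eq_mul, hAB, map_mul]
  · refine ⟨Ideal.span {π c}, ?_, fun x => ?_⟩
    · have h1 := f.add (LinearMap.toSpanSingleton (R ⧸ P) (R ⧸ P) (π c))
        (Ideal.span {π c} : Ideal (R ⧸ P)).mkQ (by
          rw [← LinearMap.ker_eq_bot, LinearMap.ker_eq_bot']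
          intro m hm
          rw [LinearMap.toSpanSingleton_apply, smul_eq_mul] at hm
          exact hreg m hm) (Submodule.mkQ_surjective _) (by
          rw [Submodule.ker_mkQ, LinearMap.range_toSpanSingleton])
      have h2 : 0 + f.f (R ⧸ P) = f.f ((R ⧸ P) ⧸ (Ideal.span {π c} : Ideal (R ⧸ P))) + f.f (R ⧸ P) := by
        rw [zero_add, add_comm]; exact h1
      exact ((WithTop.add_right_inj hft).1 h2).symm
    · rw [Submodule.mem_sup, Ideal.mem_span_singleton']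
      constructor
      · rintro ⟨y, hy, z, hz, rfl⟩
        obtain ⟨a, rfl⟩ := Ideal.mem_span_singleton'.1 hy
        refine ⟨π a, ?_⟩
        rw [map_add, map_mul, (hπ0 z).2 hz, add_zero]
      · rintro ⟨a, ha⟩
        obtain ⟨a, rfl⟩ := hπ a
        refine ⟨a * c, Ideal.mem_span_singleton'.2 ⟨a, rfl⟩, x - a * c, ?_, by abel⟩
        rw [← hπ0, map_sub, map_mul, ha, sub_self]

end GD4
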