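import Pool.Agent.Helper576_GD4.Lenagan
import Pool.Agent.Helper576_GD4.Gabriel

set_option autoImplicit false

open MulOpposite

namespace GD4

theorem eval_injective_four {R : Type} [Ring R] [IsLocalRing R]
    {M : Type} [AddCommGroup M] [Module R M] [Module Rᵐᵒᵖ M] [SMulCommClass R Rᵐᵒᵖ M]
    (W W' : Submodule Rᵐᵒᵖ M) (hW : ∀ (r : R) (y : M), y ∈ W → r • y ∈ W)
    (hW' : ∀ (r : R) (y : M), y ∈ W' → r • y ∈ W') (hlt : W < W')
    (P : Ideal R)
    (hP : ∀ W'' : Submodule Rᵐᵒᵖ M, (∀ (r : R) (y : M), y ∈ W'' → r • y ∈ W'') → W < W'' →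
      W'' ≤ W' → ∀ r : R, (∀ y ∈ W'', r • y ∈ W) ↔ r ∈ P)
    (hJP : ¬ J R ≤ P) (y : M) (hy : y ∈ W') (hj : ∀ j ∈ J R, j • y ∈ W) : y ∈ W := by
  by_contra hyW
  let T : Submodule Rᵐᵒᵖ M :=
    { carrier := {y | y ∈ W' ∧ ∀ j ∈ J R, j • y ∈ W}
      add_mem' := fun {a b} ha hb => ⟨W'.add_mem ha.1 hb.1, fun j hj => by
        rw [smul_add]; exact W.add_mem (ha.2 j hj) (hb.2 j hj)⟩
      zero_mem' := ⟨W'.zero_mem, fun j _ => by rw [smul_zero]; exact W.zero_mem⟩
      smul_mem' := fun r a ha => ⟨W'.smul_mem r ha.1, fun j hj => by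
        rw [smul_comm]; exact W.smul_mem r (ha.2 j hj)⟩ }
  have hT : ∀ (r : R) (y : M), y ∈ T → r • y ∈ T := by
    intro r a ha
    refine ⟨hW' r a ha.1, fun j hj => ?_⟩
    rw [smul_smul]
    exact ha.2 _ (Ideal.mul_mem_right r _ hj)
  have hWT : W < T := by
    refine lt_of_le_of_ne (fun a ha => ⟨hlt.le ha, fun j _ => hW j a ha⟩) ?_
    intro h
    apply hyW
    rw [h]
    exact ⟨hy, hj⟩
  have hTW : T ≤ W' := fun a ha => ha.1
  apply hJP
  intro j hj
  exact (hP T hT hWT hTW j).1 (fun a ha => ha.2 j hj)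

theorem eval_injective_five {R : Type} [Ring R] [IsLocalRing R] [IsNoetherianRing R]
    [IsNoetherianRing Rᵐᵒᵖ]
    {M : Type} [AddCommGroup M] [Module R M] [Module Rᵐᵒᵖ M] [SMulCommClass R Rᵐᵒᵖ M]
    (W W' : Submodule Rᵐᵒᵖ M) (hW : ∀ (r : R) (y : M), y ∈ W → r • y ∈ W)
    (hW' : ∀ (r : R) (y : M), y ∈ W' → r • y ∈ W') (hlt : W < W')
    (P : Ideal R) [P.IsTwoSided] (hPne : P ≠ ⊤)
    (hP : ∀ W'' : Submodule Rᵐᵒᵖ M, (∀ (r : R) (y : M), y ∈ W'' → r • y ∈ W'') → W < W'' →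
      W'' ≤ W' → ∀ r : R, (∀ y ∈ W'', r • y ∈ W) ↔ r ∈ P)
    (hJP : ¬ J R ≤ P) (s : J R →ₗ[R] M) (hs : ∀ j, s j ∈ W') (p : R) (hp : p ∈ P)
    (hpJ : p ∈ J R) : s ⟨p, hpJ⟩ ∈ W := by
  have hPJ : P ≤ J R := le_J hPne
  let N : Ideal R :=
    { carrier := {x | ∃ h : x ∈ J R, s ⟨x, h⟩ ∈ W}
      add_mem' := by
        rintro a b ⟨ha, ha'⟩ ⟨hb, hb'⟩
        refine ⟨(J R).add_mem ha hb, ?_⟩
        have : s ⟨a + b, (J R).add_mem ha hb⟩ = s ⟨a, ha⟩ + s ⟨b, hb⟩ := by
          rw [← map_add]; rfl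
        rw [this]
        exact W.add_mem ha' hb'
      zero_mem' := by
        refine ⟨(J R).zero_mem, ?_⟩
        have : s ⟨0, (J R).zero_mem⟩ = 0 := by
          exact map_zero s
        rw [this]
        exact W.zero_mem
      smul_mem' := by
        rintro c a ⟨ha, ha'⟩
        refine ⟨(J R).smul_mem c ha, ?_⟩
        have : s ⟨c • a, (J R).smul_mem c ha⟩ = c • s ⟨a, ha⟩ := by
          rw [← map_smul]; rfl
        rw [this]
        exact hW c _ ha' }
  let U : Ideal R :=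
    { carrier := {x | x ∈ P ∧ ∀ r : R, x * r ∈ N}
      add_mem' := fun {a b} ha hb => ⟨P.add_mem ha.1 hb.1, fun r => by
        rw [add_mul]; exact N.add_mem (ha.2 r) (hb.2 r)⟩
      zero_mem' := ⟨P.zero_mem, fun r => by rw [zero_mul]; exact N.zero_mem⟩
      smul_mem' := fun c a ha => ⟨P.smul_mem c ha.1, fun r => by
        rw [smul_eq_mul, mul_assoc]; exact N.mul_mem_left c (ha.2 r)⟩ }
  have hUP : U ≤ P := fun a ha => ha.1
  have hUr : ∀ a ∈ U, ∀ r : R, a * r ∈ U := by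
    intro a ha r
    refine ⟨Ideal.mul_mem_right r _ ha.1, fun r' => ?_⟩
    rw [mul_assoc]
    exact ha.2 _
  have hUJ : ∀ a ∈ P, ∀ j ∈ J R, a * j ∈ U := by
    intro a ha j hj
    refine ⟨Ideal.mul_mem_right j _ ha, fun r => ?_⟩
    have h1 : j * r ∈ J R := Ideal.mul_mem_right r _ hj
    have h2 : a * (j * r) ∈ J R := (J R).mul_mem_left a h1
    rw [mul_assoc]
    refine ⟨h2, ?_⟩
    have : s ⟨a * (j * r), h2⟩ = a • s ⟨j * r, h1⟩ := by
      rw [← map_smul]; rfl
    rw [this]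
    exact (hP W' hW' hlt le_rfl a).2 ha _ (hs _)
  by_cases hUlt : U < P
  · exfalso
    have hnoethR : IsNoetherian Rᵐᵒᵖ R := by
      refine isNoetherian_of_surjective (LinearMap.toSpanSingleton Rᵐᵒᵖ R (1 : R)) ?_
      rw [LinearMap.range_eq_top]
      intro x
      exact ⟨op x, by simp [LinearMap.toSpanSingleton_apply]⟩
    let PR : Submodule Rᵐᵒᵖ R :=
      { carrier := {x | x ∈ P}
        add_mem' := fun {a b} ha hb => P.add_mem ha hb
        zero_mem' := P.zero_mem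
        smul_mem' := fun c a ha => by
          show c • a ∈ P
          rw [MulOpposite.smul_eq_mul_unop]
          exact Ideal.mul_mem_right _ _ ha }
    let X0 : Submodule Rᵐᵒᵖ PR :=
      { carrier := {x | (x : R) ∈ U}
        add_mem' := fun {a b} ha hb => U.add_mem ha hb
        zero_mem' := U.zero_mem
        smul_mem' := fun c a ha => by
          show ((c • a : PR) : R) ∈ U
          rw [Submodule.coe_smul, MulOpposite.smul_eq_mul_unop]
          exact hUr _ ha _ }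
    have hnoethPR : IsNoetherian Rᵐᵒᵖ PR := inferInstance
    have hfin : Module.Finite Rᵐᵒᵖ (PR ⧸ X0) := inferInstance
    have hart : IsArtinian Rᵐᵒᵖ (PR ⧸ X0) := by
      refine artinian_of_killed ?_
      intro j hj v
      obtain ⟨v, rfl⟩ := X0.mkQ_surjective v
      rw [← map_smul, Submodule.mkQ_apply, Submodule.Quotient.mk_eq_zero]
      show ((j • v : PR) : R) ∈ U
      rw [Submodule.coe_smul, MulOpposite.smul_eq_mul_unop]
      exact hUJ _ v.2 _ (mem_J_op.1 hj)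
    let Θ : AddSubgroup (PR × R) :=
      { carrier := {z | (z.1 : R) = z.2}
        add_mem' := fun {a b} ha hb => by
          show ((a.1 + b.1 : PR) : R) = a.2 + b.2
          rw [Submodule.coe_add]
          exact congrArg₂ (· + ·) ha hb
        zero_mem' := rfl
        neg_mem' := fun {a} ha => by
          show ((-a.1 : PR) : R) = -a.2
          rw [Submodule.coe_neg]
          exact congrArg Neg.neg ha }
    obtain ⟨q, hq1, hq2, hq3⟩ := lenagan (A := R) (B := Rᵐᵒᵖ) (V := R) (X := PR) U P hUlt X0 Θ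
      (fun x => ⟨(x : R), rfl⟩) (fun y hy => ⟨⟨y, hy⟩, rfl⟩)
      (fun x y hxy => by
        have h : (x : R) = y := hxy
        rw [← h]; exact x.2)
      (fun x y hxy => by
        have h : (x : R) = y := hxy
        rw [← h]; exact Iff.rfl)
      (fun a => by
        refine ⟨{ toFun := fun x => ⟨a * (x : R), P.mul_mem_left a x.2⟩
                  map_add' := fun x y => Subtype.ext (by simp [mul_add])
                  map_smul' := fun c x => Subtype.ext (by
                    simp only [Submodule.coe_smul, MulOpposite.smul_eq_mul_unop, mul_assoc,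
                      RingHom.id_apply]) }, ?_⟩
        intro x y hxy
        have h : (x : R) = y := hxy
        show a * (x : R) = a • y
        rw [h, smul_eq_mul])
    apply hq2
    refine ⟨hq1, fun r => ?_⟩
    have h1 : q * r ∈ J R := Ideal.mul_mem_right r _ (hPJ hq1)
    refine ⟨h1, ?_⟩
    refine eval_injective_four W W' hW hW' hlt P hP hJP _ (hs _) ?_
    intro j hj
    have h2 := (hq3 j hj).2 r
    obtain ⟨h3, h4⟩ := h2
    have h5 : j • s ⟨q * r, h1⟩ = s ⟨j • q * r, h3⟩ := by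
      rw [← map_smul]
      congr 1
      apply Subtype.ext
      show j * (q * r) = j * q * r
      rw [mul_assoc]
    rw [h5]
    exact h4
  · have hUeq : U = P := by
      rcases eq_or_lt_of_le hUP with h | h
      · exact h
      · exact absurd h hUlt
    have hpU : p ∈ U := by rw [hUeq]; exact hp
    have h := hpU.2 1
    rw [mul_one] at h
    exact h.2

/-- TARGET -/
theorem eval_injective {R : Type} [Ring R] [IsLocalRing R] [IsNoetherianRing R]
    [IsNoetherianRing Rᵐᵒᵖ]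
    {M : Type} [AddCommGroup M] [Module R M] [Module Rᵐᵒᵖ M] [SMulCommClass R Rᵐᵒᵖ M]
    [IsNoetherian R M] [IsNoetherian Rᵐᵒᵖ M]
    (W W' : Submodule Rᵐᵒᵖ M) (hW : ∀ (r : R) (y : M), y ∈ W → r • y ∈ W)
    (hW' : ∀ (r : R) (y : M), y ∈ W' → r • y ∈ W') (hlt : W < W')
    (P : Ideal R) [P.IsTwoSided] (hPne : P ≠ ⊤)
    (hprime : ∀ a b : R, (∀ s, a * s * b ∈ P) → a ∈ P ∨ b ∈ P)
    (hP : ∀ W'' : Submodule Rᵐᵒᵖ M, (∀ (r : R) (y : M), y ∈ W'' → r • y ∈ W'') → W < W'' →
      W'' ≤ W' → ∀ r : R, (∀ y ∈ W'', r • y ∈ W) ↔ r ∈ P)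
    (hPJ : P ≠ J R) :
    ∃ c : J R, ∀ s : J R →ₗ[R] M, (∀ j, s j ∈ W') → s c ∈ W → ∀ j, s j ∈ W := by
  have hPJ' : P ≤ J R := le_J hPne
  have hJP : ¬ J R ≤ P := fun h => hPJ (le_antisymm hPJ' h)
  obtain ⟨c, hcJ, L, hL1, hL2, hL3, hL4⟩ := exists_gabriel P hPne hprime (J R) hJP
  let t : Submodule Rᵐᵒᵖ M :=
    { carrier := {y | y ∈ W' ∧ ∃ A ∈ L, ∀ a ∈ A, a • y ∈ W}
      add_mem' := by
        rintro x y ⟨hx, A, hA, hAx⟩ ⟨hy, B, hB, hBy⟩
        refine ⟨W'.add_mem hx hy, A ⊓ B, hL2 A hA B hB, fun a ha => ?_⟩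
        rw [smul_add]
        exact W.add_mem (hAx a ha.1) (hBy a ha.2)
      zero_mem' := ⟨W'.zero_mem, _, hL4, fun a _ => by rw [smul_zero]; exact W.zero_mem⟩
      smul_mem' := by
        rintro r x ⟨hx, A, hA, hAx⟩
        refine ⟨W'.smul_mem r hx, A, hA, fun a ha => ?_⟩
        rw [smul_comm]
        exact W.smul_mem r (hAx a ha) }
  have htst : ∀ (r : R) (y : M), y ∈ t → r • y ∈ t := by
    rintro r y ⟨hy, A, hA, hAy⟩
    refine ⟨hW' r y hy, _, hL3 A hA r, fun a ha => ?_⟩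
    rw [smul_smul]
    exact hAy _ (by simpa [LinearMap.toSpanSingleton_apply] using ha)
  have htW' : t ≤ W' := fun y hy => hy.1
  have hWt : W ≤ t := fun y hy => ⟨hlt.le hy, _, hL4, fun a _ => hW a y hy⟩
  have htW : t ≤ W := by
    by_contra hnot
    have hlt2 : W < t := lt_of_le_not_ge hWt hnot
    obtain ⟨S, hS⟩ : t.FG := IsNoetherian.noetherian t
    have hfin : ∀ S' : Finset M, (∀ y ∈ S', y ∈ t) → ∃ A ∈ L, ∀ y ∈ S', ∀ a ∈ A, a • y ∈ W := by
      classical
      intro S'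
      induction S' using Finset.induction_on with
      | empty => exact fun _ => ⟨_, hL4, by simp⟩
      | insert x S' hx ih =>
        intro h
        obtain ⟨A, hA, hAS⟩ := ih (fun y hy => h y (Finset.mem_insert_of_mem hy))
        obtain ⟨-, B, hB, hBx⟩ := h x (Finset.mem_insert_self _ _)
        refine ⟨A ⊓ B, hL2 A hA B hB, ?_⟩
        intro y hy a ha
        rcases Finset.mem_insert.1 hy with rfl | hy
        · exact hBx a ha.2
        · exact hAS y hy a ha.1
    obtain ⟨A, hA, hAS⟩ := hfin S (fun y hy => by rw [← hS]; exact Submodule.subset_span hy)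
    apply hL1 A hA
    intro a ha
    refine (hP t htst hlt2 htW' a).1 ?_
    intro y hy
    rw [← hS] at hy
    induction hy using Submodule.span_induction with
    | mem x hx => exact hAS x hx a ha
    | zero => rw [smul_zero]; exact W.zero_mem
    | add x y _ _ hx hy => rw [smul_add]; exact W.add_mem hx hy
    | smul r x _ hx => rw [smul_comm]; exact W.smul_mem r hx
  refine ⟨⟨c, hcJ⟩, fun s hs hsc j => ?_⟩
  apply htW
  refine ⟨hs j, _, hL3 _ hL4 (j : R), fun r hr => ?_⟩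
  have hr' : r * (j : R) ∈ Ideal.span {c} ⊔ P := by
    simpa [LinearMap.toSpanSingleton_apply] using hr
  obtain ⟨z, hz, p, hp, hzp⟩ := Submodule.mem_sup.1 hr'
  obtain ⟨x, rfl⟩ := Submodule.mem_span_singleton.1 hz
  have h1 : r • s j = x • s ⟨c, hcJ⟩ + s ⟨p, hPJ' hp⟩ := by
    rw [← map_smul, ← map_smul, ← map_add]
    congr 1
    apply Subtype.ext
    show r * (j : R) = x • c + p
    exact hzp.symm
  rw [h1]
  exact W.add_mem (hW x _ hsc)
    (eval_injective_five W W' hW hW' hlt P hPne hP hJP s hs p hp (hPJ' hp))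

end GD4
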