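import Pool.Agent.Helper576_GD4.StepKilled
import Pool.Agent.Helper576_GD4.EvalInj

set_option autoImplicit false

open MulOpposite

namespace GD4

/-- maps `J → M` with values in `W`, as a right submodule -/
def homInto {R : Type} [Ring R] [IsLocalRing R] {M : Type} [AddCommGroup M] [Module R M]
    [Module Rᵐᵒᵖ M] [SMulCommClass R Rᵐᵒᵖ M] (W : Submodule Rᵐᵒᵖ M) :
    Submodule Rᵐᵒᵖ (J R →ₗ[R] M) where
  carrier := {s | ∀ j, s j ∈ W}
  add_mem' := fun ha hb j => W.add_mem (ha j) (hb j)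
  zero_mem' := fun _ => W.zero_mem
  smul_mem' := fun c _ hx j => W.smul_mem c (hx j)


/-- kernel bound: if an `Rᵐᵒᵖ`-linear map out of `homInto W'` kills only maps with values in `W`. -/
theorem homInto_bound {R : Type} [Ring R] [IsLocalRing R]
    {M : Type} [AddCommGroup M] [Module R M] [Module Rᵐᵒᵖ M] [SMulCommClass R Rᵐᵒᵖ M]
    (g : LengthFn Rᵐᵒᵖ) (W W' : Submodule Rᵐᵒᵖ M)
    {Q : Type} [AddCommGroup Q] [Module Rᵐᵒᵖ Q] (φ : homInto (R := R) W' →ₗ[Rᵐᵒᵖ] Q)
    (hφ : ∀ s, φ s = 0 → ∀ j, (s : J R →ₗ[R] M) j ∈ W) :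
    g.f (homInto (R := R) W') ≤ g.f (homInto (R := R) W) + g.f Q := by
  rw [g.ker_add_range φ]
  refine add_le_add ?_ (g.le_top _)
  let ψ : LinearMap.ker φ →ₗ[Rᵐᵒᵖ] homInto (R := R) W :=
    { toFun := fun s => ⟨(s.1 : J R →ₗ[R] M), hφ s.1 s.2⟩
      map_add' := fun _ _ => rfl
      map_smul' := fun _ _ => rfl }
  refine g.le_of_inj ψ ?_
  intro s t hst
  have h1 : ((ψ s : homInto (R := R) W) : J R →ₗ[R] M) = ((ψ t : homInto (R := R) W) : J R →ₗ[R] M) := by
    rw [hst]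
  have h2 : ((s.1 : homInto (R := R) W') : J R →ₗ[R] M) = ((t.1 : homInto (R := R) W') : J R →ₗ[R] M) := h1
  exact Subtype.ext (Subtype.ext h2)

/-- evaluation at `c`, modulo `W` -/
def evalMod {R : Type} [Ring R] [IsLocalRing R]
    {M : Type} [AddCommGroup M] [Module R M] [Module Rᵐᵒᵖ M] [SMulCommClass R Rᵐᵒᵖ M]
    (W W' : Submodule Rᵐᵒᵖ M) (c : J R) :
    homInto (R := R) W' →ₗ[Rᵐᵒᵖ] (W' ⧸ (W.submoduleOf W')) :=
  (W.submoduleOf W').mkQ ∘ₗ
    { toFun := fun s => (⟨(s : J R →ₗ[R] M) c, s.2 c⟩ : W')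
      map_add' := fun _ _ => rfl
      map_smul' := fun _ _ => rfl }

theorem evalMod_eq_zero {R : Type} [Ring R] [IsLocalRing R]
    {M : Type} [AddCommGroup M] [Module R M] [Module Rᵐᵒᵖ M] [SMulCommClass R Rᵐᵒᵖ M]
    (W W' : Submodule Rᵐᵒᵖ M) (c : J R) (s : homInto (R := R) W') :
    evalMod W W' c s = 0 ↔ (s : J R →ₗ[R] M) c ∈ W := by
  unfold evalMod
  rw [LinearMap.comp_apply, Submodule.mkQ_apply, Submodule.Quotient.mk_eq_zero]
  rfl

theorem quot_add {R : Type} [Ring R] {M : Type} [AddCommGroup M] [Module Rᵐᵒᵖ M]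
    (g : LengthFn Rᵐᵒᵖ) (W W' : Submodule Rᵐᵒᵖ M) (h : W ≤ W') :
    g.f W' = g.f W + g.f (W' ⧸ (W.submoduleOf W')) := by
  rw [g.sub_add_quot (W.submoduleOf W'), g.congr (Submodule.submoduleOfEquivOfLe h)]

/-- the (two-sided) ideal of elements sending `W''` into `W` -/
def PI {R : Type} [Ring R]
    {M : Type} [AddCommGroup M] [Module R M] [Module Rᵐᵒᵖ M]
    (W W'' : Submodule Rᵐᵒᵖ M) (hW : ∀ (r : R) (y : M), y ∈ W → r • y ∈ W) : Ideal R where
  carrier := {r | ∀ y ∈ W'', r • y ∈ W}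
  add_mem' := fun {a b} ha hb y hy => by rw [add_smul]; exact W.add_mem (ha y hy) (hb y hy)
  zero_mem' := fun y _ => by rw [zero_smul]; exact W.zero_mem
  smul_mem' := fun c x hx y hy => by rw [smul_eq_mul, mul_smul]; exact hW c _ (hx y hy)

theorem mem_PI {R : Type} [Ring R]
    {M : Type} [AddCommGroup M] [Module R M] [Module Rᵐᵒᵖ M]
    (W W'' : Submodule Rᵐᵒᵖ M) (hW : ∀ (r : R) (y : M), y ∈ W → r • y ∈ W) (r : R) :
    r ∈ PI W W'' hW ↔ ∀ y ∈ W'', r • y ∈ W := Iff.rfl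

/-- TARGET -/
theorem E_ineq {R : Type} [Ring R] [IsLocalRing R] [IsNoetherianRing R] [IsNoetherianRing Rᵐᵒᵖ]
    {M : Type} [AddCommGroup M] [Module R M] [Module Rᵐᵒᵖ M] [SMulCommClass R Rᵐᵒᵖ M]
    [IsNoetherian R M] [IsNoetherian Rᵐᵒᵖ M]
    (g : LengthFn Rᵐᵒᵖ)
    (hg : ∀ (X : Type) [AddCommGroup X] [Module Rᵐᵒᵖ X], IsArtinian Rᵐᵒᵖ X → g.f X = 0)
    (Y : Submodule Rᵐᵒᵖ M) (hY : ∀ (r : R) (y : M), y ∈ Y → r • y ∈ Y) :
    g.f (homInto Y) ≤ g.f Y := by
  classical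
  let good : Set (Submodule Rᵐᵒᵖ M) :=
    {W | (∀ (r : R) (y : M), y ∈ W → r • y ∈ W) ∧ W ≤ Y ∧ g.f (homInto (R := R) W) ≤ g.f W}
  have hbot : (⊥ : Submodule Rᵐᵒᵖ M) ∈ good := by
    refine ⟨?_, bot_le, ?_⟩
    · intro r y hy
      rw [Submodule.mem_bot] at hy ⊢
      rw [hy, smul_zero]
    · have : Subsingleton (homInto (R := R) (⊥ : Submodule Rᵐᵒᵖ M)) := by
        refine ⟨fun s t => Subtype.ext (LinearMap.ext fun j => ?_)⟩
        have h1 := s.2 j
        have h2 := t.2 j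
        rw [Submodule.mem_bot] at h1 h2
        rw [h1, h2]
      rw [g.zero]
      exact zero_le
  obtain ⟨W, ⟨hWs, hWY, hWg⟩, hmax⟩ :=
    WellFounded.has_min (wellFounded_gt (α := Submodule Rᵐᵒᵖ M)) good ⟨⊥, hbot⟩
  rcases eq_or_lt_of_le hWY with heq | hlt
  · rw [← heq]; exact hWg
  exfalso
  let cand : Set (Submodule Rᵐᵒᵖ M) :=
    {W'' | (∀ (r : R) (y : M), y ∈ W'' → r • y ∈ W'') ∧ W < W'' ∧ W'' ≤ Y}
  obtain ⟨_, ⟨W', ⟨hW's, hWW', hW'Y⟩, rfl⟩, hPmax⟩ :=
    WellFounded.has_min (wellFounded_gt (α := Ideal R)) ((fun W'' => PI W W'' hWs) '' cand)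
      ⟨_, ⟨Y, ⟨hY, hlt, le_rfl⟩, rfl⟩⟩
  have hPmax' : ∀ W'' ∈ cand, ¬ (PI W W' hWs < PI W W'' hWs) := fun W'' h =>
    hPmax _ ⟨W'', h, rfl⟩
  set P := PI W W' hWs with hPdef
  have hPts : P.IsTwoSided := by
    refine ⟨fun {a} b ha y hy => ?_⟩
    rw [mul_smul]
    exact ha _ (hW's b y hy)
  have hPne : P ≠ ⊤ := by
    intro h
    have h1 : (1 : R) ∈ P := h ▸ Submodule.mem_top
    have : W' ≤ W := fun y hy => by simpa using h1 y hy
    exact absurd this (not_le_of_gt hWW')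
  have hPeq : ∀ W'' : Submodule Rᵐᵒᵖ M, (∀ (r : R) (y : M), y ∈ W'' → r • y ∈ W'') → W < W'' →
      W'' ≤ W' → P = PI W W'' hWs := by
    intro W'' h1 h2 h3
    have hle : P ≤ PI W W'' hWs := fun r hr y hy => hr y (h3 hy)
    rcases eq_or_lt_of_le hle with h | h
    · exact h
    · exact absurd h (hPmax' W'' ⟨h1, h2, h3.trans hW'Y⟩)
  have hP : ∀ W'' : Submodule Rᵐᵒᵖ M, (∀ (r : R) (y : M), y ∈ W'' → r • y ∈ W'') → W < W'' →
      W'' ≤ W' → ∀ r : R, (∀ y ∈ W'', r • y ∈ W) ↔ r ∈ P := by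
    intro W'' h1 h2 h3 r
    rw [hPeq W'' h1 h2 h3]
    exact Iff.rfl
  have hprime : ∀ a b : R, (∀ s, a * s * b ∈ P) → a ∈ P ∨ b ∈ P := by
    intro a b hab
    by_cases hb : b ∈ P
    · exact Or.inr hb
    left
    let S : Set M := {x | ∃ (s : R) (y : M), y ∈ W' ∧ x = s • (b • y)}
    let W'' : Submodule Rᵐᵒᵖ M := W ⊔ Submodule.span Rᵐᵒᵖ S
    have hspan : ∀ (r : R) (y : M), y ∈ Submodule.span Rᵐᵒᵖ S → r • y ∈ Submodule.span Rᵐᵒᵖ S := by
      intro r y hy
      induction hy using Submodule.span_induction with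
      | mem x hx =>
        obtain ⟨s, z, hz, rfl⟩ := hx
        exact Submodule.subset_span ⟨r * s, z, hz, by rw [mul_smul]⟩
      | zero => rw [smul_zero]; exact Submodule.zero_mem _
      | add x y _ _ hx hy => rw [smul_add]; exact Submodule.add_mem _ hx hy
      | smul c x _ hx => rw [smul_comm]; exact Submodule.smul_mem _ _ hx
    have hst : ∀ (r : R) (y : M), y ∈ W'' → r • y ∈ W'' := by
      intro r y hy
      obtain ⟨u, hu, v, hv, rfl⟩ := Submodule.mem_sup.1 hy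
      rw [smul_add]
      exact Submodule.add_mem _ (Submodule.mem_sup_left (hWs r u hu))
        (Submodule.mem_sup_right (hspan r v hv))
    have hle : W'' ≤ W' := by
      refine sup_le hWW'.le (Submodule.span_le.2 ?_)
      rintro x ⟨s, y, hy, rfl⟩
      exact hW's s _ (hW's b y hy)
    have hlt' : W < W'' := by
      refine lt_of_le_of_ne le_sup_left ?_
      intro h
      apply hb
      intro y hy
      rw [h]
      refine Submodule.mem_sup_right (Submodule.subset_span ⟨1, y, hy, by rw [one_smul]⟩)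
    have haP : a ∈ PI W W'' hWs := by
      intro x hx
      obtain ⟨u, hu, v, hv, rfl⟩ := Submodule.mem_sup.1 hx
      rw [smul_add]
      refine W.add_mem (hWs a u hu) ?_
      clear hx
      induction hv using Submodule.span_induction with
      | mem x hx =>
        obtain ⟨s, z, hz, rfl⟩ := hx
        have := hab s z hz
        rwa [mul_smul, mul_smul] at this
      | zero => rw [smul_zero]; exact Submodule.zero_mem _
      | add x y _ _ hx hy => rw [smul_add]; exact Submodule.add_mem _ hx hy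
      | smul c x _ hx => rw [smul_comm]; exact Submodule.smul_mem _ _ hx
    rw [hPeq W'' hst hlt' hle]
    exact haP
  by_cases hPJ : P = J R
  · -- Case A
    have hJ : ∀ j ∈ J R, ∀ y ∈ W', j • y ∈ W := by
      intro j hj
      rw [← hPJ] at hj
      exact hj
    obtain ⟨W'', hst, hlt', hle, hk⟩ := step_killed W W' hWs hW's hWW' hJ
    have hQfin : Module.Finite Rᵐᵒᵖ (W'' ⧸ (W.submoduleOf W'')) := inferInstance
    have hQart : IsArtinian Rᵐᵒᵖ (W'' ⧸ (W.submoduleOf W'')) := by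
      refine artinian_of_killed ?_
      intro j hj v
      obtain ⟨⟨b, hb⟩, rfl⟩ := (W.submoduleOf W'').mkQ_surjective v
      rw [← map_smul, Submodule.mkQ_apply, Submodule.Quotient.mk_eq_zero]
      exact hk j hj b hb
    have hQ0 : g.f (W'' ⧸ (W.submoduleOf W'')) = 0 := hg _ hQart
    obtain ⟨m, x, hx⟩ := Submodule.fg_iff_exists_fin_generating_family.1
      (show (⊤ : Submodule R (J R)).FG from Module.Finite.fg_top)
    let φ : homInto (R := R) W'' →ₗ[Rᵐᵒᵖ] (Fin m → (W'' ⧸ (W.submoduleOf W''))) :=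
      LinearMap.pi fun i => evalMod W W'' (x i)
    have hb := homInto_bound g W W'' φ (by
      intro s hs j
      have hs' : ∀ i, (s : J R →ₗ[R] M) (x i) ∈ W := by
        intro i
        rw [← evalMod_eq_zero W W'']
        exact congrFun hs i
      have hj : j ∈ Submodule.span R (Set.range x) := by rw [hx]; exact Submodule.mem_top
      induction hj using Submodule.span_induction with
      | mem y hy => obtain ⟨i, rfl⟩ := hy; exact hs' i
      | zero => rw [map_zero]; exact W.zero_mem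
      | add a b _ _ ha hb => rw [map_add]; exact W.add_mem ha hb
      | smul c a _ ha => rw [map_smul]; exact hWs c _ ha)
    rw [g.pi, hQ0, mul_zero, add_zero] at hb
    refine hmax W'' ⟨hst, hle.trans hW'Y, ?_⟩ hlt'
    exact hb.trans (hWg.trans (g.le_of_le hlt'.le))
  · -- Case B
    obtain ⟨c, hc⟩ := eval_injective W W' hWs hW's hWW' P hPne hprime hP hPJ
    have hb := homInto_bound g W W' (evalMod W W' c) (by
      intro s hs
      rw [evalMod_eq_zero] at hs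
      exact hc s.1 s.2 hs)
    refine hmax W' ⟨hW's, hW'Y, ?_⟩ hWW'
    rw [quot_add g W W' hWW'.le]
    exact hb.trans (add_le_add hWg le_rfl)

end GD4
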