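import Pool.Agent.Helper576_GD4.Defs

set_option autoImplicit false

open MulOpposite

namespace GD4

theorem pd_api {T : Type} [Ring T] {P M : Type} [AddCommGroup P] [AddCommGroup M] [Module T P]
    [Module T M] :
    (∀ (p : P →ₗ[T] M), Function.Surjective p → Module.Projective T P →
      ∀ (n : ℕ), PdLE T M (n + 1) ↔ PdLE T (LinearMap.ker p) n) ∧
    (∀ (_ : P ≃ₗ[T] M) (n : ℕ), PdLE T P n ↔ PdLE T M n) ∧
    (PdLE T M 0 ↔ Module.Projective T M) := by
  refine ⟨fun p hp hP n => ?_, fun e n => ?_, ?_⟩
  · unfold PdLE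
    have hS := LinearMap.shortExact_shortComplexKer hp
    have hproj : CategoryTheory.Projective (ModuleCat.of T P) :=
      (IsProjective.iff_projective P).1 hP
    exact hS.hasProjectiveDimensionLT_X₃_iff n hproj
  · unfold PdLE
    constructor
    · intro h
      exact CategoryTheory.hasProjectiveDimensionLT_of_iso e.toModuleIso (n + 1)
    · intro h
      exact CategoryTheory.hasProjectiveDimensionLT_of_iso e.toModuleIso.symm (n + 1)
  · unfold PdLE
    rw [← CategoryTheory.projective_iff_hasProjectiveDimensionLE_zero,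
      ← IsProjective.iff_projective]

theorem pd_ker {T : Type} [Ring T] {P M : Type} [AddCommGroup P] [AddCommGroup M] [Module T P]
    [Module T M] (p : P →ₗ[T] M) (hp : Function.Surjective p) (hP : Module.Projective T P)
    (n : ℕ) : PdLE T M (n + 1) ↔ PdLE T (LinearMap.ker p) n :=
  (pd_api (T := T) (P := P) (M := M)).1 p hp hP n

theorem pd_congr {T : Type} [Ring T] {P M : Type} [AddCommGroup P] [AddCommGroup M] [Module T P]
    [Module T M] (e : P ≃ₗ[T] M) (n : ℕ) : PdLE T P n ↔ PdLE T M n :=
  (pd_api (T := T) (P := P) (M := M)).2.1 e n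

theorem pd_zero {T : Type} [Ring T] {M : Type} [AddCommGroup M] [Module T M] :
    PdLE T M 0 ↔ Module.Projective T M :=
  (pd_api (T := T) (P := M) (M := M)).2.2

end GD4
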