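import Pool.Agent.Helper576_GD4.Cover
import Pool.Agent.Helper576_GD4.Pd
import Pool.Agent.Helper576_GD4.Length

set_option autoImplicit false

open MulOpposite

namespace GD4

/-- TARGET -/
theorem euler {T : Type} [Ring T] [IsLocalRing T] [IsNoetherianRing T] (f : LengthFn T) (ρ : ℕ)
    (hρ : f.f T = ρ) (n : ℕ) : ∀ (M : Type) [AddCommGroup M] [Module T M] [Module.Finite T M],
    PdLE T M n → ∃ (z : ℤ) (m : ℕ), f.f M = m ∧ (m : ℤ) = z * ρ := by
  induction n with
  | zero =>
    intro M _ _ _ hM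
    obtain ⟨k, e, he, _, hinj⟩ := exists_cover (T := T) M
    have hi : Function.Injective e := hinj inferInstance (pd_zero.1 hM)
    have e' : (Fin k → T) ≃ₗ[T] M := LinearEquiv.ofBijective e ⟨hi, he⟩
    refine ⟨(k : ℤ), k * ρ, ?_, ?_⟩
    · rw [← f.congr e', f.pi, hρ]
      push_cast
      rfl
    · push_cast
      rfl
  | succ n ih =>
    intro M _ _ _ hM
    obtain ⟨k, e, he, _, _⟩ := exists_cover (T := T) M
    have hK : PdLE T (LinearMap.ker e) n := (pd_ker e he inferInstance n).1 hM
    have : Module.Finite T (LinearMap.ker e) := inferInstance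
    obtain ⟨z, m, hm, hz⟩ := ih (LinearMap.ker e) hK
    have h1 := f.add (LinearMap.ker e).subtype e (LinearMap.ker e).subtype_injective he (by simp)
    rw [f.pi, hρ, hm] at h1
    have h2 : f.f M ≠ ⊤ := by
      intro h
      rw [h, add_top] at h1
      have h3 : ((k * ρ : ℕ) : ℕ∞) = ⊤ := by push_cast; exact h1
      exact ENat.coe_ne_top _ h3
    obtain ⟨m', hm'⟩ := ENat.ne_top_iff_exists.1 h2
    rw [← hm'] at h1
    have h4 : k * ρ = m + m' := by exact_mod_cast h1
    refine ⟨(k : ℤ) - z, m', hm'.symm, ?_⟩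
    have h5 : (k : ℤ) * ρ = m + m' := by exact_mod_cast h4
    rw [sub_mul, ← hz]
    linarith

end GD4
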