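import Pool.Agent.Helper576_GD4.Res2

set_option autoImplicit false

open MulOpposite

namespace GD4

theorem leftRes2_vec {R : Type} [Ring R] {m n : ℕ} (d : (Fin m → R) →ₗ[R] (Fin n → R))
    (y : Fin m → R) :
    d y = Matrix.vecMul y (Matrix.of fun i j => d (Pi.single i 1) j) := by
  have hy : y = ∑ i, y i • (Pi.single i (1 : R) : Fin m → R) := by
    ext k
    simp [Finset.sum_apply, Pi.single_apply]
  funext j
  conv_lhs => rw [hy, map_sum]
  rw [Finset.sum_apply, Matrix.vecMul, dotProduct]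
  refine Finset.sum_congr rfl fun i _ => ?_
  rw [map_smul, Pi.smul_apply, smul_eq_mul]
  rfl

theorem leftRes2_lin {R : Type} [Ring R] {M : Type} [AddCommGroup M] [Module R M] {m : ℕ}
    (t : (Fin m → R) →ₗ[R] M) (y : Fin m → R) :
    t y = ∑ i, y i • t (Pi.single i 1) := by
  have hy : y = ∑ i, y i • (Pi.single i (1 : R) : Fin m → R) := by
    ext k
    simp [Finset.sum_apply, Pi.single_apply]
  conv_lhs => rw [hy, map_sum]
  exact Finset.sum_congr rfl fun i _ => map_smul _ _ _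

/-- TARGET -/
theorem leftRes2 {R : Type} [Ring R] [IsLocalRing R] [IsNoetherianRing R] {M : Type}
    [AddCommGroup M] [Module R M] [Module.Finite R M] (h : PdLE R M 2) :
    ∃ (c b a : ℕ) (t : Fin c → M) (B1 : Matrix (Fin b) (Fin c) R) (B2 : Matrix (Fin a) (Fin b) R),
      (∀ y : M, ∃ x : Fin c → R, y = ∑ i, x i • t i) ∧
      (∀ x : Fin c → R, ∑ i, x i • t i = 0 ↔ ∃ y, x = Matrix.vecMul y B1) ∧
      (∀ y : Fin b → R, Matrix.vecMul y B1 = 0 ↔ ∃ z, y = Matrix.vecMul z B2) ∧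
      (∀ z : Fin a → R, Matrix.vecMul z B2 = 0 → z = 0) ∧
      (∀ i j, B1 i j ∈ J R) ∧
      (∀ f : LengthFn R, f.f R = 1 → f.f M + (b : ℕ∞) = (c : ℕ∞) + (a : ℕ∞)) := by
  obtain ⟨c, b, a, t, d1, d2, h1, h2, h3, h4, h5, h6⟩ := res2 h
  refine ⟨c, b, a, fun i => t (Pi.single i 1), Matrix.of fun i j => d1 (Pi.single i 1) j,
    Matrix.of fun i j => d2 (Pi.single i 1) j, ?_, ?_, ?_, ?_, ?_, h6⟩
  · intro y
    obtain ⟨x, rfl⟩ := h1 y
    exact ⟨x, leftRes2_lin t x⟩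
  · intro x
    rw [← leftRes2_lin t x, ← LinearMap.mem_ker, ← h2, LinearMap.mem_range]
    constructor
    · rintro ⟨y, rfl⟩
      exact ⟨y, leftRes2_vec d1 y⟩
    · rintro ⟨y, rfl⟩
      exact ⟨y, leftRes2_vec d1 y⟩
  · intro y
    rw [← leftRes2_vec d1 y, ← LinearMap.mem_ker, ← h3, LinearMap.mem_range]
    constructor
    · rintro ⟨z, rfl⟩
      exact ⟨z, leftRes2_vec d2 z⟩
    · rintro ⟨z, rfl⟩
      exact ⟨z, leftRes2_vec d2 z⟩
  · intro z hz
    rw [← leftRes2_vec d2 z] at hz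
    exact h4 (hz.trans (map_zero d2).symm)
  · intro i j
    exact h5 _ _

end GD4
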