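import Pool.Agent.Helper576_GD4.Res3

set_option autoImplicit false

open MulOpposite

namespace GD4

theorem lin_eq_vecMul {R : Type} [Ring R] {m n : ℕ} (d : (Fin m → R) →ₗ[R] (Fin n → R))
    (y : Fin m → R) : d y = Matrix.vecMul y (Matrix.of fun i j => d (Pi.single i 1) j) := by
  have hy : y = ∑ i, y i • (Pi.single i 1 : Fin m → R) := by
    ext k
    simp [Finset.sum_apply, Pi.single_apply]
  conv_lhs => rw [hy, map_sum]
  ext j
  simp [Matrix.vecMul, dotProduct, Finset.sum_apply]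

theorem lin_eq_sum {R : Type} [Ring R] {m : ℕ} {M : Type} [AddCommGroup M] [Module R M]
    (d : (Fin m → R) →ₗ[R] M) (y : Fin m → R) : d y = ∑ i, y i • d (Pi.single i 1) := by
  have hy : y = ∑ i, y i • (Pi.single i 1 : Fin m → R) := by
    ext k
    simp [Finset.sum_apply, Pi.single_apply]
  conv_lhs => rw [hy, map_sum]
  simp

/-- TARGET -/
theorem leftRes3 {R : Type} [Ring R] [IsLocalRing R] [IsNoetherianRing R] {M : Type}
    [AddCommGroup M] [Module R M] [Module.Finite R M] (h : PdLE R M 3) :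
    ∃ (g0 g1 g2 g3 : ℕ) (e : Fin g0 → M) (A1 : Matrix (Fin g1) (Fin g0) R)
      (A2 : Matrix (Fin g2) (Fin g1) R) (A3 : Matrix (Fin g3) (Fin g2) R),
      (∀ y : M, ∃ x : Fin g0 → R, y = ∑ i, x i • e i) ∧
      (∀ x : Fin g0 → R, ∑ i, x i • e i = 0 ↔ ∃ y, x = Matrix.vecMul y A1) ∧
      (∀ y : Fin g1 → R, Matrix.vecMul y A1 = 0 ↔ ∃ z, y = Matrix.vecMul z A2) ∧
      (∀ y : Fin g2 → R, Matrix.vecMul y A2 = 0 ↔ ∃ z, y = Matrix.vecMul z A3) ∧
      (∀ z : Fin g3 → R, Matrix.vecMul z A3 = 0 → z = 0) := by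
  obtain ⟨g0, g1, g2, g3, e, d1, d2, d3, he, h1, h2, h3, h4, -, -⟩ := res3 h
  have key : ∀ {a b c : ℕ} (f : (Fin b → R) →ₗ[R] (Fin c → R)) (g : (Fin a → R) →ₗ[R] (Fin b → R)),
      LinearMap.range g = LinearMap.ker f → ∀ y : Fin b → R, f y = 0 ↔ ∃ z, y = g z := by
    intro a b c f g hfg y
    rw [← LinearMap.mem_ker, ← hfg, LinearMap.mem_range]
    exact ⟨fun ⟨z, hz⟩ => ⟨z, hz.symm⟩, fun ⟨z, hz⟩ => ⟨z, hz.symm⟩⟩
  refine ⟨g0, g1, g2, g3, fun i => e (Pi.single i 1), Matrix.of fun i j => d1 (Pi.single i 1) j,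
    Matrix.of fun i j => d2 (Pi.single i 1) j, Matrix.of fun i j => d3 (Pi.single i 1) j,
    ?_, ?_, ?_, ?_, ?_⟩
  · intro y
    obtain ⟨x, rfl⟩ := he y
    exact ⟨x, lin_eq_sum e x⟩
  · intro x
    rw [← lin_eq_sum e x]
    constructor
    · intro hx
      have : x ∈ LinearMap.range d1 := by
        rw [h1]
        exact hx
      obtain ⟨z, hz⟩ := this
      exact ⟨z, by rw [← lin_eq_vecMul, hz]⟩
    · rintro ⟨y, hy⟩
      rw [← lin_eq_vecMul] at hy
      have : x ∈ LinearMap.ker e := by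
        rw [← h1, hy]
        exact LinearMap.mem_range_self _ _
      exact this
  · intro y
    rw [← lin_eq_vecMul, key d1 d2 h2 y]
    simp only [← lin_eq_vecMul]
  · intro y
    rw [← lin_eq_vecMul, key d2 d3 h3 y]
    simp only [← lin_eq_vecMul]
  · intro z hz
    rw [← lin_eq_vecMul] at hz
    exact h4 (by rw [hz, map_zero])

end GD4
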