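import Pool.Agent.Helper576_GD4.Defs

set_option autoImplicit false

open MulOpposite

namespace GD4

/-- `bad S n M`: `M` has a chain of `n` steps outside `S`. -/
def bad {T : Type} [Ring T] (S : SerreClass T) :
    ℕ → ∀ (M : Type) [AddCommGroup M] [Module T M], Prop
  | 0, _, _, _ => True
  | n + 1, M, _, _ => ∃ N : Submodule T M, ¬ S.mem (M ⧸ N) ∧ bad S n N

section bad

variable {T : Type} [Ring T] (S : SerreClass T)

theorem bad_zero (M : Type) [AddCommGroup M] [Module T M] : bad S 0 M := by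
  simp [bad]

theorem bad_succ (n : ℕ) (M : Type) [AddCommGroup M] [Module T M] :
    bad S (n + 1) M ↔ ∃ N : Submodule T M, ¬ S.mem (M ⧸ N) ∧ bad S n N := by
  rw [bad]

theorem bad_mono_n : ∀ (n : ℕ) (M : Type) [AddCommGroup M] [Module T M],
    bad S (n + 1) M → bad S n M
  | 0, M, _, _, _ => bad_zero S M
  | n + 1, M, _, _, h => by
      obtain ⟨N, h1, h2⟩ := (bad_succ S (n + 1) M).1 h
      exact (bad_succ S n M).2 ⟨N, h1, bad_mono_n n N h2⟩

theorem bad_mono_le {m n : ℕ} (hmn : m ≤ n) (M : Type) [AddCommGroup M] [Module T M]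
    (h : bad S n M) : bad S m M := by
  induction n with
  | zero =>
      have : m = 0 := by omega
      subst this
      exact h
  | succ n ih =>
      by_cases h' : m = n + 1
      · subst h'; exact h
      · exact ih (by omega) (bad_mono_n S n M h)

theorem bad_mono_inj : ∀ (n : ℕ) (M N : Type) [AddCommGroup M] [Module T M]
    [AddCommGroup N] [Module T N] (g : M →ₗ[T] N), Function.Injective g →
    bad S n M → bad S n N
  | 0, _, N, _, _, _, _, _, _, _ => bad_zero S N
  | n + 1, M, N, _, _, _, _, g, hg, h => by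
      obtain ⟨K, h1, h2⟩ := (bad_succ S n M).1 h
      refine (bad_succ S n N).2 ⟨K.map g, ?_, ?_⟩
      · intro hm
        apply h1
        refine S.of_inj (K.mapQ (K.map g) g (Submodule.le_comap_map g K)) ?_ hm
        rw [← LinearMap.ker_eq_bot, Submodule.ker_mapQ]
        rw [Submodule.comap_map_eq_of_injective hg]
        simp
      · exact bad_mono_inj n K (K.map g) (Submodule.equivMapOfInjective g hg K).toLinearMap
          (Submodule.equivMapOfInjective g hg K).injective h2

end bad

/-- short exact sequences -/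
def SES {T : Type} [Ring T] {M' M M'' : Type} [AddCommGroup M'] [AddCommGroup M]
    [AddCommGroup M''] [Module T M'] [Module T M] [Module T M''] (i : M' →ₗ[T] M)
    (p : M →ₗ[T] M'') : Prop :=
  Function.Injective i ∧ Function.Surjective p ∧ LinearMap.range i = LinearMap.ker p

theorem SerreClass.mem_of_ses {T : Type} [Ring T] (S : SerreClass T) {M' M M'' : Type}
    [AddCommGroup M'] [AddCommGroup M]
    [AddCommGroup M''] [Module T M'] [Module T M] [Module T M''] {i : M' →ₗ[T] M}
    {p : M →ₗ[T] M''} (h : SES i p) (h1 : S.mem M') (h2 : S.mem M'') : S.mem M := by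
  obtain ⟨hi, hp, hr⟩ := h
  refine S.ext (LinearMap.ker p) ?_ ?_
  · have hk : ∀ x, i x ∈ LinearMap.ker p := by
      intro x; rw [← hr]; exact LinearMap.mem_range_self i x
    refine S.of_surj (i.codRestrict (LinearMap.ker p) hk) ?_ h1
    rintro ⟨y, hy⟩
    rw [← hr] at hy
    obtain ⟨x, rfl⟩ := hy
    exact ⟨x, rfl⟩
  · exact S.of_surj (p.quotKerEquivOfSurjective hp).symm.toLinearMap
      (p.quotKerEquivOfSurjective hp).symm.surjective h2

section ses

variable {T : Type} [Ring T] {M' M M'' : Type} [AddCommGroup M'] [AddCommGroup M]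
    [AddCommGroup M''] [Module T M'] [Module T M] [Module T M''] {i : M' →ₗ[T] M}
    {p : M →ₗ[T] M''}

theorem ses_sub (h : SES i p) (N : Submodule T M) :
    SES (i.restrict (p := N.comap i) (q := N) (fun _ hx => hx))
      (p.restrict (p := N) (q := N.map p) (fun _ hx => Submodule.mem_map_of_mem hx)) := by
  obtain ⟨hi, hp, hr⟩ := h
  refine ⟨?_, ?_, ?_⟩
  · rintro ⟨x, hx⟩ ⟨y, hy⟩ hxy
    have := congrArg Subtype.val hxy
    exact Subtype.ext (hi this)
  · rintro ⟨y, x, hx, rfl⟩
    exact ⟨⟨x, hx⟩, rfl⟩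
  · ext ⟨x, hx⟩
    constructor
    · rintro ⟨⟨y, hy⟩, h⟩
      have h' : i y = x := congrArg Subtype.val h
      rw [LinearMap.mem_ker]
      apply Subtype.ext
      change p x = 0
      rw [← h']
      have : i y ∈ LinearMap.ker p := by rw [← hr]; exact LinearMap.mem_range_self i y
      exact this
    · intro h
      have h' : p x = 0 := congrArg Subtype.val h
      have : x ∈ LinearMap.ker p := h'
      rw [← hr] at this
      obtain ⟨y, rfl⟩ := this
      exact ⟨⟨y, hx⟩, rfl⟩

theorem ses_quot (h : SES i p) (N : Submodule T M) :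
    SES ((N.comap i).mapQ N i le_rfl) (N.mapQ (N.map p) p (Submodule.le_comap_map p N)) := by
  obtain ⟨hi, hp, hr⟩ := h
  refine ⟨?_, ?_, ?_⟩
  · rw [← LinearMap.ker_eq_bot, Submodule.ker_mapQ]
    simp
  · intro y
    obtain ⟨y, rfl⟩ := Submodule.mkQ_surjective _ y
    obtain ⟨x, rfl⟩ := hp y
    exact ⟨N.mkQ x, rfl⟩
  · rw [Submodule.range_mapQ, Submodule.ker_mapQ, hr, Submodule.comap_map_eq, Submodule.map_sup]
    simp

theorem ses_comap (h : SES i p) (N : Submodule T M'') :
    SES (i.codRestrict (N.comap p) (fun x => by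
          have : i x ∈ LinearMap.ker p := by rw [← h.2.2]; exact LinearMap.mem_range_self i x
          rw [Submodule.mem_comap, LinearMap.mem_ker.1 this]; exact N.zero_mem))
      (p.restrict (p := N.comap p) (q := N) (fun _ hx => hx)) := by
  obtain ⟨hi, hp, hr⟩ := h
  refine ⟨?_, ?_, ?_⟩
  · intro x y hxy
    exact hi (congrArg Subtype.val hxy)
  · rintro ⟨y, hy⟩
    obtain ⟨x, rfl⟩ := hp y
    exact ⟨⟨x, hy⟩, rfl⟩
  · ext ⟨x, hx⟩
    constructor
    · rintro ⟨y, h⟩
      have h' : i y = x := congrArg Subtype.val h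
      rw [LinearMap.mem_ker]
      apply Subtype.ext
      change p x = 0
      rw [← h']
      have : i y ∈ LinearMap.ker p := by rw [← hr]; exact LinearMap.mem_range_self i y
      exact this
    · intro h
      have h' : p x = 0 := congrArg Subtype.val h
      have : x ∈ LinearMap.ker p := h'
      rw [← hr] at this
      obtain ⟨y, rfl⟩ := this
      exact ⟨y, rfl⟩

end ses

section badses

variable {T : Type} [Ring T] (S : SerreClass T)

theorem bad_split : ∀ (n : ℕ) {M' M M'' : Type} [AddCommGroup M'] [AddCommGroup M]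
    [AddCommGroup M''] [Module T M'] [Module T M] [Module T M''] {i : M' →ₗ[T] M}
    {p : M →ₗ[T] M''}, SES i p → bad S n M → ∃ a b, a + b = n ∧ bad S a M' ∧ bad S b M''
  | 0, M', M, M'', _, _, _, _, _, _, _, _, _, _ => ⟨0, 0, rfl, bad_zero S _, bad_zero S _⟩
  | n + 1, M', M, M'', _, _, _, _, _, _, i, p, h, hb => by
      obtain ⟨N, h1, h2⟩ := (bad_succ S n M).1 hb
      obtain ⟨a, b, hab, ha, hb'⟩ := bad_split n (ses_sub h N) h2
      by_cases hm : S.mem (M' ⧸ N.comap i)
      · have hm2 : ¬ S.mem (M'' ⧸ N.map p) := by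
          intro hm2
          exact h1 (S.mem_of_ses (ses_quot h N) hm hm2)
        refine ⟨a, b + 1, by omega, ?_, (bad_succ S b M'').2 ⟨_, hm2, hb'⟩⟩
        exact bad_mono_inj S a _ _ (N.comap i).subtype (Submodule.injective_subtype _) ha
      · refine ⟨a + 1, b, by omega, (bad_succ S a M').2 ⟨_, hm, ha⟩, ?_⟩
        exact bad_mono_inj S b _ _ (N.map p).subtype (Submodule.injective_subtype _) hb'

theorem bad_join (a : ℕ) : ∀ (b : ℕ) {M' M M'' : Type} [AddCommGroup M'] [AddCommGroup M]
    [AddCommGroup M''] [Module T M'] [Module T M] [Module T M''] {i : M' →ₗ[T] M}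
    {p : M →ₗ[T] M''}, SES i p → bad S a M' → bad S b M'' → bad S (a + b) M
  | 0, M', M, M'', _, _, _, _, _, _, i, p, h, ha, _ => bad_mono_inj S a _ _ i h.1 ha
  | b + 1, M', M, M'', _, _, _, _, _, _, i, p, h, ha, hb => by
      obtain ⟨N, h1, h2⟩ := (bad_succ S b M'').1 hb
      have := bad_join a b (ses_comap h N) ha h2
      refine (bad_succ S (a + b) M).2 ⟨N.comap p, ?_, this⟩
      intro hm
      apply h1
      refine S.of_surj ((N.comap p).mapQ N p le_rfl) ?_ hm
      intro y
      obtain ⟨y, rfl⟩ := Submodule.mkQ_surjective _ y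
      obtain ⟨x, rfl⟩ := h.2.1 y
      exact ⟨(N.comap p).mkQ x, rfl⟩

/-- the length function attached to `S` -/
noncomputable def fval (M : Type) [AddCommGroup M] [Module T M] : ℕ∞ :=
  ⨆ n : {n : ℕ // bad S n M}, (n.1 : ℕ∞)

theorem le_fval_iff (n : ℕ) (M : Type) [AddCommGroup M] [Module T M] :
    (n : ℕ∞) ≤ fval S M ↔ bad S n M := by
  constructor
  · intro h
    by_contra hb
    have h1 : fval S M < (n : ℕ∞) := by
      cases n with
      | zero => exact absurd (bad_zero S M) hb
      | succ n =>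
        have : fval S M ≤ (n : ℕ∞) := by
          refine iSup_le ?_
          rintro ⟨m, hm⟩
          have : m ≤ n := by
            by_contra hmn
            exact hb (bad_mono_le S (by omega) M hm)
          exact_mod_cast this
        refine lt_of_le_of_lt this ?_
        exact_mod_cast Nat.lt_succ_self n
    exact absurd h (not_le.2 h1)
  · intro h
    exact le_iSup (fun n : {n : ℕ // bad S n M} => (n.1 : ℕ∞)) ⟨n, h⟩

theorem enat_eq_of_forall {x y : ℕ∞} (h : ∀ n : ℕ, (n : ℕ∞) ≤ x ↔ (n : ℕ∞) ≤ y) : x = y := by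
  apply le_antisymm
  · refine ENat.forall_natCast_le_iff_le.1 ?_
    intro n hn; exact (h n).1 hn
  · refine ENat.forall_natCast_le_iff_le.1 ?_
    intro n hn; exact (h n).2 hn

theorem natCast_le_add_iff (n : ℕ) (x y : ℕ∞) :
    (n : ℕ∞) ≤ x + y ↔ ∃ a b : ℕ, a + b = n ∧ (a : ℕ∞) ≤ x ∧ (b : ℕ∞) ≤ y := by
  constructor
  · intro h
    cases x with
    | top => exact ⟨n, 0, by simp, le_top, by simp⟩
    | coe x =>
      cases y with
      | top => exact ⟨0, n, by simp, by simp, le_top⟩
      | coe y =>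
        have h' : n ≤ x + y := by exact_mod_cast h
        refine ⟨min n x, n - min n x, by omega, ?_, ?_⟩
        · have : min n x ≤ x := by omega
          exact_mod_cast this
        · have : n - min n x ≤ y := by omega
          exact_mod_cast this
  · rintro ⟨a, b, rfl, ha, hb⟩
    push_cast
    exact add_le_add ha hb

theorem fval_add {M' M M'' : Type} [AddCommGroup M'] [AddCommGroup M]
    [AddCommGroup M''] [Module T M'] [Module T M] [Module T M''] {i : M' →ₗ[T] M}
    {p : M →ₗ[T] M''} (h : SES i p) : fval S M = fval S M' + fval S M'' := by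
  apply enat_eq_of_forall
  intro n
  rw [le_fval_iff, natCast_le_add_iff]
  constructor
  · intro hb
    obtain ⟨a, b, hab, ha, hb⟩ := bad_split S n h hb
    exact ⟨a, b, hab, (le_fval_iff S a _).2 ha, (le_fval_iff S b _).2 hb⟩
  · rintro ⟨a, b, rfl, ha, hb⟩
    exact bad_join S a b h ((le_fval_iff S a _).1 ha) ((le_fval_iff S b _).1 hb)

theorem fval_eq_zero_iff (M : Type) [AddCommGroup M] [Module T M] :
    fval S M = 0 ↔ S.mem M := by
  constructor
  · intro h
    by_contra hm
    have : ((1 : ℕ) : ℕ∞) ≤ fval S M := by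
      rw [le_fval_iff, bad_succ]
      refine ⟨⊥, ?_, bad_zero S _⟩
      intro hm'
      exact hm (S.of_surj (Submodule.quotEquivOfEqBot _ rfl).toLinearMap
        (Submodule.quotEquivOfEqBot _ rfl).surjective hm')
    rw [h] at this
    simp at this
  · intro hm
    by_contra h
    have h1 : ((1 : ℕ) : ℕ∞) ≤ fval S M := by
      push_cast
      exact Order.one_le_iff_pos.2 (pos_iff_ne_zero.2 h)
    rw [le_fval_iff, bad_succ] at h1
    obtain ⟨N, h1, _⟩ := h1
    exact h1 (S.of_surj N.mkQ (Submodule.mkQ_surjective N) hm)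

/-- the length function -/
noncomputable def lengthFn : LengthFn T where
  f := fun M _ _ => fval S M
  add := fun i p hi hp hr => fval_add S ⟨hi, hp, hr⟩
  zero := fun M _ _ _ => (fval_eq_zero_iff S M).2 (S.zero M)

end badses

section zorn

variable {T : Type} [Ring T]

/-- inclusion of Serre classes -/
def SerreClass.Le (A B : SerreClass T) : Prop :=
  ∀ (M : Type) [AddCommGroup M] [Module T M], A.mem M → B.mem M

/-- union of a nonempty chain -/
def chainUnion (c : Set (SerreClass T)) (hc : IsChain SerreClass.Le c) (hne : c.Nonempty) :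
    SerreClass T where
  mem := fun M _ _ => ∃ A ∈ c, A.mem M
  of_inj := by
    rintro M N _ _ _ _ g hg ⟨A, hA, h⟩
    exact ⟨A, hA, A.of_inj g hg h⟩
  of_surj := by
    rintro M N _ _ _ _ g hg ⟨A, hA, h⟩
    exact ⟨A, hA, A.of_surj g hg h⟩
  ext := by
    rintro M _ _ N ⟨A, hA, h⟩ ⟨B, hB, h'⟩
    by_cases hAB : A = B
    · subst hAB
      exact ⟨A, hA, A.ext N h h'⟩
    · rcases hc hA hB hAB with h1 | h1
      · exact ⟨B, hB, B.ext N (h1 _ h) h'⟩
      · exact ⟨A, hA, A.ext N h (h1 _ h')⟩
  zero := by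
    intro M _ _ _
    obtain ⟨A, hA⟩ := hne
    exact ⟨A, hA, A.zero M⟩

theorem exists_maximal_serre (S : SerreClass T) (C : Type) [AddCommGroup C] [Module T C]
    (hC : ¬ S.mem C) :
    ∃ S1 : SerreClass T, S.Le S1 ∧ ¬ S1.mem C ∧
      ∀ S2 : SerreClass T, S1.Le S2 → ¬ S2.mem C → S2.Le S1 := by
  obtain ⟨m, hm⟩ := exists_maximal_of_chains_bounded
    (r := fun (A B : {S' : SerreClass T // S.Le S' ∧ ¬ S'.mem C}) => SerreClass.Le A.1 B.1)
    (by
      intro c hc
      by_cases hne : c.Nonempty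
      · have hc' : IsChain SerreClass.Le (Subtype.val '' c) := by
          rintro _ ⟨a, ha, rfl⟩ _ ⟨b, hb, rfl⟩ hab
          exact hc ha hb (fun h => hab (congrArg Subtype.val h))
        refine ⟨⟨chainUnion (Subtype.val '' c) hc' (hne.image _), ?_, ?_⟩, ?_⟩
        · intro M _ _ hM
          obtain ⟨a, ha⟩ := hne
          exact ⟨a.1, ⟨a, ha, rfl⟩, a.2.1 M hM⟩
        · rintro ⟨_, ⟨a, ha, rfl⟩, h⟩
          exact a.2.2 h
        · intro a ha M _ _ hM
          exact ⟨a.1, ⟨a, ha, rfl⟩, hM⟩
      · refine ⟨⟨S, fun M _ _ h => h, hC⟩, ?_⟩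
        intro a ha
        exact absurd ⟨a, ha⟩ hne)
    (by
      intro a b c hab hbc M _ _ hM
      exact hbc M (hab M hM))
  exact ⟨m.1, m.2.1, m.2.2, fun S2 h1 h2 =>
    hm ⟨S2, fun M _ _ hM => h1 M (m.2.1 M hM), h2⟩ h1⟩

/-- modules of finite `fval` -/
noncomputable def finClass (S : SerreClass T) : SerreClass T where
  mem := fun M _ _ => fval S M ≠ ⊤
  of_inj := by
    intro M N _ _ _ _ g hg hN
    have hs : SES g (LinearMap.range g).mkQ :=
      ⟨hg, Submodule.mkQ_surjective _, (Submodule.ker_mkQ _).symm⟩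
    rw [fval_add S hs] at hN
    exact fun h => hN (by rw [h]; exact top_add _)
  of_surj := by
    intro M N _ _ _ _ g hg hM
    have hs : SES (LinearMap.ker g).subtype g :=
      ⟨Submodule.injective_subtype _, hg, Submodule.range_subtype _⟩
    rw [fval_add S hs] at hM
    exact fun h => hM (by rw [h]; exact add_top _)
  ext := by
    intro M _ _ N h1 h2
    have hs : SES N.subtype N.mkQ :=
      ⟨Submodule.injective_subtype _, Submodule.mkQ_surjective _, by
        rw [Submodule.range_subtype, Submodule.ker_mkQ]⟩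
    rw [fval_add S hs]
    exact WithTop.add_ne_top.2 ⟨h1, h2⟩
  zero := by
    intro M _ _ _
    rw [(fval_eq_zero_iff S M).2 (S.zero M)]
    exact ENat.zero_ne_top

end zorn

/-- TARGET -/
theorem exists_lengthFn {T : Type} [Ring T] (S : SerreClass T) (C : Type) [AddCommGroup C]
    [Module T C] [IsNoetherian T C] (hC : ¬ S.mem C) :
    ∃ f : LengthFn T, (∀ (M : Type) [AddCommGroup M] [Module T M], S.mem M → f.f M = 0) ∧
      f.f C ≠ 0 ∧ f.f C ≠ ⊤ ∧ ∃ K : Submodule T C, f.f (C ⧸ K) = 1 := by
  obtain ⟨S1, hS, h1, hmax⟩ := exists_maximal_serre S C hC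
  obtain ⟨K, hK, hKmax⟩ := set_has_maximal_iff_noetherian.2 ‹IsNoetherian T C›
    {K : Submodule T C | ¬ S1.mem (C ⧸ K)} ⟨⊥, by
      intro hm'
      exact h1 (S1.of_surj (Submodule.quotEquivOfEqBot _ rfl).toLinearMap
        (Submodule.quotEquivOfEqBot _ rfl).surjective hm')⟩
  have hK' : ¬ S1.mem (C ⧸ K) := hK
  have hb2 : ¬ bad S1 2 (C ⧸ K) := by
    intro h
    obtain ⟨N, hN, h⟩ := (bad_succ S1 1 _).1 h
    obtain ⟨N', hN', _⟩ := (bad_succ S1 0 _).1 h
    have hc : ¬ S1.mem (C ⧸ N.comap K.mkQ) := by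
      intro hm
      apply hN
      refine S1.of_surj ((N.comap K.mkQ).mapQ N K.mkQ le_rfl) ?_ hm
      intro y
      obtain ⟨y, rfl⟩ := Submodule.mkQ_surjective _ y
      obtain ⟨x, rfl⟩ := Submodule.mkQ_surjective _ y
      exact ⟨(N.comap K.mkQ).mkQ x, rfl⟩
    have hle : K ≤ N.comap K.mkQ := Submodule.le_comap_mkQ K N
    have heq : K = N.comap K.mkQ := by
      by_contra hne
      exact hKmax _ hc (lt_of_le_of_ne hle hne)
    have hbot : N = ⊥ := by
      have := Submodule.map_comap_eq_of_surjective (Submodule.mkQ_surjective K) N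
      rw [← this, ← heq]
      exact Submodule.mkQ_map_self K
    subst hbot
    exact hN' (S1.zero _)
  have hfK : fval S1 (C ⧸ K) = 1 := by
    apply le_antisymm
    · by_contra h
      apply hb2
      rw [← le_fval_iff]
      have h' := not_le.1 h
      have := Order.add_one_le_of_lt h'
      push_cast
      rw [show (2 : ℕ∞) = 1 + 1 by norm_num]
      exact this
    · exact Order.one_le_iff_pos.2 (pos_iff_ne_zero.2
        (fun h => hK' ((fval_eq_zero_iff S1 _).1 h)))
  refine ⟨lengthFn S1, ?_, ?_, ?_, K, hfK⟩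
  · intro M _ _ hM
    exact (fval_eq_zero_iff S1 M).2 (hS M hM)
  · exact fun h => h1 ((fval_eq_zero_iff S1 _).1 h)
  · intro htop
    have h2 : S1.Le (finClass S1) := by
      intro M _ _ hM
      change fval S1 M ≠ ⊤
      rw [(fval_eq_zero_iff S1 M).2 hM]
      exact ENat.zero_ne_top
    have h3 := hmax (finClass S1) h2 (fun h => h htop)
    apply hK'
    apply h3
    change fval S1 (C ⧸ K) ≠ ⊤
    rw [hfK]
    exact ENat.one_ne_top

end GD4
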