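import Pool.Agent.Helper576_GD4.Euler
import Pool.Agent.Helper576_GD4.SerreLen

set_option autoImplicit false

open MulOpposite

namespace GD4

theorem ne_top_of_killed {T : Type} [Ring T] (f : LengthFn T) (A : Ideal T)
    (hA : f.f (T ⧸ A) ≠ ⊤) (V : Type) [AddCommGroup V] [Module T V] [Module.Finite T V]
    (h : ∀ j ∈ A, ∀ v : V, j • v = 0) : f.f V ≠ ⊤ := by
  obtain ⟨n, p, hp⟩ := Module.Finite.exists_fin' T V
  let e : Fin n → (T ⧸ A) →ₗ[T] V := fun i =>
    A.liftQ (p ∘ₗ LinearMap.single T (fun _ : Fin n => T) i) (by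
      intro j hj
      rw [LinearMap.mem_ker]
      have : (LinearMap.single T (fun _ : Fin n => T) i) j =
          j • (LinearMap.single T (fun _ : Fin n => T) i) 1 := by
        rw [← map_smul]; simp
      rw [LinearMap.comp_apply, this, map_smul]
      exact h j hj _)
  let q : (Fin n → (T ⧸ A)) →ₗ[T] V := ∑ i, (e i) ∘ₗ (LinearMap.proj i)
  have hq : Function.Surjective q := by
    intro v
    obtain ⟨x, rfl⟩ := hp v
    refine ⟨fun i => A.mkQ (x i), ?_⟩
    have hx : x = ∑ i, (LinearMap.single T (fun _ : Fin n => T) i) (x i) := by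
      ext k
      simp [Finset.sum_apply, Pi.single_apply]
    conv_rhs => rw [hx, map_sum]
    simp only [q, LinearMap.sum_apply, LinearMap.comp_apply, LinearMap.proj_apply, e]
    rfl
  refine ne_top_of_le_ne_top ?_ (f.le_of_surj q hq)
  rw [f.pi n]
  exact WithTop.mul_ne_top (by exact ENat.natCast_ne_top n) hA

/-- The class of modules in which every element is killed by a two-sided ideal not inside `N`. -/
def serreN {T : Type} [Ring T] [IsNoetherianRing T] (N : Ideal T) (hN : N ≠ ⊤)
    (hprime : ∀ a b : T, a * b ∈ N → a ∈ N ∨ b ∈ N) : SerreClass T where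
  mem M _ _ := ∀ m : M, ∃ A : Ideal T, A.IsTwoSided ∧ ¬ A ≤ N ∧ ∀ a ∈ A, a • m = 0
  of_inj := by
    intro M M' _ _ _ _ g hg hM' m
    obtain ⟨A, hA, hAN, h⟩ := hM' (g m)
    refine ⟨A, hA, hAN, fun a ha => hg ?_⟩
    rw [map_smul, h a ha, map_zero]
  of_surj := by
    intro M M' _ _ _ _ g hg hM m
    obtain ⟨m', rfl⟩ := hg m
    obtain ⟨A, hA, hAN, h⟩ := hM m'
    refine ⟨A, hA, hAN, fun a ha => ?_⟩
    rw [← map_smul, h a ha, map_zero]
  ext := by
    intro M _ _ K hK hQ m
    obtain ⟨A, hA, hAN, h⟩ := hQ (K.mkQ m)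
    have hAm : ∀ a ∈ A, a • m ∈ K := by
      intro a ha
      have := h a ha
      rw [← map_smul, Submodule.mkQ_apply, Submodule.Quotient.mk_eq_zero] at this
      exact this
    -- a common two-sided ideal for finitely many elements of `K`
    have key : ∀ s : Finset K, ∃ B : Ideal T, B.IsTwoSided ∧ ¬ B ≤ N ∧
        ∀ b ∈ B, ∀ x ∈ s, b • x = 0 := by
      intro s
      classical
      induction s using Finset.induction_on with
      | empty =>
        refine ⟨⊤, inferInstance, fun hle => hN (top_le_iff.mp hle), ?_⟩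
        intro b _ x hx
        exact absurd hx (Finset.notMem_empty x)
      | insert y s _ ih =>
        obtain ⟨B, hB, hBN, hBs⟩ := ih
        obtain ⟨B', hB', hBN', hBy⟩ := hK y
        obtain ⟨b, hb, hbN⟩ := SetLike.not_le_iff_exists.mp hBN
        obtain ⟨b', hb', hbN'⟩ := SetLike.not_le_iff_exists.mp hBN'
        refine ⟨B ⊓ B', ⟨fun {a} c ha => ⟨hB.mul_mem_of_left c ha.1, hB'.mul_mem_of_left c ha.2⟩⟩,
          fun hle => ?_, ?_⟩
        · have h1 : b * b' ∈ B ⊓ B' := ⟨hB.mul_mem_of_left b' hb, B'.mul_mem_left b hb'⟩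
          rcases hprime b b' (hle h1) with h2 | h2
          · exact hbN h2
          · exact hbN' h2
        · intro c hc x hx
          rcases Finset.mem_insert.mp hx with rfl | hx
          · exact hBy c hc.2
          · exact hBs c hc.1 x hx
    obtain ⟨s, hs⟩ := (IsNoetherian.noetherian A : A.FG)
    -- the map `A → K`
    have hmemA : ∀ x ∈ s, x ∈ A := by
      intro x hx
      rw [← hs]
      exact Submodule.subset_span hx
    classical
    let F : {x // x ∈ s} → K := fun x => ⟨(x : T) • m, hAm _ (hmemA _ x.2)⟩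
    obtain ⟨B, hB, hBN, hBs⟩ := key (s.attach.image F)
    have hBA : ∀ b ∈ B, ∀ a ∈ A, b • (a • m) = 0 := by
      intro b hb a ha
      have hb' : ∀ b ∈ B, ∀ a ∈ A, b • (a • m) = 0 := by
        intro b hb a ha
        rw [← hs] at ha
        induction ha using Submodule.span_induction generalizing b with
        | mem x hx =>
          have := hBs b hb ⟨x • m, hAm _ (hmemA _ hx)⟩ (by
            rw [Finset.mem_image]
            exact ⟨⟨x, hx⟩, Finset.mem_attach _ _, rfl⟩)
          have h2 := congrArg Subtype.val this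
          simpa using h2
        | zero => simp
        | add x y _ _ hx hy => rw [add_smul, smul_add, hx b hb, hy b hb, add_zero]
        | smul t x _ hx =>
          rw [smul_eq_mul, mul_smul, ← mul_smul b t]
          exact hx (b * t) (hB.mul_mem_of_left t hb)
      exact hb' b hb a ha
    obtain ⟨b, hb, hbN⟩ := SetLike.not_le_iff_exists.mp hBN
    obtain ⟨a, ha, haN⟩ := SetLike.not_le_iff_exists.mp hAN
    refine ⟨{ carrier := {x | ∀ t : T, (x * t) • m = 0}
              add_mem' := ?_
              zero_mem' := ?_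
              smul_mem' := ?_ }, ?_, ?_, ?_⟩
    · intro x y hx hy t
      rw [add_mul, add_smul, hx t, hy t, add_zero]
    · intro t
      rw [zero_mul, zero_smul]
    · intro c x hx t
      rw [smul_eq_mul, mul_assoc, mul_smul, hx t, smul_zero]
    · refine ⟨fun {x} c hx t => ?_⟩
      rw [mul_assoc]
      exact hx (c * t)
    · intro hle
      have h1 : b * a ∈ N := by
        apply hle
        intro t
        rw [mul_assoc, mul_smul]
        exact hBA b hb (a * t) (hA.mul_mem_of_left t ha)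
      rcases hprime b a h1 with h2 | h2
      · exact hbN h2
      · exact haN h2
    · intro x hx
      have := hx 1
      rwa [mul_one] at this
  zero := by
    intro M _ _ _ m
    exact ⟨⊤, inferInstance, fun hle => hN (top_le_iff.mp hle), fun a _ => Subsingleton.elim _ _⟩

theorem quot_not_mem {T : Type} [Ring T] [IsNoetherianRing T] (N : Ideal T) (hN : N ≠ ⊤)
    (hprime : ∀ a b : T, a * b ∈ N → a ∈ N ∨ b ∈ N) : ¬ (serreN N hN hprime).mem (T ⧸ N) := by
  intro h
  obtain ⟨A, -, hAN, h1⟩ := h (N.mkQ 1)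
  apply hAN
  intro a ha
  have h2 := h1 a ha
  rw [← map_smul, Submodule.mkQ_apply, Submodule.Quotient.mk_eq_zero, smul_eq_mul, mul_one] at h2
  exact h2

theorem quot_mem {T : Type} [Ring T] [IsNoetherianRing T] (N : Ideal T) (hN : N ≠ ⊤)
    (hprime : ∀ a b : T, a * b ∈ N → a ∈ N ∨ b ∈ N) (I : Ideal T) [hI : I.IsTwoSided]
    (hIN : ¬ I ≤ N) : (serreN N hN hprime).mem (T ⧸ I) := by
  intro m
  obtain ⟨t, rfl⟩ := I.mkQ_surjective m
  refine ⟨I, hI, hIN, fun a ha => ?_⟩
  rw [← map_smul, Submodule.mkQ_apply, Submodule.Quotient.mk_eq_zero, smul_eq_mul]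
  exact hI.mul_mem_of_left t ha

theorem length_ne_top {T : Type} [Ring T] [IsNoetherianRing T] (g : LengthFn T)
    (N : Ideal T) (hgN : g.f (T ⧸ N) ≠ ⊤)
    (hS : ∀ I : Ideal T, I.IsTwoSided → ¬ I ≤ N → g.f (T ⧸ I) = 0)
    (hmin : ∀ Q : Ideal T, Q.IsTwoSided → Q ≠ ⊤ →
        (∀ a b : T, (∀ s, a * s * b ∈ Q) → a ∈ Q ∨ b ∈ Q) → Q ≤ N → Q = N) :
    g.f T ≠ ⊤ := by
  intro hT
  have hbot : g.f (T ⧸ (⊥ : Ideal T)) = ⊤ := by
    rw [g.congr (Submodule.quotEquivOfEqBot (⊥ : Ideal T) rfl)]; exact hT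
  obtain ⟨I, ⟨hI, hItop⟩, hmax⟩ := WellFounded.has_min (wellFounded_gt (α := Ideal T))
    {I : Ideal T | I.IsTwoSided ∧ g.f (T ⧸ I) = ⊤} ⟨⊥, inferInstance, hbot⟩
  have hmax' : ∀ A : Ideal T, A.IsTwoSided → I < A → g.f (T ⧸ A) ≠ ⊤ := by
    intro A hA hlt htop
    exact hmax A ⟨hA, htop⟩ hlt
  have hIne : I ≠ ⊤ := by
    rintro rfl
    have : Subsingleton (T ⧸ (⊤ : Ideal T)) := Submodule.Quotient.subsingleton_iff.mpr rfl
    rw [g.zero] at hItop
    exact absurd hItop (by simp)
  have hIprime : ∀ a b : T, (∀ s, a * s * b ∈ I) → a ∈ I ∨ b ∈ I := by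
    intro a b hab
    by_contra hcon
    push Not at hcon
    obtain ⟨haI, hbI⟩ := hcon
    let A : Ideal T :=
      { carrier := {x | ∀ s, x * s * b ∈ I}
        add_mem' := by
          intro x y hx hy s
          rw [add_mul, add_mul]
          exact I.add_mem (hx s) (hy s)
        zero_mem' := by
          intro s
          rw [zero_mul, zero_mul]
          exact I.zero_mem
        smul_mem' := by
          intro c x hx s
          rw [smul_eq_mul, mul_assoc, mul_assoc, ← mul_assoc x s b]
          exact I.mul_mem_left c (hx s) }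
    have hA : A.IsTwoSided := ⟨fun {x} c hx s => by
      rw [mul_assoc x c s]
      exact hx (c * s)⟩
    have hIA : I ≤ A := fun x hx s => hI.mul_mem_of_left b (hI.mul_mem_of_left s hx)
    have hAlt : I < A := lt_of_le_of_ne hIA (fun h => haI (by rw [h]; exact hab))
    let B : Ideal T :=
      { carrier := {y | ∀ x ∈ A, x * y ∈ I}
        add_mem' := by
          intro y z hy hz x hx
          rw [mul_add]
          exact I.add_mem (hy x hx) (hz x hx)
        zero_mem' := by
          intro x _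
          rw [mul_zero]
          exact I.zero_mem
        smul_mem' := by
          intro c y hy x hx
          rw [smul_eq_mul, ← mul_assoc]
          exact hy (x * c) (hA.mul_mem_of_left c hx) }
    have hB : B.IsTwoSided := ⟨fun {y} c hy x hx => by
      rw [← mul_assoc]
      exact hI.mul_mem_of_left c (hy x hx)⟩
    have hIB : I ≤ B := fun y hy x _ => I.mul_mem_left x hy
    have hbB : b ∈ B := fun x hx => by
      have := hx 1
      rwa [mul_one] at this
    have hBlt : I < B := lt_of_le_of_ne hIB (fun h => hbI (by rw [h]; exact hbB))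
    have h1 := hmax' A hA hAlt
    have h2 := hmax' B hB hBlt
    have h3 := g.sub_add_quot (Submodule.map I.mkQ B)
    have h4 : g.f ((T ⧸ I) ⧸ (Submodule.map I.mkQ B)) = g.f (T ⧸ B) :=
      g.congr (Submodule.quotientQuotientEquivQuotient I B hIB)
    have h5 : g.f (Submodule.map I.mkQ B) ≠ ⊤ := by
      refine ne_top_of_killed g A h1 _ ?_
      rintro x hx ⟨v, hv⟩
      obtain ⟨y, hy, rfl⟩ := hv
      apply Subtype.ext
      show x • I.mkQ y = 0
      rw [← map_smul, Submodule.mkQ_apply, Submodule.Quotient.mk_eq_zero, smul_eq_mul]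
      exact hy x hx
    rw [h4, hItop] at h3
    exact absurd h3.symm (WithTop.add_ne_top.mpr ⟨h5, h2⟩)
  by_cases hIN : I ≤ N
  · have := hmin I hI hIne hIprime hIN
    rw [this] at hItop
    exact hgN hItop
  · have := hS I hI hIN
    rw [this] at hItop
    exact absurd hItop (by simp)

/-- TARGET -/
theorem exists_length_right {T : Type} [Ring T] [IsLocalRing T] [IsNoetherianRing T]
    [IsNoetherianRing Tᵐᵒᵖ] (n : ℕ)
    (hpd : ∀ (M : Type) [AddCommGroup M] [Module T M] [Module.Finite T M], PdLE T M n)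
    (N : Ideal T) [N.IsTwoSided] (hN : N ≠ ⊤) (hprime : ∀ a b : T, a * b ∈ N → a ∈ N ∨ b ∈ N)
    (hmin : ∀ Q : Ideal T, Q.IsTwoSided → Q ≠ ⊤ →
        (∀ a b : T, (∀ s, a * s * b ∈ Q) → a ∈ Q ∨ b ∈ Q) → Q ≤ N → Q = N) :
    ∃ g : LengthFn T, g.f T = 1 ∧ g.f N = 0 ∧ (∃ c, c ∉ N ∧ ∀ x ∈ N, c * x = 0) := by
  obtain ⟨g, hgS, hg0, hgtop, K, hK⟩ := exists_lengthFn (serreN N hN hprime) (T ⧸ N)
    (quot_not_mem N hN hprime)
  have hT : g.f T ≠ ⊤ := length_ne_top g N hgtop (fun I hI hIN => by
    have := hI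
    exact hgS _ (quot_mem N hN hprime I hIN)) hmin
  obtain ⟨ρ, hρ⟩ := ENat.ne_top_iff_exists.mp hT
  obtain ⟨z, m, hm, hmz⟩ := euler g ρ hρ.symm n ((T ⧸ N) ⧸ K) (hpd _)
  rw [hK] at hm
  have hm1 : m = 1 := by exact_mod_cast hm.symm
  have hρ1 : ρ = 1 := by
    rw [hm1] at hmz
    have h1 : (ρ : ℤ) ∣ 1 := ⟨z, by rw [mul_comm]; exact_mod_cast hmz⟩
    have h2 : ρ ∣ 1 := by exact_mod_cast h1
    exact Nat.dvd_one.mp h2
  have hT1 : g.f T = 1 := by rw [← hρ, hρ1]; rfl
  have hsum := g.sub_add_quot N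
  rw [hT1] at hsum
  have hN0 : g.f N = 0 := by
    have h1 : 1 ≤ g.f (T ⧸ N) := by
      rw [Order.one_le_iff_ne_zero]; exact hg0
    have h3 : g.f N + 1 ≤ 0 + 1 := by
      rw [zero_add]
      calc g.f N + 1 ≤ g.f N + g.f (T ⧸ N) := add_le_add le_rfl h1
        _ = 1 := hsum.symm
    have h4 : g.f N ≤ 0 := (ENat.add_le_add_iff_right (by simp)).mp h3
    exact le_antisymm h4 zero_le
  refine ⟨g, hT1, hN0, ?_⟩
  by_contra hcon
  push Not at hcon
  -- `N` as a right ideal
  let N' : Ideal Tᵐᵒᵖ :=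
    { carrier := {x | unop x ∈ N}
      add_mem' := by
        intro x y hx hy
        exact N.add_mem hx hy
      zero_mem' := N.zero_mem
      smul_mem' := by
        intro c x hx
        show unop (c * x) ∈ N
        rw [unop_mul]
        exact N.mul_mem_right _ hx }
  obtain ⟨k, y, hy⟩ := Submodule.fg_iff_exists_fin_generating_family.mp
    (IsNoetherian.noetherian N' : N'.FG)
  have hyN : ∀ i, unop (y i) ∈ N := by
    intro i
    have : y i ∈ N' := by rw [← hy]; exact Submodule.subset_span ⟨i, rfl⟩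
    exact this
  let φ : T →ₗ[T] (Fin k → N) := LinearMap.pi (fun i => LinearMap.toSpanSingleton T N ⟨unop (y i), hyN i⟩)
  have hker : LinearMap.ker φ ≤ N := by
    intro c hc
    by_contra hcN
    obtain ⟨x, hx, hcx⟩ := hcon c hcN
    apply hcx
    have hc' : ∀ i, c * unop (y i) = 0 := by
      intro i
      have h1 : φ c = 0 := hc
      have h2 := congrFun h1 i
      have h3 := congrArg Subtype.val h2
      simpa [φ] using h3
    let Z : Ideal Tᵐᵒᵖ :=
      { carrier := {x | c * unop x = 0}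
        add_mem' := by
          intro a b ha hb
          show c * unop (a + b) = 0
          rw [unop_add, mul_add]
          have ha' : c * unop a = 0 := ha
          have hb' : c * unop b = 0 := hb
          rw [ha', hb', add_zero]
        zero_mem' := by simp
        smul_mem' := by
          intro t a ha
          show c * unop (t * a) = 0
          have ha' : c * unop a = 0 := ha
          rw [unop_mul, ← mul_assoc, ha', zero_mul] }
    have hZ : N' ≤ Z := by
      rw [← hy, Submodule.span_le]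
      rintro _ ⟨i, rfl⟩
      exact hc' i
    have : op x ∈ Z := hZ (show unop (op x) ∈ N from hx)
    exact this
  have h1 : g.f (T ⧸ N) ≤ g.f (T ⧸ LinearMap.ker φ) := by
    refine g.le_of_surj ((LinearMap.ker φ).liftQ N.mkQ (by rw [Submodule.ker_mkQ]; exact hker)) ?_
    intro q
    obtain ⟨t, rfl⟩ := N.mkQ_surjective q
    exact ⟨(LinearMap.ker φ).mkQ t, by simp⟩
  have h2 : g.f (T ⧸ LinearMap.ker φ) ≤ g.f (Fin k → N) := by
    rw [g.congr φ.quotKerEquivRange]
    exact g.le_top _
  rw [g.pi k, hN0, mul_zero] at h2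
  exact hg0 (le_antisymm (h1.trans h2) zero_le)

end GD4
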