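import Pool.Agent.Helper576_GD4.Loc

set_option autoImplicit false

open MulOpposite

namespace GD4

/-- TARGET -/
theorem lenagan {A B V X : Type} [Ring A] [IsLocalRing A] [Ring B] [AddCommGroup V]
    [AddCommGroup X] [Module A V] [Module B X]
    (V0 V1 : Submodule A V) [IsNoetherian A V1] (h01 : V0 < V1)
    (X0 : Submodule B X) [IsArtinian B (X ⧸ X0)]
    (Θ : AddSubgroup (X × V)) (ha : ∀ x, ∃ y, (x, y) ∈ Θ) (hb : ∀ y ∈ V1, ∃ x, (x, y) ∈ Θ)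
    (hb' : ∀ x y, (x, y) ∈ Θ → y ∈ V1)
    (hc : ∀ x y, (x, y) ∈ Θ → (x ∈ X0 ↔ y ∈ V0))
    (hd : ∀ s : A, ∃ S : X →ₗ[B] X, ∀ x y, (x, y) ∈ Θ → (S x, s • y) ∈ Θ) :
    ∃ y ∈ V1, y ∉ V0 ∧ ∀ j ∈ J A, j • y ∈ V0 := by
  classical
  -- the image of a submodule of `X`
  let τ : Submodule B X → Set V := fun U => {y | ∃ x ∈ U, (x, y) ∈ Θ}
  let Good : Submodule B X → Prop := fun U => X0 ≤ U ∧ ∀ (s : A) (y : V), y ∈ τ U → s • y ∈ τ U
  have hz1 : ∀ x, (x, (0 : V)) ∈ Θ → x ∈ X0 := fun x hx => (hc x 0 hx).2 V0.zero_mem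
  have hz2 : ∀ y, ((0 : X), y) ∈ Θ → y ∈ V0 := fun y hy => (hc 0 y hy).1 X0.zero_mem
  have hsub : ∀ x y x' y', (x, y) ∈ Θ → (x', y') ∈ Θ → (x - x', y - y') ∈ Θ :=
    fun x y x' y' h h' => Θ.sub_mem h h'
  have hadd : ∀ x y x' y', (x, y) ∈ Θ → (x', y') ∈ Θ → (x + x', y + y') ∈ Θ :=
    fun x y x' y' h h' => Θ.add_mem h h'
  have htop : Good ⊤ := by
    refine ⟨le_top, fun s y hy => ?_⟩
    obtain ⟨x, -, hx⟩ := hy
    obtain ⟨S, hS⟩ := hd s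
    exact ⟨S x, Submodule.mem_top, hS x y hx⟩
  have htopne : (⊤ : Submodule B X) ≠ X0 := by
    intro h
    obtain ⟨y, hy1, hy0⟩ := Set.exists_of_ssubset h01
    obtain ⟨x, hx⟩ := hb y hy1
    apply hy0
    exact (hc x y hx).1 (h ▸ Submodule.mem_top)
  obtain ⟨U, ⟨hUg, hUne⟩, hmin⟩ := (InvImage.wf (fun U : Submodule B X => U.map X0.mkQ)
    (wellFounded_lt (α := Submodule B (X ⧸ X0)))).has_min {U | Good U ∧ U ≠ X0} ⟨⊤, htop, htopne⟩
  obtain ⟨hX0U, hUs⟩ := hUg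
  let V' : Submodule A V :=
    { carrier := τ U
      add_mem' := by
        rintro y y' ⟨x, hx, h⟩ ⟨x', hx', h'⟩
        exact ⟨x + x', U.add_mem hx hx', hadd _ _ _ _ h h'⟩
      zero_mem' := ⟨0, U.zero_mem, Θ.zero_mem⟩
      smul_mem' := fun s y hy => hUs s y hy }
  have hV'mem : ∀ y, y ∈ V' ↔ ∃ x ∈ U, (x, y) ∈ Θ := fun y => Iff.rfl
  have hV0V' : V0 ≤ V' := by
    intro y hy
    obtain ⟨x, hx⟩ := hb y (h01.le hy)
    exact ⟨x, hX0U ((hc x y hx).2 hy), hx⟩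
  have hV'V1 : V' ≤ V1 := by
    rintro y ⟨x, -, hx⟩
    exact hb' x y hx
  have hV'ne : ¬ V' ≤ V0 := by
    intro hle
    apply hUne
    refine le_antisymm (fun x hx => ?_) hX0U
    obtain ⟨y, hy⟩ := ha x
    exact (hc x y hy).2 (hle ⟨x, hx, hy⟩)
  have hfg : V'.FG := isNoetherian_submodule.1 inferInstance V' hV'V1
  set V'' : Submodule A V := V0 ⊔ (J A) • V' with hV''
  have hV''V' : V'' ≤ V' := sup_le hV0V' Submodule.smul_le_right
  -- the products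
  have hZ : ∀ z ∈ (J A) • V', ∃ x ∈ U, (x, z) ∈ Θ ∧ ∀ b : B, ∃ z' ∈ (J A) • V', (b • x, z') ∈ Θ := by
    intro z hz
    induction hz using Submodule.smul_induction_on' with
    | smul j hj y hy =>
      obtain ⟨x, hx, hxy⟩ := hy
      obtain ⟨S, hS⟩ := hd j
      have hSU : ∀ x y, x ∈ U → (x, y) ∈ Θ → S x ∈ U := by
        intro x y hx hxy
        obtain ⟨x', hx', hx'y⟩ := hUs j y ⟨x, hx, hxy⟩
        have h1 := hsub _ _ _ _ (hS x y hxy) hx'y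
        rw [sub_self] at h1
        have h2 := U.add_mem (hX0U (hz1 _ h1)) hx'
        rwa [sub_add_cancel] at h2
      refine ⟨S x, hSU x y hx hxy, hS x y hxy, fun b => ?_⟩
      obtain ⟨yb, hyb⟩ := ha (b • x)
      refine ⟨j • yb, Submodule.smul_mem_smul hj ⟨b • x, U.smul_mem b hx, hyb⟩, ?_⟩
      rw [← map_smul]
      exact hS _ _ hyb
    | add z hz z' hz' ih ih' =>
      obtain ⟨x, hx, hxz, hb1⟩ := ih
      obtain ⟨x', hx', hxz', hb1'⟩ := ih'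
      refine ⟨x + x', U.add_mem hx hx', hadd _ _ _ _ hxz hxz', fun b => ?_⟩
      obtain ⟨w, hw, hbw⟩ := hb1 b
      obtain ⟨w', hw', hbw'⟩ := hb1' b
      refine ⟨w + w', Submodule.add_mem _ hw hw', ?_⟩
      rw [smul_add]
      exact hadd _ _ _ _ hbw hbw'
  have hkey : ∀ (x : X) (y : V), y ∈ V'' → (x, y) ∈ Θ → ∀ b : B, ∃ y' ∈ V'', (b • x, y') ∈ Θ := by
    intro x y hy hxy b
    obtain ⟨v0, hv0, z, hz, rfl⟩ := Submodule.mem_sup.1 hy
    obtain ⟨xz, hxz, hxzz, hbz⟩ := hZ z hz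
    obtain ⟨z', hz', hbz'⟩ := hbz b
    have h1 := hsub _ _ _ _ hxy hxzz
    rw [add_sub_cancel_right] at h1
    have h2 : x - xz ∈ X0 := (hc _ _ h1).2 hv0
    have h3 : b • (x - xz) ∈ X0 := X0.smul_mem b h2
    obtain ⟨y0, hy0⟩ := ha (b • (x - xz))
    have h4 : y0 ∈ V0 := (hc _ _ hy0).1 h3
    refine ⟨y0 + z', Submodule.add_mem_sup h4 hz', ?_⟩
    have h5 := hadd _ _ _ _ hy0 hbz'
    rwa [← smul_add, sub_add_cancel] at h5
  let U'' : Submodule B X :=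
    { carrier := {x | x ∈ U ∧ ∃ y ∈ V'', (x, y) ∈ Θ}
      add_mem' := by
        rintro x x' ⟨hx, y, hy, hxy⟩ ⟨hx', y', hy', hxy'⟩
        exact ⟨U.add_mem hx hx', y + y', V''.add_mem hy hy', hadd _ _ _ _ hxy hxy'⟩
      zero_mem' := ⟨U.zero_mem, 0, V''.zero_mem, Θ.zero_mem⟩
      smul_mem' := by
        rintro b x ⟨hx, y, hy, hxy⟩
        exact ⟨U.smul_mem b hx, hkey x y hy hxy b⟩ }
  have hU''mem : ∀ x, x ∈ U'' ↔ (x ∈ U ∧ ∃ y ∈ V'', (x, y) ∈ Θ) := fun x => Iff.rfl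
  have hτ : ∀ x y, x ∈ U'' → (x, y) ∈ Θ → y ∈ V'' := by
    rintro x y ⟨-, y1, hy1, hxy1⟩ hxy
    have h1 := hsub _ _ _ _ hxy hxy1
    rw [sub_self] at h1
    have h2 := V''.add_mem (Submodule.mem_sup_left (hz2 _ h1)) hy1
    rwa [sub_add_cancel] at h2
  have hX0U'' : X0 ≤ U'' := by
    intro x hx
    obtain ⟨y, hy⟩ := ha x
    exact ⟨hX0U hx, y, Submodule.mem_sup_left ((hc x y hy).1 hx), hy⟩
  have hgood : Good U'' := by
    refine ⟨hX0U'', ?_⟩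
    rintro s y ⟨x, hx, hxy⟩
    have h1 : s • y ∈ V'' := V''.smul_mem s (hτ x y hx hxy)
    obtain ⟨x', hx', hxy'⟩ := hV''V' h1
    exact ⟨x', ⟨hx', s • y, h1, hxy'⟩, hxy'⟩
  have hU''U : U'' ≤ U := fun x hx => hx.1
  by_cases hcase : U'' = X0
  · -- the socle
    have hle : (J A) • V' ≤ V0 := by
      intro z hz
      have h1 : z ∈ V'' := Submodule.mem_sup_right hz
      obtain ⟨x, hx, hxz⟩ := hV''V' h1
      have h2 : x ∈ U'' := ⟨hx, z, h1, hxz⟩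
      rw [hcase] at h2
      exact (hc x z hxz).1 h2
    obtain ⟨y, hy, hy0⟩ := Set.not_subset.1 hV'ne
    exact ⟨y, hV'V1 hy, hy0, fun j hj => hle (Submodule.smul_mem_smul hj hy)⟩
  · exfalso
    have h1 := hmin U'' ⟨hgood, hcase⟩
    have h2 : U''.map X0.mkQ ≤ U.map X0.mkQ := Submodule.map_mono hU''U
    have h3 : U''.map X0.mkQ = U.map X0.mkQ := by
      by_contra hne
      exact h1 (lt_of_le_of_ne h2 hne)
    have h4 : U'' = U := by
      have h5 := congrArg (Submodule.comap X0.mkQ) h3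
      rw [Submodule.comap_map_mkQ, Submodule.comap_map_mkQ, sup_eq_right.2 hX0U'',
        sup_eq_right.2 hX0U] at h5
      exact h5
    have h6 : V' ≤ V0 ⊔ (J A) • V' := by
      rintro y ⟨x, hx, hxy⟩
      rw [← h4] at hx
      exact hτ x y hx hxy
    exact hV'ne (nakayama V0 V' hfg h6)

end GD4
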