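import Pool.Agent.Helper576_GD4.Defs

set_option autoImplicit false

open MulOpposite

namespace GD4

theorem nakayama {T : Type} [Ring T] [IsLocalRing T] {V : Type} [AddCommGroup V] [Module T V]
    (K U : Submodule T V) (hU : U.FG) (h : U ≤ K ⊔ (J T) • U) : U ≤ K := by
  have h1 : (U.map K.mkQ) ≤ Ring.jacobson T • (U.map K.mkQ) := by
    rw [jacobson_eq_J]
    calc U.map K.mkQ ≤ (K ⊔ (J T) • U).map K.mkQ := Submodule.map_mono h
      _ = K.map K.mkQ ⊔ ((J T) • U).map K.mkQ := Submodule.map_sup _ _ _
      _ ≤ (J T) • (U.map K.mkQ) := by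
          rw [Submodule.map_smul'']
          apply sup_le _ le_rfl
          rw [Submodule.mkQ_map_self]
          exact bot_le
  have h2 : U.map K.mkQ = ⊥ := (hU.map _).eq_bot_of_le_jacobson_smul h1
  rw [← le_bot_iff, Submodule.map_le_iff_le_comap] at h2
  intro u hu
  have := h2 hu
  simpa using this

theorem isSimple_quot_J (T : Type) [Ring T] [IsLocalRing T] : IsSimpleModule T (T ⧸ J T) := by
  rw [isSimpleModule_iff_isCoatom]
  exact J_isCoatom T

theorem artinian_of_killed {T : Type} [Ring T] [IsLocalRing T] {V : Type} [AddCommGroup V]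
    [Module T V] [Module.Finite T V] (h : ∀ j ∈ J T, ∀ v : V, j • v = 0) : IsArtinian T V := by
  have := isSimple_quot_J T
  obtain ⟨n, p, hp⟩ := Module.Finite.exists_fin' T V
  -- the map factors through (T ⧸ J)^n
  let e : Fin n → (T ⧸ J T) →ₗ[T] V := fun i =>
    (J T).liftQ (p ∘ₗ LinearMap.single T (fun _ : Fin n => T) i) (by
      intro j hj
      rw [LinearMap.mem_ker]
      have : (LinearMap.single T (fun _ : Fin n => T) i) j =
          j • (LinearMap.single T (fun _ : Fin n => T) i) 1 := by
        rw [← map_smul]; simp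
      rw [LinearMap.comp_apply, this, map_smul]
      exact h j hj _)
  let q : (Fin n → (T ⧸ J T)) →ₗ[T] V := ∑ i, (e i) ∘ₗ (LinearMap.proj i)
  have hq : Function.Surjective q := by
    intro v
    obtain ⟨x, rfl⟩ := hp v
    refine ⟨fun i => (J T).mkQ (x i), ?_⟩
    have hx : x = ∑ i, (LinearMap.single T (fun _ : Fin n => T) i) (x i) := by
      ext k
      simp [Finset.sum_apply, Pi.single_apply]
    conv_rhs => rw [hx, map_sum]
    simp only [q, LinearMap.sum_apply, LinearMap.comp_apply, LinearMap.proj_apply, e]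
    rfl
  have : IsArtinian T (T ⧸ J T) := inferInstance
  have : IsArtinian T (Fin n → (T ⧸ J T)) := inferInstance
  exact isArtinian_of_surjective _ q hq

/-- a nonzero artinian module over a local ring has nonzero socle -/
theorem exists_socle {T : Type} [Ring T] [IsLocalRing T] {V : Type} [AddCommGroup V]
    [Module T V] [IsArtinian T V] [Nontrivial V] : ∃ y : V, y ≠ 0 ∧ ∀ j ∈ J T, j • y = 0 := by
  obtain ⟨S, hS, -⟩ := (eq_bot_or_exists_atom_le (⊤ : Submodule T V)).resolve_left (top_ne_bot)
  have hSb : S ≠ ⊥ := hS.1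
  obtain ⟨y, hyS, hy0⟩ := Submodule.exists_mem_ne_zero_of_ne_bot hSb
  refine ⟨y, hy0, fun j hj => ?_⟩
  have hspan : Submodule.span T {y} = S := by
    rcases (hS.le_iff.1 (show Submodule.span T {y} ≤ S by simpa using hyS)) with h | h
    · exact absurd (by simpa using h) hy0
    · exact h
  have hfg : S.FG := by rw [← hspan]; exact Submodule.fg_span_singleton y
  have hJS : (J T) • S = ⊥ := by
    rcases hS.le_iff.1 (Submodule.smul_le_right : (J T) • S ≤ S) with h | h
    · exact h
    · exfalso
      apply hSb
      rw [← le_bot_iff]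
      refine nakayama ⊥ S hfg ?_
      rw [h]; simp
  have : j • y ∈ (J T) • S := Submodule.smul_mem_smul hj hyS
  rw [hJS] at this
  simpa using this

/-- if `V` is noetherian and for every proper submodule `A` there is `m ∉ A` with `J m ⊂ A`, then
`V` is artinian -/
theorem artinian_of_socles {T : Type} [Ring T] [IsLocalRing T] {V : Type} [AddCommGroup V]
    [Module T V] [IsNoetherian T V]
    (h : ∀ A : Submodule T V, A ≠ ⊤ → ∃ m : V, m ∉ A ∧ ∀ j ∈ J T, j • m ∈ A) :
    IsArtinian T V := by
  -- maximal artinian submodule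
  obtain ⟨A, hA, hmax⟩ := WellFounded.has_min (wellFounded_gt (α := Submodule T V))
    {A | IsArtinian T A} ⟨⊥, by show IsArtinian T (⊥ : Submodule T V); infer_instance⟩
  by_cases htop : A = ⊤
  · subst htop
    have : IsArtinian T (⊤ : Submodule T V) := hA
    exact isArtinian_of_linearEquiv (Submodule.topEquiv (R := T) (M := V))
  · exfalso
    obtain ⟨m, hm, hJm⟩ := h A htop
    have : IsArtinian T A := hA
    set B : Submodule T V := A ⊔ Submodule.span T {m} with hB
    have hAB : A < B := lt_of_le_of_ne le_sup_left (fun h' => hm (by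
      rw [h']; exact Submodule.mem_sup_right (Submodule.mem_span_singleton_self m)))
    refine hmax B ?_ hAB
    show IsArtinian T B
    -- B / A is killed by J and cyclic
    have : IsArtinian T (B ⧸ (A.submoduleOf B)) := by
      have : Module.Finite T (B ⧸ (A.submoduleOf B)) := inferInstance
      refine artinian_of_killed ?_
      intro j hj v
      obtain ⟨⟨b, hb⟩, rfl⟩ := (A.submoduleOf B).mkQ_surjective v
      rw [← map_smul]
      rw [Submodule.mkQ_apply, Submodule.Quotient.mk_eq_zero]
      show j • b ∈ A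
      rw [hB, Submodule.mem_sup] at hb
      obtain ⟨a, ha, c, hc, rfl⟩ := hb
      obtain ⟨r, rfl⟩ := Submodule.mem_span_singleton.1 hc
      show j • (a + r • m) ∈ A
      rw [smul_add, ← mul_smul]
      exact A.add_mem (A.smul_mem _ ha) (hJm _ (Ideal.IsTwoSided.mul_mem_of_left r hj))
    have : IsArtinian T (A.submoduleOf B) :=
      isArtinian_of_linearEquiv (Submodule.submoduleOfEquivOfLe hAB.le).symm
    exact isArtinian_of_range_eq_ker (A.submoduleOf B).subtype (A.submoduleOf B).mkQ (by simp)

end GD4
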