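import Pool.Agent.Helper576_GD4.Euler
import Pool.Agent.Helper576_GD4.SerreLen

set_option autoImplicit false

open MulOpposite

namespace GD4

/-- the Serre class of zero modules -/
def zeroClass (T : Type) [Ring T] : SerreClass T where
  mem := fun M _ _ => Subsingleton M
  of_inj := fun g hg h => by
    have := h
    exact hg.subsingleton
  of_surj := fun g hg h => by
    have := h
    exact hg.subsingleton
  ext := by
    intro M _ _ N h1 h2
    have := h1
    have := h2
    refine subsingleton_of_forall_eq 0 fun x => ?_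
    have hx : x ∈ N := by
      rw [← Submodule.Quotient.mk_eq_zero]
      exact Subsingleton.elim _ _
    have : (⟨x, hx⟩ : N) = 0 := Subsingleton.elim _ _
    simpa using congrArg Subtype.val this
  zero := fun M _ _ h => h

namespace LengthFn

variable {T : Type} [Ring T] (f : LengthFn T)
variable {M N : Type} [AddCommGroup M] [Module T M] [AddCommGroup N] [Module T N]

theorem map_inj (g : M →ₗ[T] N) (hg : Function.Injective g) (L : Submodule T M) :
    f.f (L.map g) = f.f L :=
  (f.congr (Submodule.equivMapOfInjective g hg L)).symm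

theorem map_le (g : M →ₗ[T] N) (L : Submodule T M) : f.f (L.map g) ≤ f.f L :=
  f.le_of_surj (g.submoduleMap L) (g.submoduleMap_surjective L)

theorem ker_eq_of_zero (φ : M →ₗ[T] N) (h : f.f N = 0) : f.f (LinearMap.ker φ) = f.f M := by
  have h1 := f.ker_add_range φ
  have h2 : f.f (LinearMap.range φ) = 0 := by
    have := f.le_top (LinearMap.range φ)
    rw [h] at this
    exact le_antisymm this zero_le
  rw [h2, add_zero] at h1
  exact h1.symm

end LengthFn

/-- right ideals (as sets closed under right multiplication) of a right noetherian ring are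
finitely generated -/
theorem exists_right_gens {T : Type} [Ring T] [IsNoetherianRing Tᵐᵒᵖ] (N : Ideal T)
    [hN : N.IsTwoSided] : ∃ (m : ℕ) (y : Fin m → T), (∀ i, y i ∈ N) ∧
      ∀ x ∈ N, ∃ c : Fin m → T, x = ∑ i, y i * c i := by
  let N' : Ideal Tᵐᵒᵖ :=
    { carrier := {x | unop x ∈ N}
      add_mem' := fun ha hb => by
        simp only [Set.mem_ofPred_eq, unop_add] at *
        exact N.add_mem ha hb
      zero_mem' := by simp
      smul_mem' := fun c x hx => by
        simp only [Set.mem_ofPred_eq, smul_eq_mul, unop_mul] at *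
        exact hN.mul_mem_of_left _ hx }
  have hfg : N'.FG := IsNoetherian.noetherian N'
  obtain ⟨m, y, hy⟩ := Submodule.fg_iff_exists_fin_generating_family.1 hfg
  refine ⟨m, fun i => unop (y i), fun i => ?_, fun x hx => ?_⟩
  · have : y i ∈ N' := by
      rw [← hy]; exact Submodule.subset_span (Set.mem_range_self i)
    exact this
  · have hx' : op x ∈ N' := hx
    rw [← hy, Submodule.mem_span_range_iff_exists_fun] at hx'
    obtain ⟨c, hc⟩ := hx'
    refine ⟨fun i => unop (c i), ?_⟩
    have := congrArg unop hc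
    simp only [unop_op, Finset.unop_sum, smul_eq_mul, unop_mul] at this
    exact this.symm

/-- TARGET -/
theorem exists_N_left {T : Type} [Ring T] [IsLocalRing T] [IsNoetherianRing T]
    [IsNoetherianRing Tᵐᵒᵖ] (n : ℕ)
    (hpd : ∀ (M : Type) [AddCommGroup M] [Module T M] [Module.Finite T M], PdLE T M n) :
    ∃ (f : LengthFn T) (N : Ideal T), f.f T = 1 ∧ f.f N = 0 ∧ N.IsTwoSided ∧ N ≠ ⊤ ∧
      (∀ a b : T, a * b ∈ N → a ∈ N ∨ b ∈ N) ∧
      (∀ Q : Ideal T, Q.IsTwoSided → Q ≠ ⊤ →
        (∀ a b : T, (∀ s, a * s * b ∈ Q) → a ∈ Q ∨ b ∈ Q) → Q ≤ N → Q = N) ∧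
      (∃ c, c ∉ N ∧ ∀ x ∈ N, c * x = 0) := by
  -- the length function
  have hT0 : ¬ (zeroClass T).mem T := by
    intro h
    have h' : Subsingleton T := h
    exact absurd (Subsingleton.elim (1 : T) 0) one_ne_zero
  obtain ⟨f, -, hf0, hftop, K, hK⟩ := exists_lengthFn (zeroClass T) T hT0
  obtain ⟨ρ, hρ⟩ := ENat.ne_top_iff_exists.1 hftop
  have hf1 : f.f T = 1 := by
    obtain ⟨z, m, hm, hz⟩ := euler f ρ hρ.symm n (T ⧸ K) (hpd _)
    have hm1 : m = 1 := by
      rw [hK] at hm
      exact_mod_cast hm.symm
    subst hm1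
    have hd : (ρ : ℤ) ∣ 1 := ⟨z, by rw [mul_comm]; exact_mod_cast hz⟩
    have hρ1 : ρ = 1 := by
      have h2 : ρ ∣ 1 := by exact_mod_cast hd
      exact Nat.dvd_one.1 h2
    rw [← hρ, hρ1]; rfl
  -- the ideal N
  let N : Ideal T :=
    { carrier := {x | f.f (Submodule.span T {x}) = 0}
      add_mem' := by
        intro a b ha hb
        simp only [Set.mem_ofPred_eq] at *
        refine le_antisymm ?_ zero_le
        have h1 : Submodule.span T {a + b} ≤ Submodule.span T {a} ⊔ Submodule.span T {b} := by
          rw [Submodule.span_singleton_le_iff_mem]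
          exact Submodule.add_mem_sup (Submodule.mem_span_singleton_self a)
            (Submodule.mem_span_singleton_self b)
        calc f.f (Submodule.span T {a + b}) ≤ _ := f.le_of_le h1
          _ ≤ _ := f.sup_le _ _
          _ = 0 := by rw [ha, hb, add_zero]
      zero_mem' := by
        simp only [Set.mem_ofPred_eq]
        have : Subsingleton (Submodule.span T ({0} : Set T)) := by
          rw [Submodule.span_zero_singleton]; infer_instance
        exact f.zero _
      smul_mem' := by
        intro c x hx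
        simp only [Set.mem_ofPred_eq] at *
        refine le_antisymm ?_ zero_le
        rw [← hx]
        refine f.le_of_le ?_
        rw [Submodule.span_singleton_le_iff_mem]
        exact Submodule.smul_mem _ _ (Submodule.mem_span_singleton_self x) }
  have memN : ∀ x, x ∈ N ↔ f.f (Submodule.span T {x}) = 0 := fun x => Iff.rfl
  have mapspan : ∀ x r : T, (Submodule.span T {x}).map (LinearMap.toSpanSingleton T T r) =
      Submodule.span T {x * r} := by
    intro x r
    rw [Submodule.map_span, Set.image_singleton, LinearMap.toSpanSingleton_apply, smul_eq_mul]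
  have hN2 : N.IsTwoSided := by
    refine ⟨fun {a} b ha => ?_⟩
    rw [memN] at *
    refine le_antisymm ?_ zero_le
    rw [← ha, ← mapspan]
    exact f.map_le _ _
  have hfN : f.f N = 0 := by
    obtain ⟨k, y, hy⟩ := Module.Finite.exists_fin (R := T) (M := N)
    refine f.eq_zero_of_span y hy fun i => ?_
    have h1 := f.map_inj N.subtype N.subtype_injective (Submodule.span T {y i})
    rw [Submodule.map_span, Set.image_singleton] at h1
    rw [← h1]
    exact (y i).2
  have h1N : (1 : T) ∉ N := by
    rw [memN]
    have : Submodule.span T ({1} : Set T) = ⊤ := by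
      rw [Submodule.eq_top_iff']
      intro x
      rw [Submodule.mem_span_singleton]
      exact ⟨x, by simp⟩
    rw [this, f.congr (Submodule.topEquiv (R := T) (M := T)), hf1]
    exact one_ne_zero
  have hNtop : N ≠ ⊤ := fun h => h1N (h ▸ Submodule.mem_top)
  have hnot : ∀ b, b ∉ N → f.f (Submodule.span T {b}) = 1 := by
    intro b hb
    refine le_antisymm ?_ ?_
    · rw [← hf1]; exact f.le_top _
    · rw [memN] at hb
      exact Order.one_le_iff_pos.2 (pos_iff_ne_zero.2 hb)
  have hker : ∀ b, b ∉ N → f.f (LinearMap.ker (LinearMap.toSpanSingleton T T b)) = 0 := by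
    intro b hb
    have h1 := f.ker_add_range (LinearMap.toSpanSingleton T T b)
    have h2 : LinearMap.range (LinearMap.toSpanSingleton T T b) = Submodule.span T {b} :=
      LinearMap.range_toSpanSingleton b
    rw [h2, hnot b hb, hf1] at h1
    have h3 : (0 : ℕ∞) + 1 = f.f (LinearMap.ker (LinearMap.toSpanSingleton T T b)) + 1 := by
      rw [zero_add]; exact h1
    exact ((ENat.add_left_injective_of_ne_top ENat.one_ne_top) h3).symm
  have hcp : ∀ a b : T, a * b ∈ N → a ∈ N ∨ b ∈ N := by
    intro a b hab
    by_contra hcon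
    rw [not_or] at hcon
    obtain ⟨ha, hb⟩ := hcon
    let h : (Submodule.span T {a}) →ₗ[T] T :=
      (LinearMap.toSpanSingleton T T b) ∘ₗ (Submodule.span T {a}).subtype
    have h1 := f.ker_add_range h
    have h2 : f.f (LinearMap.ker h) = 0 := by
      refine le_antisymm ?_ zero_le
      rw [← hker b hb]
      rw [← f.map_inj (Submodule.span T {a}).subtype (Submodule.subtype_injective _)
        (LinearMap.ker h)]
      refine f.le_of_le ?_
      rintro x ⟨y, hy, rfl⟩
      exact hy
    have h3 : LinearMap.range h = Submodule.span T {a * b} := by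
      rw [← mapspan, LinearMap.range_comp, Submodule.range_subtype]
    rw [h2, h3, zero_add, hnot a ha, (memN _).1 hab] at h1
    exact one_ne_zero h1
  obtain ⟨m, y, hyN, hygen⟩ := exists_right_gens N
  refine ⟨f, N, hf1, hfN, hN2, hNtop, hcp, ?_, ?_⟩
  · intro Q hQ2 _ hQp hQN
    refine le_antisymm hQN ?_
    intro x0 hx0
    by_contra hx0Q
    let φ : T →ₗ[T] (Fin m → (N ⧸ (Submodule.submoduleOf Q N))) :=
      LinearMap.pi fun i => (Submodule.submoduleOf Q N).mkQ ∘ₗ
        LinearMap.toSpanSingleton T N ⟨y i, hyN i⟩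
    have h0 : f.f (Fin m → (N ⧸ (Submodule.submoduleOf Q N))) = 0 := by
      rw [f.pi]
      have : f.f (N ⧸ (Submodule.submoduleOf Q N)) = 0 := by
        refine le_antisymm ?_ zero_le
        rw [← hfN]
        exact f.le_of_surj (Submodule.submoduleOf Q N).mkQ (Submodule.mkQ_surjective _)
      rw [this, mul_zero]
    have h1 := f.ker_eq_of_zero φ h0
    have h2 : LinearMap.ker φ ≤ Q := by
      intro r hr
      have hr' : ∀ i, r * y i ∈ Q := by
        intro i
        have := congrFun (LinearMap.mem_ker.1 hr) i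
        have h3 : (Submodule.submoduleOf Q N).mkQ (r • (⟨y i, hyN i⟩ : N)) = 0 := this
        rw [Submodule.mkQ_apply, Submodule.Quotient.mk_eq_zero] at h3
        exact h3
      refine (hQp r x0 ?_).resolve_right hx0Q
      intro s
      obtain ⟨c, hc⟩ := hygen (s * x0) (N.mul_mem_left s hx0)
      rw [mul_assoc, hc, Finset.mul_sum]
      refine Q.sum_mem fun i _ => ?_
      rw [← mul_assoc]
      exact hQ2.mul_mem_of_left _ (hr' i)
    have h3 : f.f T ≤ f.f N := by
      rw [← h1]; exact f.le_of_le (h2.trans hQN)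
    rw [hf1, hfN] at h3
    exact absurd h3 (by simp)
  · let ψ : T →ₗ[T] (Fin m → N) :=
      LinearMap.pi fun i => LinearMap.toSpanSingleton T N ⟨y i, hyN i⟩
    have h0 : f.f (Fin m → N) = 0 := by rw [f.pi, hfN, mul_zero]
    have h1 := f.ker_eq_of_zero ψ h0
    have h2 : ¬ LinearMap.ker ψ ≤ N := by
      intro h
      have h3 : f.f T ≤ f.f N := by
        rw [← h1]; exact f.le_of_le h
      rw [hf1, hfN] at h3
      exact absurd h3 (by simp)
    obtain ⟨c, hc, hcN⟩ := SetLike.not_le_iff_exists.1 h2
    refine ⟨c, hcN, fun x hx => ?_⟩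
    obtain ⟨d, hd⟩ := hygen x hx
    rw [hd, Finset.mul_sum]
    refine Finset.sum_eq_zero fun i _ => ?_
    have h4 : c • (⟨y i, hyN i⟩ : N) = 0 := congrFun (LinearMap.mem_ker.1 hc) i
    have h5 : c * y i = 0 := by simpa using congrArg Subtype.val h4
    rw [← mul_assoc, h5, zero_mul]

end GD4
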