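import Pool.Agent.Helper576_GD4.Pd

set_option autoImplicit false

open MulOpposite CategoryTheory

namespace GD4

/-- TARGET -/
theorem pd_of_resolution {T : Type} [Ring T] (n : ℕ) (M : ModuleCat.{0} T)
    (h : ∃ (P : ℕ → ModuleCat.{0} T) (d : ∀ i : ℕ, P (i + 1) ⟶ P i) (ε : P 0 ⟶ M),
          (∀ i, Module.Projective T (P i)) ∧ Function.Surjective ε.hom ∧
          LinearMap.range (d 0).hom = LinearMap.ker ε.hom ∧
          (∀ i, LinearMap.range (d (i + 1)).hom = LinearMap.ker (d i).hom) ∧
          (∀ i, n < i → Subsingleton (P i))) : PdLE T M n := by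
  induction n generalizing M with
  | zero =>
    obtain ⟨P, d, ε, hP, hε, h0, hs, hz⟩ := h
    rw [pd_zero]
    have hsub : Subsingleton (P 1) := hz 1 (by norm_num)
    have hker : LinearMap.ker ε.hom = ⊥ := by
      rw [← h0, LinearMap.range_eq_bot]
      ext x
      rw [Subsingleton.elim x 0]
      simp
    have hinj : Function.Injective ε.hom := LinearMap.ker_eq_bot.1 hker
    have := hP 0
    exact Module.Projective.of_equiv (LinearEquiv.ofBijective ε.hom ⟨hinj, hε⟩)
  | succ n ih =>
    obtain ⟨P, d, ε, hP, hε, h0, hs, hz⟩ := h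
    rw [pd_ker ε.hom hε (hP 0) n]
    refine ih (ModuleCat.of T (LinearMap.ker ε.hom)) ?_
    have hmem : ∀ x, (d 0).hom x ∈ LinearMap.ker ε.hom := by
      intro x
      rw [← h0]
      exact LinearMap.mem_range_self _ x
    refine ⟨fun i => P (i + 1), fun i => d (i + 1),
      ModuleCat.ofHom (LinearMap.codRestrict (LinearMap.ker ε.hom) (d 0).hom hmem),
      fun i => hP (i + 1), ?_, ?_, fun i => hs (i + 1), fun i hi => hz (i + 1) (by omega)⟩
    · rintro ⟨y, hy⟩
      rw [← h0] at hy
      obtain ⟨x, hx⟩ := hy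
      exact ⟨x, Subtype.ext hx⟩
    · rw [hs 0]
      simp only [ModuleCat.hom_ofHom, LinearMap.ker_codRestrict]

end GD4
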