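import Pool.Agent.Helper576_GD4.Res1

set_option autoImplicit false

open MulOpposite

namespace GD4

theorem lin_sum {T : Type} [Ring T] {N : Type} [AddCommGroup N] [Module T N] {m : ℕ}
    (f : (Fin m → T) →ₗ[T] N) (y : Fin m → T) :
    f y = ∑ i, y i • f (Pi.single i 1) := by
  conv_lhs => rw [← Finset.univ_sum_single y, map_sum]
  apply Finset.sum_congr rfl
  intro i _
  rw [← map_smul]
  congr 1
  ext k
  by_cases hk : k = i
  · subst hk; simp
  · simp [Pi.single_eq_of_ne hk]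

/-- TARGET -/
theorem rightRes1 {R : Type} [Ring R] [IsLocalRing R] [IsNoetherianRing Rᵐᵒᵖ] {M : Type}
    [AddCommGroup M] [Module Rᵐᵒᵖ M] [Module.Finite Rᵐᵒᵖ M] (h : PdLE Rᵐᵒᵖ M 1) :
    ∃ (g0 g1 : ℕ) (e : Fin g0 → M) (A1 : Matrix (Fin g0) (Fin g1) R),
      (∀ y : M, ∃ x : Fin g0 → R, y = ∑ i, op (x i) • e i) ∧
      (∀ x : Fin g0 → R, ∑ i, op (x i) • e i = 0 ↔ ∃ y, x = Matrix.mulVec A1 y) ∧
      (∀ z : Fin g1 → R, Matrix.mulVec A1 z = 0 → z = 0) ∧
      (∀ i j, A1 i j ∈ J R) ∧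
      (∀ g : LengthFn Rᵐᵒᵖ, g.f R = 1 → g.f M + (g1 : ℕ∞) = (g0 : ℕ∞)) := by
  obtain ⟨c, b, t, d1, ht, hrange, hinj, hJ, hlen⟩ := res1 (T := Rᵐᵒᵖ) h
  have ht' : ∀ x : Fin c → R, t (fun i => op (x i)) = ∑ i, op (x i) • t (Pi.single i 1) :=
    fun x => lin_sum t _
  have hd' : ∀ z : Fin b → R, d1 (fun j => op (z j)) =
      fun k => op (Matrix.mulVec (fun i j => unop (d1 (Pi.single j 1) i)) z k) := by
    intro z
    rw [lin_sum d1]
    ext k
    rw [Finset.sum_apply]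
    simp only [Matrix.mulVec, dotProduct]
    rw [Finset.op_sum]
    apply Finset.sum_congr rfl
    intro j _
    rw [Pi.smul_apply, smul_eq_mul, MulOpposite.op_mul, MulOpposite.op_unop]
  refine ⟨c, b, fun i => t (Pi.single i 1), fun i j => unop (d1 (Pi.single j 1) i),
    ?_, ?_, ?_, ?_, ?_⟩
  · intro y
    obtain ⟨x, hx⟩ := ht y
    refine ⟨fun i => unop (x i), ?_⟩
    rw [← ht' (fun i => unop (x i)), ← hx]
    rfl
  · intro x
    rw [← ht' x, ← LinearMap.mem_ker, ← hrange, LinearMap.mem_range]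
    constructor
    · rintro ⟨y, hy⟩
      refine ⟨fun j => unop (y j), ?_⟩
      have h1 := hd' (fun j => unop (y j))
      have h2 : (fun j => op (unop (y j))) = y := by ext j; simp
      rw [h2, hy] at h1
      ext k
      exact op_injective (congrFun h1 k)
    · rintro ⟨y, hy⟩
      refine ⟨fun j => op (y j), ?_⟩
      rw [hd' y, hy]
  · intro z hz
    have h1 := hd' z
    rw [hz] at h1
    have h2 : d1 (fun j => op (z j)) = 0 := by
      rw [h1]; ext k; simp
    have h3 : (fun j => op (z j)) = (0 : Fin b → Rᵐᵒᵖ) := hinj (by rw [h2, map_zero])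
    ext j
    exact op_injective (congrFun h3 j)
  · intro i j
    exact mem_J_op.1 (hJ _ _)
  · intro g hg
    let φ : R ≃ₗ[Rᵐᵒᵖ] Rᵐᵒᵖ :=
      { toFun := op
        invFun := unop
        map_add' := fun _ _ => rfl
        map_smul' := fun _ _ => rfl
        left_inv := fun _ => rfl
        right_inv := fun _ => rfl }
    have h1 : g.f Rᵐᵒᵖ = 1 := by rw [← g.congr φ, hg]
    exact hlen g h1

end GD4
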