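import Pool.Agent.Helper576_GD4.Res2

set_option autoImplicit false

open MulOpposite

namespace GD4

/-- the matrix of a linear map over the opposite ring -/
def opMat {R : Type} [Ring R] {m n : ℕ} (d : (Fin m → Rᵐᵒᵖ) →ₗ[Rᵐᵒᵖ] (Fin n → Rᵐᵒᵖ)) :
    Matrix (Fin n) (Fin m) R := fun i j => unop (d (Pi.single j 1) i)

theorem sum_single_op {R : Type} [Ring R] {m : ℕ} (x : Fin m → R) :
    (fun j => op (x j)) = ∑ j, op (x j) • (Pi.single j (1 : Rᵐᵒᵖ) : Fin m → Rᵐᵒᵖ) := by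
  funext k
  rw [Finset.sum_apply]
  simp [Pi.single_apply]

theorem opMat_apply {R : Type} [Ring R] {m n : ℕ}
    (d : (Fin m → Rᵐᵒᵖ) →ₗ[Rᵐᵒᵖ] (Fin n → Rᵐᵒᵖ)) (x : Fin m → R) :
    d (fun j => op (x j)) = fun i => op ((opMat d).mulVec x i) := by
  funext i
  rw [sum_single_op, map_sum, Finset.sum_apply, Matrix.mulVec, dotProduct, Finset.op_sum]
  refine Finset.sum_congr rfl fun j _ => ?_
  rw [map_smul, Pi.smul_apply, smul_eq_mul, opMat, op_mul, op_unop]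

theorem opRow_apply {R : Type} [Ring R] {m : ℕ} {M : Type} [AddCommGroup M] [Module Rᵐᵒᵖ M]
    (t : (Fin m → Rᵐᵒᵖ) →ₗ[Rᵐᵒᵖ] M) (x : Fin m → R) :
    t (fun j => op (x j)) = ∑ j, op (x j) • t (Pi.single j 1) := by
  rw [sum_single_op, map_sum]
  refine Finset.sum_congr rfl fun j _ => ?_
  rw [map_smul]

theorem op_fun_eq {R : Type} {n : ℕ} {x y : Fin n → R} :
    ((fun i => op (x i)) = fun i => op (y i)) ↔ x = y := by
  constructor
  · intro h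
    funext i
    exact op_injective (congrFun h i)
  · rintro rfl; rfl

theorem exists_op_fun {R : Type} {n : ℕ} (u : Fin n → Rᵐᵒᵖ) :
    ∃ x : Fin n → R, u = fun i => op (x i) := ⟨fun i => unop (u i), rfl⟩

/-- `R` and `Rᵐᵒᵖ` are isomorphic right modules -/
def opEquivR (R : Type) [Ring R] : R ≃ₗ[Rᵐᵒᵖ] Rᵐᵒᵖ where
  toFun := op
  invFun := unop
  left_inv := fun _ => rfl
  right_inv := fun _ => rfl
  map_add' := fun _ _ => rfl
  map_smul' := fun _ _ => rfl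

theorem opMat_ker {R : Type} [Ring R] {k m n : ℕ}
    (d : (Fin m → Rᵐᵒᵖ) →ₗ[Rᵐᵒᵖ] (Fin n → Rᵐᵒᵖ)) (d' : (Fin k → Rᵐᵒᵖ) →ₗ[Rᵐᵒᵖ] (Fin m → Rᵐᵒᵖ))
    (h : LinearMap.range d' = LinearMap.ker d) (y : Fin m → R) :
    (opMat d).mulVec y = 0 ↔ ∃ z, y = (opMat d').mulVec z := by
  have h1 : (opMat d).mulVec y = 0 ↔ d (fun j => op (y j)) = 0 := by
    rw [opMat_apply]
    exact (op_fun_eq (x := (opMat d).mulVec y) (y := 0)).symm
  rw [h1, ← LinearMap.mem_ker, ← h, LinearMap.mem_range]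
  constructor
  · rintro ⟨u, hu⟩
    obtain ⟨z, rfl⟩ := exists_op_fun u
    rw [opMat_apply, op_fun_eq] at hu
    exact ⟨z, hu.symm⟩
  · rintro ⟨z, hz⟩
    refine ⟨fun j => op (z j), ?_⟩
    rw [opMat_apply, op_fun_eq]
    exact hz.symm

/-- TARGET -/
theorem rightRes2 {R : Type} [Ring R] [IsLocalRing R] [IsNoetherianRing Rᵐᵒᵖ] {M : Type}
    [AddCommGroup M] [Module Rᵐᵒᵖ M] [Module.Finite Rᵐᵒᵖ M] (h : PdLE Rᵐᵒᵖ M 2) :
    ∃ (g0 g1 g2 : ℕ) (e : Fin g0 → M) (A1 : Matrix (Fin g0) (Fin g1) R)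
      (A2 : Matrix (Fin g1) (Fin g2) R),
      (∀ y : M, ∃ x : Fin g0 → R, y = ∑ i, op (x i) • e i) ∧
      (∀ x : Fin g0 → R, ∑ i, op (x i) • e i = 0 ↔ ∃ y, x = Matrix.mulVec A1 y) ∧
      (∀ y : Fin g1 → R, Matrix.mulVec A1 y = 0 ↔ ∃ z, y = Matrix.mulVec A2 z) ∧
      (∀ z : Fin g2 → R, Matrix.mulVec A2 z = 0 → z = 0) ∧
      (∀ g : LengthFn Rᵐᵒᵖ, g.f R = 1 → g.f M + (g1 : ℕ∞) = (g0 : ℕ∞) + (g2 : ℕ∞)) := by
  obtain ⟨c, b, a, t, d1, d2, ht, h1, h2, h3, -, hf⟩ := res2 h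
  refine ⟨c, b, a, fun i => t (Pi.single i 1), opMat d1, opMat d2, ?_, ?_, ?_, ?_, ?_⟩
  · intro y
    obtain ⟨u, rfl⟩ := ht y
    obtain ⟨x, rfl⟩ := exists_op_fun u
    exact ⟨x, opRow_apply t x⟩
  · intro x
    rw [← opRow_apply, ← LinearMap.mem_ker, ← h1, LinearMap.mem_range]
    constructor
    · rintro ⟨u, hu⟩
      obtain ⟨z, rfl⟩ := exists_op_fun u
      rw [opMat_apply, op_fun_eq] at hu
      exact ⟨z, hu.symm⟩
    · rintro ⟨z, hz⟩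
      refine ⟨fun j => op (z j), ?_⟩
      rw [opMat_apply, op_fun_eq]
      exact hz.symm
  · exact opMat_ker d1 d2 h2
  · intro z hz
    have h4 : d2 (fun j => op (z j)) = d2 0 := by
      rw [opMat_apply, hz, map_zero]
      rfl
    have h5 := h3 h4
    exact (op_fun_eq (x := z) (y := 0)).1 h5
  · intro g hg
    refine hf g ?_
    rw [← g.congr (opEquivR R)]
    exact hg

end GD4
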