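import Pool.Agent.Helper576_GD4.Res3

set_option autoImplicit false

open MulOpposite

namespace GD4

/-- the matrix of a linear map between free modules over the opposite ring -/
def matOf {R : Type} [Ring R] {m n : ℕ} (d : (Fin m → Rᵐᵒᵖ) →ₗ[Rᵐᵒᵖ] (Fin n → Rᵐᵒᵖ)) :
    Matrix (Fin n) (Fin m) R := fun i j => unop (d (Pi.single j 1) i)

theorem op_expand {R : Type} [Ring R] {m : ℕ} {M : Type} [AddCommGroup M] [Module Rᵐᵒᵖ M]
    (e : (Fin m → Rᵐᵒᵖ) →ₗ[Rᵐᵒᵖ] M) (x : Fin m → R) :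
    e (fun j => op (x j)) = ∑ j, op (x j) • e (Pi.single j 1) := by
  have h : (fun j => op (x j)) = ∑ j, op (x j) • (Pi.single j 1 : Fin m → Rᵐᵒᵖ) := by
    funext k
    simp [Finset.sum_apply, Pi.single_apply]
  rw [h, map_sum]
  simp only [map_smul]

theorem matOf_spec {R : Type} [Ring R] {m n : ℕ} (d : (Fin m → Rᵐᵒᵖ) →ₗ[Rᵐᵒᵖ] (Fin n → Rᵐᵒᵖ))
    (x : Fin m → R) : d (fun j => op (x j)) = fun i => op ((matOf d).mulVec x i) := by
  rw [op_expand]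
  funext i
  rw [Finset.sum_apply]
  simp only [Pi.smul_apply, smul_eq_mul, Matrix.mulVec, dotProduct, matOf]
  apply unop_injective
  rw [unop_op, Finset.unop_sum]
  refine Finset.sum_congr rfl fun j _ => ?_
  rw [unop_mul, unop_op]

theorem matOf_zero_iff {R : Type} [Ring R] {m n : ℕ}
    (d : (Fin m → Rᵐᵒᵖ) →ₗ[Rᵐᵒᵖ] (Fin n → Rᵐᵒᵖ)) (x : Fin m → R) :
    (matOf d).mulVec x = 0 ↔ d (fun j => op (x j)) = 0 := by
  rw [matOf_spec]
  constructor
  · intro h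
    rw [h]
    rfl
  · intro h
    funext i
    have := congrFun h i
    simpa using this

theorem matOf_range_iff {R : Type} [Ring R] {m n : ℕ}
    (d : (Fin m → Rᵐᵒᵖ) →ₗ[Rᵐᵒᵖ] (Fin n → Rᵐᵒᵖ)) (x : Fin n → R) :
    (∃ y, x = (matOf d).mulVec y) ↔ (fun j => op (x j)) ∈ LinearMap.range d := by
  constructor
  · rintro ⟨y, rfl⟩
    exact ⟨fun j => op (y j), matOf_spec d y⟩
  · rintro ⟨v, hv⟩
    refine ⟨fun j => unop (v j), ?_⟩
    have h1 : d (fun j => op ((fun j => unop (v j)) j)) = fun j => op (x j) := by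
      simpa using hv
    rw [matOf_spec] at h1
    funext i
    exact (op_injective (congrFun h1 i)).symm

/-- TARGET -/
theorem rightRes3 {R : Type} [Ring R] [IsLocalRing R] [IsNoetherianRing Rᵐᵒᵖ] {M : Type}
    [AddCommGroup M] [Module Rᵐᵒᵖ M] [Module.Finite Rᵐᵒᵖ M] (h : PdLE Rᵐᵒᵖ M 3) :
    ∃ (g0 g1 g2 g3 : ℕ) (e : Fin g0 → M) (A1 : Matrix (Fin g0) (Fin g1) R)
      (A2 : Matrix (Fin g1) (Fin g2) R) (A3 : Matrix (Fin g2) (Fin g3) R),
      (∀ y : M, ∃ x : Fin g0 → R, y = ∑ i, op (x i) • e i) ∧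
      (∀ x : Fin g0 → R, ∑ i, op (x i) • e i = 0 ↔ ∃ y, x = Matrix.mulVec A1 y) ∧
      (∀ y : Fin g1 → R, Matrix.mulVec A1 y = 0 ↔ ∃ z, y = Matrix.mulVec A2 z) ∧
      (∀ y : Fin g2 → R, Matrix.mulVec A2 y = 0 ↔ ∃ z, y = Matrix.mulVec A3 z) ∧
      (∀ z : Fin g3 → R, Matrix.mulVec A3 z = 0 → z = 0) ∧
      (∀ i j, A3 i j ∈ J R) ∧
      (g3 = 0 → PdLE Rᵐᵒᵖ M 2) := by
  obtain ⟨g0, g1, g2, g3, e, d1, d2, d3, he, h1, h2, h3, hinj, hJ, h0⟩ := res3 h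
  refine ⟨g0, g1, g2, g3, fun i => e (Pi.single i 1), matOf d1, matOf d2, matOf d3,
    ?_, ?_, ?_, ?_, ?_, ?_, h0⟩
  · intro y
    obtain ⟨v, rfl⟩ := he y
    refine ⟨fun j => unop (v j), ?_⟩
    rw [← op_expand]
    simp
  · intro x
    rw [← op_expand, matOf_range_iff, h1, LinearMap.mem_ker]
  · intro y
    rw [matOf_zero_iff, matOf_range_iff, h2, LinearMap.mem_ker]
  · intro y
    rw [matOf_zero_iff, matOf_range_iff, h3, LinearMap.mem_ker]
  · intro z hz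
    rw [matOf_zero_iff] at hz
    have h4 := hinj (hz.trans (map_zero d3).symm)
    funext j
    have := congrFun h4 j
    simpa using this
  · intro i j
    have h5 := hJ (Pi.single j 1) i
    exact mem_J_op.1 h5

end GD4
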