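import Pool.Agent.Helper576_GD4.Loc
import Pool.Agent.Helper576_GD4.Length

set_option autoImplicit false

open MulOpposite

namespace GD4

/-- TARGET -/
theorem S3 {R : Type} [Ring R] [IsLocalRing R] [IsNoetherianRing R] (N X P : Ideal R)
    (hXP : ∀ x, x ∈ X ↔ ∀ p ∈ P, x * p = 0)
    (hNX : ∀ n ∈ N, ∀ x ∈ X, n * x = 0) {m : ℕ} (hm : 0 < m) (ν : Fin m → R)
    (hν : ∀ i, ν i ∈ N) (A : Matrix (Fin m) (Fin m) R) (hA : ∀ i j, A i j ∈ J R)
    (hker : ∀ x : Fin m → R, ∑ i, ν i * x i = 0 → ∃ y, x = Matrix.mulVec A y)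
    (hinj : ∀ y : Fin m → R, Matrix.mulVec A y = 0 → y = 0) : X = ⊥ := by
  have hle : X ≤ ⊥ := by
    refine nakayama ⊥ X (IsNoetherian.noetherian X) ?_
    rw [bot_sup_eq]
    intro x hx
    let i0 : Fin m := ⟨0, hm⟩
    obtain ⟨y, hy⟩ := hker (Pi.single i0 x) (by
      rw [Finset.sum_eq_single i0]
      · rw [Pi.single_eq_same]
        exact hNX _ (hν i0) x hx
      · intro b _ hb
        rw [Pi.single_eq_of_ne hb, mul_zero]
      · intro h
        exact absurd (Finset.mem_univ i0) h)
    have hyX : ∀ k, y k ∈ X := by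
      intro k
      rw [hXP]
      intro p hp
      have h0 : Matrix.mulVec A (fun k => y k * p) = 0 := by
        funext i
        have h1 : Matrix.mulVec A y i = (Pi.single i0 x : Fin m → R) i := by rw [← hy]
        have h2 : Matrix.mulVec A (fun k => y k * p) i = Matrix.mulVec A y i * p := by
          simp only [Matrix.mulVec, dotProduct, Finset.sum_mul, mul_assoc]
        rw [h2, h1, Pi.zero_apply]
        by_cases hi : i = i0
        · subst hi
          rw [Pi.single_eq_same]
          exact (hXP x).1 hx p hp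
        · rw [Pi.single_eq_of_ne hi, zero_mul]
      exact congrFun (hinj _ h0) k
    have hx0 : x = ∑ k, A i0 k * y k := by
      have h1 : Matrix.mulVec A y i0 = (Pi.single i0 x : Fin m → R) i0 := by rw [← hy]
      rw [Pi.single_eq_same] at h1
      rw [← h1]
      simp only [Matrix.mulVec, dotProduct]
    rw [hx0]
    refine Submodule.sum_mem _ fun k _ => ?_
    exact Submodule.smul_mem_smul (hA i0 k) (hyX k)
  exact le_bot_iff.1 hle

end GD4
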