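import Pool.Agent.Helper576_GD4.SerreLen
import Pool.Agent.Helper576_GD4.Loc
import Pool.Agent.Helper576_GD4.Length

set_option autoImplicit false

open MulOpposite

namespace GD4

namespace S4aux

/-- the Serre class of the zero modules -/
def zeroClass (T : Type) [Ring T] : SerreClass T where
  mem := fun M _ _ => Subsingleton M
  of_inj := fun _ hg h => hg.subsingleton
  of_surj := fun _ hg h => hg.subsingleton
  ext := by
    intro M _ _ N h1 h2
    refine ⟨fun a b => ?_⟩
    have h3 : N.mkQ (a - b) = 0 := Subsingleton.elim _ _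
    rw [Submodule.mkQ_apply, Submodule.Quotient.mk_eq_zero] at h3
    have h4 : (⟨a - b, h3⟩ : N) = 0 := Subsingleton.elim _ _
    have h5 : a - b = 0 := congrArg Subtype.val h4
    exact sub_eq_zero.1 h5
  zero := fun M _ _ h => h

variable {R : Type} [Ring R]

/-- a two-sided ideal as right submodule -/
def rt (X : Ideal R) [X.IsTwoSided] : Submodule Rᵐᵒᵖ R where
  carrier := X
  add_mem' := fun ha hb => X.add_mem ha hb
  zero_mem' := X.zero_mem
  smul_mem' := fun c x hx => X.mul_mem_right (unop c) hx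

theorem mem_rt {X : Ideal R} [X.IsTwoSided] {x : R} : x ∈ rt X ↔ x ∈ X := Iff.rfl

theorem noeth [IsNoetherianRing Rᵐᵒᵖ] : IsNoetherian Rᵐᵒᵖ R := by
  let φ : Rᵐᵒᵖ →ₗ[Rᵐᵒᵖ] R :=
    { toFun := unop
      map_add' := fun _ _ => rfl
      map_smul' := fun _ _ => rfl }
  exact isNoetherian_of_surjective φ (LinearMap.range_eq_top.2 (fun x => ⟨op x, rfl⟩))

/-- multiplication by a matrix on the left -/
def lm (X : Ideal R) [X.IsTwoSided] {a b : ℕ} (A : Matrix (Fin a) (Fin b) R) :
    (Fin b → rt X) →ₗ[Rᵐᵒᵖ] (Fin a → rt X) where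
  toFun := fun x i => ⟨∑ j, A i j * (x j : R), X.sum_mem fun j _ => X.mul_mem_left _ (x j).2⟩
  map_add' := by
    intro x y
    funext i
    apply Subtype.ext
    show ∑ j, A i j * ((x j : R) + (y j : R)) = ∑ j, A i j * (x j : R) + ∑ j, A i j * (y j : R)
    rw [← Finset.sum_add_distrib]
    exact Finset.sum_congr rfl fun j _ => mul_add _ _ _
  map_smul' := by
    intro c x
    funext i
    apply Subtype.ext
    show ∑ j, A i j * ((x j : R) * unop c) = (∑ j, A i j * (x j : R)) * unop c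
    rw [Finset.sum_mul]
    exact Finset.sum_congr rfl fun j _ => (mul_assoc _ _ _).symm

theorem lm_coe (X : Ideal R) [X.IsTwoSided] {a b : ℕ} (A : Matrix (Fin a) (Fin b) R) (x : Fin b → rt X) :
    (fun i => ((lm X A x i : rt X) : R)) = Matrix.mulVec A (fun j => (x j : R)) := rfl

/-- the row `ν` on the left -/
def be (X : Ideal R) [X.IsTwoSided] {a : ℕ} (ν : Fin a → R) : (Fin a → rt X) →ₗ[Rᵐᵒᵖ] R where
  toFun := fun x => ∑ i, ν i * (x i : R)
  map_add' := by
    intro x y
    show ∑ i, ν i * ((x i : R) + (y i : R)) = _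
    rw [← Finset.sum_add_distrib]
    exact Finset.sum_congr rfl fun j _ => mul_add _ _ _
  map_smul' := by
    intro c x
    show ∑ i, ν i * ((x i : R) * unop c) = (∑ i, ν i * (x i : R)) * unop c
    rw [Finset.sum_mul]
    exact Finset.sum_congr rfl fun j _ => (mul_assoc _ _ _).symm

theorem be_apply (X : Ideal R) [X.IsTwoSided] {a : ℕ} (ν : Fin a → R) (x : Fin a → rt X) :
    be X ν x = ∑ i, ν i * (x i : R) := rfl

end S4aux

open S4aux in
/-- TARGET -/
theorem S4 {R : Type} [Ring R] [IsNoetherianRing R] [IsNoetherianRing Rᵐᵒᵖ]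
    (N X P : Ideal R) [N.IsTwoSided] [X.IsTwoSided] [P.IsTwoSided] (hX0 : X ≠ ⊥)
    (hXP : ∀ x, x ∈ X ↔ ∀ p ∈ P, x * p = 0)
    (hmax : ∀ Z : Ideal R, Z.IsTwoSided → Z ≤ X → Z ≠ ⊥ → ∀ r : R, (∀ z ∈ Z, z * r = 0) → r ∈ P)
    {m0 m1 m2 : ℕ} (hm : m1 = m0 + m2) (ν : Fin m0 → R) (hν : ∀ i, ν i ∈ N)
    (hgen : ∀ n ∈ N, ∃ x : Fin m0 → R, n = ∑ i, ν i * x i)
    (A1 : Matrix (Fin m0) (Fin m1) R) (A2 : Matrix (Fin m1) (Fin m2) R)
    (h1 : ∀ x : Fin m0 → R, ∑ i, ν i * x i = 0 ↔ ∃ y, x = Matrix.mulVec A1 y)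
    (h2 : ∀ y : Fin m1 → R, Matrix.mulVec A1 y = 0 ↔ ∃ z, y = Matrix.mulVec A2 z)
    (h3 : ∀ z : Fin m2 → R, Matrix.mulVec A2 z = 0 → z = 0) :
    ∀ n ∈ N, ∀ x ∈ X, n * x = 0 := by
  classical
  have hno : IsNoetherian Rᵐᵒᵖ R := noeth
  have hXne : ¬ (zeroClass Rᵐᵒᵖ).mem (rt X) := by
    intro h
    apply hX0
    rw [eq_bot_iff]
    intro x hx
    have h' : Subsingleton (rt X) := h
    have h1 : (⟨x, hx⟩ : rt X) = 0 := Subsingleton.elim _ _
    have h2 : x = 0 := congrArg Subtype.val h1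
    rw [h2]
    exact Submodule.zero_mem _
  obtain ⟨g, hg0, hgX, hgT, -⟩ := exists_lengthFn (zeroClass Rᵐᵒᵖ) (rt X) hXne
  set γ := g.f (rt X) with hγ
  -- kernel and range
  have hinj : Function.Injective (lm X A2) := by
    intro z z' hz
    have h4 : Matrix.mulVec A2 (fun j => ((z j : R) - (z' j : R))) = 0 := by
      have h5 : (fun i => ((lm X A2 z i : rt X) : R)) = fun i => ((lm X A2 z' i : rt X) : R) := by rw [hz]
      rw [lm_coe, lm_coe] at h5
      have h6 := Matrix.mulVec_sub A2 (fun j => (z j : R)) (fun j => (z' j : R))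
      rw [h5, sub_self] at h6
      exact h6
    have h5 := h3 _ h4
    funext j
    apply Subtype.ext
    have h6 := congrFun h5 j
    exact sub_eq_zero.1 h6
  have hker : LinearMap.ker (lm X A1) = LinearMap.range (lm X A2) := by
    ext x
    rw [LinearMap.mem_ker, LinearMap.mem_range]
    constructor
    · intro hx
      have h4 : Matrix.mulVec A1 (fun j => (x j : R)) = 0 := by
        rw [← lm_coe, hx]
        rfl
      obtain ⟨z, hz⟩ := (h2 _).1 h4
      have hzX : ∀ j, z j ∈ X := by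
        intro j
        rw [hXP]
        intro p hp
        have h5 : Matrix.mulVec A2 (fun j => z j * p) = 0 := by
          have h6 : ∀ i, (x i : R) * p = 0 := fun i => (hXP _).1 (x i).2 p hp
          funext i
          have h7 : (x i : R) = ∑ j, A2 i j * z j := congrFun hz i
          show ∑ j, A2 i j * (z j * p) = 0
          rw [← h6 i, h7, Finset.sum_mul]
          exact Finset.sum_congr rfl fun j _ => (mul_assoc _ _ _).symm
        exact congrFun (h3 _ h5) j
      refine ⟨fun j => ⟨z j, hzX j⟩, ?_⟩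
      funext i
      apply Subtype.ext
      exact (congrFun hz i).symm
    · rintro ⟨z, rfl⟩
      have h4 := (h2 (Matrix.mulVec A2 (fun j => (z j : R)))).2 ⟨_, rfl⟩
      rw [← lm_coe] at h4
      funext i
      apply Subtype.ext
      exact congrFun h4 i
  have hg2 : g.f (LinearMap.ker (lm X A1)) = m2 * γ := by
    rw [hker, ← g.congr (LinearEquiv.ofInjective (lm X A2) hinj), g.pi]
  have hfin : ∀ n : ℕ, (n : ℕ∞) * γ ≠ ⊤ := fun n => WithTop.mul_ne_top (ENat.natCast_ne_top n) hgT
  have hr1 : g.f (LinearMap.range (lm X A1)) = m0 * γ := by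
    have h4 := g.ker_add_range (lm X A1)
    have hm' : (m1 : ℕ∞) = m0 + m2 := by exact_mod_cast hm
    rw [g.pi, hg2, hm', add_mul, add_comm ((m0 : ℕ∞) * _)] at h4
    exact (ENat.add_right_injective_of_ne_top (hfin m2) h4).symm
  have hq : g.f ((Fin m0 → rt X) ⧸ LinearMap.range (lm X A1)) = 0 := by
    have h4 := g.sub_add_quot (LinearMap.range (lm X A1))
    rw [g.pi, hr1] at h4
    have h5 : (m0 : ℕ∞) * γ + 0 = m0 * γ + g.f ((Fin m0 → rt X) ⧸ LinearMap.range (lm X A1)) := by
      rw [add_zero]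
      exact h4
    exact (ENat.add_right_injective_of_ne_top (hfin m0) h5).symm
  -- the range of `be`
  have hle : LinearMap.range (lm X A1) ≤ LinearMap.ker (be X ν).rangeRestrict := by
    rintro _ ⟨y, rfl⟩
    rw [LinearMap.ker_rangeRestrict, LinearMap.mem_ker, be_apply]
    exact (h1 _).2 ⟨_, rfl⟩
  have hI0 : g.f (LinearMap.range (be X ν)) = 0 := by
    have h4 := g.le_of_surj ((LinearMap.range (lm X A1)).liftQ (be X ν).rangeRestrict hle) (by
      intro z
      obtain ⟨x, hx⟩ := (be X ν).surjective_rangeRestrict z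
      exact ⟨(LinearMap.range (lm X A1)).mkQ x, by rw [Submodule.mkQ_apply, Submodule.liftQ_apply, hx]⟩)
    rw [hq] at h4
    exact nonpos_iff_eq_zero.1 h4
  have hmul : ∀ n ∈ N, ∀ x ∈ X, n * x ∈ LinearMap.range (be X ν) := by
    intro n hn x hx
    obtain ⟨r, hr⟩ := hgen n hn
    refine ⟨fun i => ⟨r i * x, X.mul_mem_left _ hx⟩, ?_⟩
    rw [be_apply, hr, Finset.sum_mul]
    exact Finset.sum_congr rfl fun i _ => (mul_assoc _ _ _).symm
  let Z : Ideal R :=
    { carrier := LinearMap.range (be X ν)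
      add_mem' := fun ha hb => (LinearMap.range (be X ν)).add_mem ha hb
      zero_mem' := (LinearMap.range (be X ν)).zero_mem
      smul_mem' := by
        rintro c _ ⟨x, rfl⟩
        rw [be_apply, smul_eq_mul, Finset.mul_sum]
        apply (LinearMap.range (be X ν)).sum_mem
        intro i _
        rw [← mul_assoc]
        exact hmul _ (N.mul_mem_left c (hν i)) _ (x i).2 }
  have hZmem : ∀ z, z ∈ Z ↔ z ∈ LinearMap.range (be X ν) := fun z => Iff.rfl
  have hZt : Z.IsTwoSided := ⟨fun {a} b ha => (LinearMap.range (be X ν)).smul_mem (op b) ha⟩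
  have hZX : Z ≤ X := by
    rintro _ ⟨x, rfl⟩
    rw [be_apply]
    exact X.sum_mem fun i _ => X.mul_mem_left _ (x i).2
  by_cases hZ : Z = ⊥
  · intro n hn x hx
    have h4 : n * x ∈ Z := hmul n hn x hx
    rw [hZ] at h4
    exact h4
  exfalso
  obtain ⟨s, z, hz⟩ := Submodule.fg_iff_exists_fin_generating_family.1 (IsNoetherian.noetherian Z)
  have hzZ : ∀ k, z k ∈ Z := fun k => by
    rw [← hz]
    exact Submodule.subset_span ⟨k, rfl⟩
  -- right multiplication
  let θ : R →ₗ[Rᵐᵒᵖ] (Fin s → LinearMap.range (be X ν)) :=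
    { toFun := fun r k => ⟨z k * r, (LinearMap.range (be X ν)).smul_mem (op r) (hzZ k)⟩
      map_add' := by
        intro a b
        funext k
        apply Subtype.ext
        exact mul_add _ _ _
      map_smul' := by
        intro c a
        funext k
        apply Subtype.ext
        exact (mul_assoc _ _ _).symm }
  have hθ : LinearMap.ker θ ≤ rt P := by
    intro r hr
    rw [LinearMap.mem_ker] at hr
    have h4 : ∀ k, z k * r = 0 := fun k => congrArg Subtype.val (congrFun hr k)
    rw [mem_rt]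
    apply hmax Z hZt hZX hZ
    intro w hw
    rw [← hz] at hw
    induction hw using Submodule.span_induction with
    | mem x hx =>
      obtain ⟨k, rfl⟩ := hx
      exact h4 k
    | zero => exact zero_mul _
    | add x y _ _ hx hy => rw [add_mul, hx, hy, add_zero]
    | smul c x _ hx => rw [smul_eq_mul, mul_assoc, hx, mul_zero]
  have hRK : g.f (R ⧸ LinearMap.ker θ) = 0 := by
    rw [g.congr (M := R ⧸ LinearMap.ker θ) (N := LinearMap.range θ) θ.quotKerEquivRange]
    have h4 := g.le_top (LinearMap.range θ)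
    rw [g.pi, hI0, mul_zero] at h4
    exact nonpos_iff_eq_zero.1 h4
  have hRP : g.f (R ⧸ rt P) = 0 := by
    have h4 := g.le_of_surj (Submodule.mapQ (LinearMap.ker θ) (rt P) LinearMap.id hθ) (by
      intro y
      obtain ⟨r, rfl⟩ := (rt P).mkQ_surjective y
      exact ⟨(LinearMap.ker θ).mkQ r, rfl⟩)
    rw [hRK] at h4
    exact nonpos_iff_eq_zero.1 h4
  apply hgX
  have hfg : Module.Finite Rᵐᵒᵖ (rt X) := inferInstance
  obtain ⟨k, x, hx⟩ := Module.Finite.exists_fin (R := Rᵐᵒᵖ) (M := rt X)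
  apply g.eq_zero_of_span x hx
  intro i
  let ψ : R →ₗ[Rᵐᵒᵖ] rt X :=
    { toFun := fun r => op r • x i
      map_add' := by
        intro a b
        show op (a + b) • x i = op a • x i + op b • x i
        rw [op_add, add_smul]
      map_smul' := by
        intro c a
        show op (a * unop c) • x i = c • (op a • x i)
        rw [op_mul, mul_smul, op_unop] }
  have hψ : Submodule.span Rᵐᵒᵖ {x i} = LinearMap.range ψ := by
    ext y
    rw [Submodule.mem_span_singleton, LinearMap.mem_range]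
    constructor
    · rintro ⟨c, rfl⟩
      exact ⟨unop c, rfl⟩
    · rintro ⟨r, rfl⟩
      exact ⟨op r, rfl⟩
  have hψP : rt P ≤ LinearMap.ker ψ := by
    intro p hp
    rw [LinearMap.mem_ker]
    apply Subtype.ext
    show (x i : R) * p = 0
    exact (hXP _).1 (x i).2 p hp
  have h4 := g.le_of_surj (Submodule.mapQ (rt P) (LinearMap.ker ψ) LinearMap.id hψP) (by
    intro y
    obtain ⟨r, rfl⟩ := (LinearMap.ker ψ).mkQ_surjective y
    exact ⟨(rt P).mkQ r, rfl⟩)
  rw [hRP, g.congr (M := R ⧸ LinearMap.ker ψ) (N := LinearMap.range ψ) ψ.quotKerEquivRange] at h4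
  rw [hψ]
  exact nonpos_iff_eq_zero.1 h4

end GD4
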