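import Pool.Agent.Helper576_GD4.Loc
import Pool.Agent.Helper576_GD4.Length

set_option autoImplicit false

open MulOpposite

namespace GD4

/-- TARGET -/
theorem S9b {R : Type} [Ring R] [IsLocalRing R] [IsNoetherianRing R] [IsNoetherianRing Rᵐᵒᵖ]
    {Y : Type} [AddCommGroup Y] [Module R Y] [Module Rᵐᵒᵖ Y] [SMulCommClass R Rᵐᵒᵖ Y]
    [IsNoetherian R Y] [IsNoetherian Rᵐᵒᵖ Y]
    (o : Y) (ho : ∀ r : R, r • o = op r • o)
    (hart : IsArtinian R (Y ⧸ Submodule.span R {o}))
    {a b c : ℕ} (hc : 0 < c) (hbac : b = c + a)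
    (B1 : Matrix (Fin b) (Fin c) R) (B2 : Matrix (Fin a) (Fin b) R) (hB1 : ∀ i j, B1 i j ∈ J R)
    (hex : ∀ (x : Fin b → Y) (y : Fin c → R), rAct x B1 = (fun k => y k • o) →
      ∃ (r : Fin b → R) (z : Fin a → Y), x = (fun i => r i • o) + rAct z B2) :
    ∀ y : Y, ∃ r : R, y = r • o := by
  classical
  set S : Submodule R Y := Submodule.span R {o} with hS
  have memS : ∀ y : Y, y ∈ S ↔ ∃ r : R, r • o = y := fun y => Submodule.mem_span_singleton
  -- right multiplications
  let ρ : R → (Y →ₗ[R] Y) := fun s =>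
    { toFun := fun y => op s • y
      map_add' := fun x y => smul_add _ _ _
      map_smul' := fun r y => (smul_comm r (op s) y).symm }
  have hρ : ∀ s y, ρ s y = op s • y := fun s y => rfl
  have hρS : ∀ s, S ≤ S.comap (ρ s) := by
    intro s y hy
    obtain ⟨r, rfl⟩ := (memS y).1 hy
    rw [Submodule.mem_comap, hρ, ← smul_comm r (op s) o, ← ho s, ← mul_smul]
    exact (memS _).2 ⟨_, rfl⟩
  let ρF : R → ((Y ⧸ S) →ₗ[R] (Y ⧸ S)) := fun s => S.mapQ S (ρ s) (hρS s)
  have hρF : ∀ s y, ρF s (S.mkQ y) = S.mkQ (op s • y) := fun s y => rfl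
  let w : (Fin b → (Y ⧸ S)) →ₗ[R] (Fin c → (Y ⧸ S)) :=
    LinearMap.pi fun k => ∑ i, (ρF (B1 i k)) ∘ₗ LinearMap.proj i
  let u : (Fin a → (Y ⧸ S)) →ₗ[R] (Fin b → (Y ⧸ S)) :=
    LinearMap.pi fun k => ∑ i, (ρF (B2 i k)) ∘ₗ LinearMap.proj i
  have hw : ∀ x : Fin b → Y, ∀ k, w (fun i => S.mkQ (x i)) k = S.mkQ (rAct x B1 k) := by
    intro x k
    simp only [w, rAct, LinearMap.pi_apply, LinearMap.sum_apply, LinearMap.comp_apply, LinearMap.proj_apply,
      map_sum, hρF]
  have hu : ∀ z : Fin a → Y, ∀ k, u (fun i => S.mkQ (z i)) k = S.mkQ (rAct z B2 k) := by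
    intro z k
    simp only [u, rAct, LinearMap.pi_apply, LinearMap.sum_apply, LinearMap.comp_apply, LinearMap.proj_apply,
      map_sum, hρF]
  have hlift : ∀ {n : ℕ} (x : Fin n → (Y ⧸ S)), ∃ x' : Fin n → Y, x = fun i => S.mkQ (x' i) := by
    intro n x
    choose x' hx' using fun i => S.mkQ_surjective (x i)
    exact ⟨x', funext fun i => (hx' i).symm⟩
  have hker : LinearMap.ker w ≤ LinearMap.range u := by
    intro x hx
    obtain ⟨x', rfl⟩ := hlift x
    rw [LinearMap.mem_ker] at hx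
    have h1 : ∀ k, ∃ r : R, r • o = rAct x' B1 k := by
      intro k
      rw [← memS, ← S.ker_mkQ, LinearMap.mem_ker, ← hw, hx]
      rfl
    choose y hy using h1
    obtain ⟨r, z, hrz⟩ := hex x' y (funext fun k => (hy k).symm)
    refine ⟨fun i => S.mkQ (z i), funext fun k => ?_⟩
    rw [hu]
    have h2 : x' k = r k • o + rAct z B2 k := congrFun hrz k
    rw [h2, map_add]
    have h3 : S.mkQ (r k • o) = 0 := by
      rw [← LinearMap.mem_ker, S.ker_mkQ]
      exact (memS _).2 ⟨_, rfl⟩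
    rw [h3, zero_add]
  -- lengths
  have hfin : Module.length R (Y ⧸ S) ≠ ⊤ := Module.length_ne_top
  have hlenpi : ∀ n : ℕ, Module.length R (Fin n → (Y ⧸ S)) = n * Module.length R (Y ⧸ S) := by
    intro n
    rw [Module.length_pi]
    simp
  have e1 : Module.length R (Fin b → (Y ⧸ S)) =
      Module.length R (LinearMap.ker w) + Module.length R (LinearMap.range w) :=
    Module.length_eq_add_of_exact (LinearMap.ker w).subtype w.rangeRestrict (LinearMap.ker w).subtype_injective
      w.surjective_rangeRestrict (by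
        intro x
        simp [Subtype.ext_iff])
  have e2 : Module.length R (LinearMap.ker w) ≤ Module.length R (LinearMap.range u) :=
    Module.length_le_of_injective (Submodule.inclusion hker) (Submodule.inclusion_injective hker)
  have e3 : Module.length R (LinearMap.range u) ≤ Module.length R (Fin a → (Y ⧸ S)) :=
    Module.length_le_of_surjective u.rangeRestrict u.surjective_rangeRestrict
  have e4 : Module.length R (Fin c → (Y ⧸ S)) =
      Module.length R (LinearMap.range w) + Module.length R ((Fin c → (Y ⧸ S)) ⧸ LinearMap.range w) :=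
    Module.length_eq_add_of_exact (LinearMap.range w).subtype (LinearMap.range w).mkQ
      (LinearMap.range w).subtype_injective (LinearMap.range w).mkQ_surjective (by
        intro x
        simp)
  rw [hlenpi] at e1 e3 e4
  obtain ⟨ℓ, hℓ⟩ := ENat.ne_top_iff_exists.1 hfin
  rw [← hℓ] at e1 e3 e4
  have hq : Module.length R ((Fin c → (Y ⧸ S)) ⧸ LinearMap.range w) = 0 := by
    have f1 : Module.length R (LinearMap.range w) ≠ ⊤ := by
      intro h
      rw [h, top_add] at e4
      exact ENat.natCast_ne_top (c * ℓ) (by exact_mod_cast e4)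
    have f2 : Module.length R ((Fin c → (Y ⧸ S)) ⧸ LinearMap.range w) ≠ ⊤ := by
      intro h
      rw [h, add_top] at e4
      exact ENat.natCast_ne_top (c * ℓ) (by exact_mod_cast e4)
    have f3 : Module.length R (LinearMap.ker w) ≠ ⊤ := by
      intro h
      rw [h, top_add] at e1
      exact ENat.natCast_ne_top (b * ℓ) (by exact_mod_cast e1)
    obtain ⟨p, hp⟩ := ENat.ne_top_iff_exists.1 f1
    obtain ⟨q, hq⟩ := ENat.ne_top_iff_exists.1 f2
    obtain ⟨m, hm⟩ := ENat.ne_top_iff_exists.1 f3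
    have e5 := e2.trans e3
    rw [← hp, ← hq] at e4
    rw [← hp, ← hm] at e1
    rw [← hm] at e5
    rw [← hq]
    have g1 : b * ℓ = m + p := by exact_mod_cast e1
    have g4 : c * ℓ = p + q := by exact_mod_cast e4
    have g5 : m ≤ a * ℓ := by exact_mod_cast e5
    have g6 : b * ℓ = c * ℓ + a * ℓ := by rw [hbac]; ring
    have : q = 0 := by omega
    rw [this]
    rfl
  have hsurj : LinearMap.range w = ⊤ := by
    have : Subsingleton ((Fin c → (Y ⧸ S)) ⧸ LinearMap.range w) := Module.length_eq_zero_iff.1 hq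
    exact Submodule.Quotient.subsingleton_iff.1 this
  -- Nakayama
  have hnak : (⊤ : Submodule Rᵐᵒᵖ Y) ≤ Submodule.span Rᵐᵒᵖ {o} := by
    refine nakayama (Submodule.span Rᵐᵒᵖ {o}) ⊤ (IsNoetherian.noetherian _) ?_
    intro y _
    have h1 : (Pi.single (⟨0, hc⟩ : Fin c) (S.mkQ y) : Fin c → (Y ⧸ S)) ∈ LinearMap.range w := by
      rw [hsurj]; exact Submodule.mem_top
    obtain ⟨x, hx⟩ := h1
    obtain ⟨x', rfl⟩ := hlift x
    have h2 := congrFun hx ⟨0, hc⟩
    rw [hw, Pi.single_eq_same] at h2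
    have h3 : y - rAct x' B1 ⟨0, hc⟩ ∈ S := by
      rw [← S.ker_mkQ, LinearMap.mem_ker, map_sub, h2, sub_self]
    obtain ⟨r, hr⟩ := (memS _).1 h3
    have h4 : y = r • o + rAct x' B1 ⟨0, hc⟩ := by rw [hr]; abel
    rw [h4]
    refine Submodule.add_mem_sup ?_ ?_
    · rw [ho r]
      exact Submodule.mem_span_singleton.2 ⟨_, rfl⟩
    · unfold rAct
      refine Submodule.sum_mem _ fun i _ => ?_
      refine Submodule.smul_mem_smul ?_ Submodule.mem_top
      rw [mem_J_op]
      exact hB1 i _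
  intro y
  obtain ⟨t, ht⟩ := Submodule.mem_span_singleton.1 (hnak (Submodule.mem_top : y ∈ (⊤ : Submodule Rᵐᵒᵖ Y)))
  refine ⟨unop t, ?_⟩
  rw [ho, op_unop, ht]

end GD4
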