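import Pool.Agent.Helper576_GD4.EIneq
import Pool.Agent.Helper576_GD4.SerreLen

set_option autoImplicit false

open MulOpposite

namespace GD4

theorem noeth_right {R : Type} [Ring R] [IsNoetherianRing Rᵐᵒᵖ] : IsNoetherian Rᵐᵒᵖ R := by
  refine isNoetherian_of_surjective (M := Rᵐᵒᵖ) (LinearMap.toSpanSingleton Rᵐᵒᵖ R 1) ?_
  rw [LinearMap.range_eq_top]
  intro x
  exact ⟨op x, by simp [LinearMap.toSpanSingleton_apply]⟩

/-- TARGET -/
theorem stepB {R : Type} [Ring R] [IsLocalRing R] [IsNoetherianRing R] [IsNoetherianRing Rᵐᵒᵖ]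
    {a b c : ℕ} (Φ : Matrix (Fin a) (Fin b) R) (Φ' : Matrix (Fin c) (Fin a) R) (hb : 0 < b)
    (hJ : ∀ i j, Φ i j ∈ J R) (hcomp : Φ' * Φ = 0)
    (hinj : ∀ x : Fin b → R, Matrix.mulVec Φ x = 0 → x = 0)
    (hex : ∀ y : Fin a → R, Matrix.mulVec Φ' y = 0 → ∃ x, y = Matrix.mulVec Φ x) :
    (∀ x : R, (∀ j ∈ J R, j * x = 0) → x = 0) ∧
    (∀ w : J R →ₗ[R] R, ∃ r : R, ∀ j : J R, w j = (j : R) * r) := by
  have hnr : IsNoetherian Rᵐᵒᵖ R := noeth_right
  let k0 : Fin b := ⟨0, hb⟩
  have h1 : ∀ x : R, (∀ j ∈ J R, j * x = 0) → x = 0 := by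
    intro x hx
    have h : Matrix.mulVec Φ (Pi.single k0 x) = 0 := by
      ext i
      rw [Matrix.mulVec, dotProduct, Finset.sum_eq_single k0]
      · simp [hx _ (hJ i k0)]
      · intro k _ hk
        simp [Pi.single_eq_of_ne hk]
      · simp
    have h' := congrFun (hinj _ h) k0
    simpa using h'
  refine ⟨h1, ?_⟩
  -- the right socle
  have h2 : ∀ x : R, (∀ j ∈ J R, x * j = 0) → x = 0 := by
    let E : Submodule R R :=
      { carrier := {x | ∀ j ∈ J R, x * j = 0}
        add_mem' := fun {x y} hx hy j hj => by rw [add_mul, hx j hj, hy j hj, add_zero]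
        zero_mem' := fun j _ => zero_mul j
        smul_mem' := fun r x hx j hj => by rw [smul_eq_mul, mul_assoc, hx j hj, mul_zero] }
    let ER : Submodule Rᵐᵒᵖ R :=
      { carrier := {x | ∀ j ∈ J R, x * j = 0}
        add_mem' := fun {x y} hx hy j hj => by rw [add_mul, hx j hj, hy j hj, add_zero]
        zero_mem' := fun j _ => zero_mul j
        smul_mem' := fun r x hx j hj => by
          have : r • x = x * unop r := rfl
          rw [this, mul_assoc]
          exact hx _ ((J R).mul_mem_left _ hj) }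
    by_contra hcon
    push Not at hcon
    obtain ⟨x0, hx0, hx0ne⟩ := hcon
    have h01 : (⊥ : Submodule R R) < E := by
      rw [bot_lt_iff_ne_bot]
      intro h
      have : x0 ∈ E := hx0
      rw [h] at this
      exact hx0ne (by simpa using this)
    let Θ : AddSubgroup (ER × R) :=
      { carrier := {p | (p.1 : R) = p.2}
        add_mem' := fun {p q} hp hq => by
          change ((p.1 + q.1 : ER) : R) = p.2 + q.2
          rw [Submodule.coe_add, hp, hq]
        zero_mem' := rfl
        neg_mem' := fun {p} hp => by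
          change ((-p.1 : ER) : R) = -p.2
          rw [Submodule.coe_neg, hp] }
    have hart : IsArtinian Rᵐᵒᵖ ER := by
      apply artinian_of_killed
      intro j hj v
      apply Subtype.ext
      change (v : R) * unop j = 0
      exact v.2 _ (mem_J_op.1 hj)
    obtain ⟨y, hyE, hy0, hyJ⟩ := lenagan (A := R) (B := Rᵐᵒᵖ) (V := R) (X := ER) ⊥ E h01
      (⊥ : Submodule Rᵐᵒᵖ ER) Θ
      (fun x => ⟨x, rfl⟩)
      (fun y hy => ⟨⟨y, hy⟩, rfl⟩)
      (fun x y hxy => by
        have : (x : R) = y := hxy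
        rw [← this]
        exact x.2)
      (fun x y hxy => by
        have : (x : R) = y := hxy
        rw [← this]
        simp)
      (fun s => ⟨{
        toFun := fun x => ⟨s * x, fun j hj => by rw [mul_assoc, x.2 j hj, mul_zero]⟩
        map_add' := fun x y => Subtype.ext (mul_add _ _ _)
        map_smul' := fun c x => Subtype.ext (by
          change s * ((x : R) * unop c) = (s * (x : R)) * unop c
          rw [mul_assoc]) }, fun x y hxy => by
          have : (x : R) = y := hxy
          change s * (x : R) = s * y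
          rw [this]⟩)
    apply hy0
    rw [Submodule.mem_bot]
    exact h1 y (fun j hj => by simpa using hyJ j hj)
  intro w
  by_contra hno
  -- notation
  let M := Fin b → R
  let y1 : Fin a → R := fun i => w ⟨Φ i k0, hJ i k0⟩
  have hy1 : Matrix.mulVec Φ' y1 = 0 := by
    ext l
    have h3 : (∑ i, Φ' l i • (⟨Φ i k0, hJ i k0⟩ : J R)) = 0 := by
      apply Subtype.ext
      have h4 := congrFun (congrFun hcomp l) k0
      rw [Matrix.mul_apply] at h4
      rw [AddSubmonoidClass.coe_finset_sum]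
      simpa using h4
    have h5 := congrArg w h3
    rw [map_sum, map_zero] at h5
    simp only [map_smul, smul_eq_mul] at h5
    exact h5
  obtain ⟨v1, hv1⟩ := hex y1 hy1
  let ρ : M →ₗ[Rᵐᵒᵖ] (J R →ₗ[R] M) :=
    { toFun := fun y => (LinearMap.toSpanSingleton R M y) ∘ₗ (J R).subtype
      map_add' := fun x y => by
        ext j k
        change (j : R) * (x k + y k) = (j : R) * x k + (j : R) * y k
        rw [mul_add]
      map_smul' := fun c y => by
        ext j k
        change (j : R) * (y k * unop c) = ((j : R) * y k) * unop c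
        rw [mul_assoc] }
  have hρ : ∀ (y : M) (j : J R), ρ y j = (j : R) • y := fun y j => rfl
  let v : J R →ₗ[R] M := (LinearMap.single R (fun _ : Fin b => R) k0) ∘ₗ w - ρ v1
  have hv : ∀ j : J R, v j = Pi.single k0 (w j) - (j : R) • v1 := fun j => rfl
  have hvne : v ≠ 0 := by
    intro h0
    apply hno
    refine ⟨v1 k0, fun j => ?_⟩
    have h3 : v j = 0 := by rw [h0]; rfl
    rw [hv] at h3
    have h4 : (Pi.single k0 (w j) : M) k0 - (j : R) * v1 k0 = 0 := congrFun h3 k0
    have h5 : (Pi.single k0 (w j) : Fin b → R) k0 = w j := by simp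
    rw [show (Pi.single k0 (w j) : M) k0 = w j from h5] at h4
    exact sub_eq_zero.1 h4
  let B : (J R →ₗ[R] M) →ₗ[Rᵐᵒᵖ] (Fin a → R) :=
    { toFun := fun u i => ∑ k, u ⟨Φ i k, hJ i k⟩ k
      map_add' := fun x y => by
        ext i
        exact Finset.sum_add_distrib
      map_smul' := fun c y => by
        ext i
        change ∑ k, (y ⟨Φ i k, hJ i k⟩ k) * unop c = (∑ k, y ⟨Φ i k, hJ i k⟩ k) * unop c
        rw [Finset.sum_mul] }
  have hB : ∀ u i, B u i = ∑ k, u ⟨Φ i k, hJ i k⟩ k := fun u i => rfl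
  have hBρ : ∀ y : M, B (ρ y) = Matrix.mulVec Φ y := by
    intro y
    ext i
    rw [hB]
    rfl
  have hBv : B v = 0 := by
    have h3 : v = (LinearMap.single R (fun _ : Fin b => R) k0) ∘ₗ w - ρ v1 := rfl
    rw [h3, map_sub, hBρ, ← hv1]
    ext i
    rw [Pi.sub_apply, hB]
    have h4 : ∑ k, (((LinearMap.single R (fun _ : Fin b => R) k0) ∘ₗ w) ⟨Φ i k, hJ i k⟩) k =
        w ⟨Φ i k0, hJ i k0⟩ := by
      rw [Finset.sum_eq_single k0]
      · simp
      · intro k _ hk
        rw [LinearMap.comp_apply, LinearMap.single_apply, Pi.single_eq_of_ne hk]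
      · simp
    rw [h4]
    simp [y1]
  let W : Submodule Rᵐᵒᵖ (J R →ₗ[R] M) := Submodule.span Rᵐᵒᵖ {v}
  let Y : Submodule Rᵐᵒᵖ M := Submodule.span Rᵐᵒᵖ (Set.range v)
  have hWB : ∀ u ∈ W, B u = 0 := by
    intro u hu
    obtain ⟨c, rfl⟩ := Submodule.mem_span_singleton.1 hu
    rw [map_smul, hBv, smul_zero]
  have hWY : ∀ u ∈ W, ∀ j, u j ∈ Y := by
    intro u hu j
    obtain ⟨c, rfl⟩ := Submodule.mem_span_singleton.1 hu
    exact Y.smul_mem c (Submodule.subset_span ⟨j, rfl⟩)
  have hYst : ∀ (r : R) (y : M), y ∈ Y → r • y ∈ Y := by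
    intro r y hy
    induction hy using Submodule.span_induction with
    | mem x hx =>
      obtain ⟨j, rfl⟩ := hx
      rw [← map_smul]
      exact Submodule.subset_span ⟨_, rfl⟩
    | zero => rw [smul_zero]; exact Y.zero_mem
    | add x y _ _ hx hy => rw [smul_add]; exact Y.add_mem hx hy
    | smul c x _ hx =>
      rw [smul_comm]
      exact Y.smul_mem c hx
  have hWart : ¬ IsArtinian Rᵐᵒᵖ W := by
    intro hart
    have : Nontrivial W := by
      refine ⟨⟨⟨v, Submodule.mem_span_singleton_self v⟩, 0, fun h => hvne ?_⟩⟩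
      exact congrArg Subtype.val h
    obtain ⟨u, hu0, hu⟩ := exists_socle (T := Rᵐᵒᵖ) (V := W)
    apply hu0
    apply Subtype.ext
    ext j' k
    change (u : J R →ₗ[R] M) j' k = 0
    apply h2
    intro j hj
    have h3 := hu (op j) (mem_J_op.2 (by simpa using hj))
    have h4 := congrArg Subtype.val h3
    have h5 := congrFun (LinearMap.congr_fun h4 j') k
    exact h5
  let S : SerreClass Rᵐᵒᵖ :=
    { mem := fun M _ _ => IsArtinian Rᵐᵒᵖ M
      of_inj := fun g hg h => by
        have := h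
        exact isArtinian_of_injective g hg
      of_surj := fun g hg h => by
        have := h
        exact isArtinian_of_surjective _ g hg
      ext := fun N h1 h2 => by
        have := h1
        have := h2
        exact isArtinian_of_range_eq_ker N.subtype N.mkQ (by simp)
      zero := fun M _ _ _ => inferInstance }
  have hWn : IsNoetherian Rᵐᵒᵖ W := by
    refine isNoetherian_of_surjective (M := Rᵐᵒᵖ)
      ((LinearMap.toSpanSingleton Rᵐᵒᵖ (J R →ₗ[R] M) v).codRestrict W (fun c =>
        Submodule.smul_mem _ c (Submodule.mem_span_singleton_self v))) ?_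
    rw [LinearMap.range_eq_top]
    rintro ⟨u, hu⟩
    obtain ⟨c, hc⟩ := Submodule.mem_span_singleton.1 hu
    exact ⟨c, Subtype.ext hc⟩
  obtain ⟨g, hg0, hgW0, hgWt, -⟩ := exists_lengthFn S W hWart
  have hYfg : Y.FG := IsNoetherian.noetherian Y
  have hgY : g.f Y ≠ ⊤ := by
    obtain ⟨s, hs, hspan⟩ := (Submodule.fg_span_iff_fg_span_finset_subset _).1 hYfg
    have hsY : ∀ i : Fin s.card, ((s.equivFin.symm i : M)) ∈ Y := fun i =>
      Submodule.subset_span (hs (s.equivFin.symm i).2)
    let x : Fin s.card → Y := fun i => ⟨(s.equivFin.symm i : M), hsY i⟩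
    have hx : Submodule.span Rᵐᵒᵖ (Set.range x) = ⊤ := by
      rw [eq_top_iff]
      rintro ⟨y, hy⟩ -
      have h3 : y ∈ Submodule.span Rᵐᵒᵖ (s : Set M) := by
        rw [← hspan]; exact hy
      have h4 : Submodule.map Y.subtype (Submodule.span Rᵐᵒᵖ (Set.range x)) =
          Submodule.span Rᵐᵒᵖ (s : Set M) := by
        rw [Submodule.map_span]
        congr 1
        ext z
        constructor
        · rintro ⟨_, ⟨i, rfl⟩, rfl⟩
          exact (s.equivFin.symm i).2
        · intro hz
          exact ⟨x (s.equivFin ⟨z, hz⟩), ⟨_, rfl⟩, by simp [x]⟩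
      rw [← h4] at h3
      obtain ⟨z, hz, hzy⟩ := h3
      have : z = ⟨y, hy⟩ := Subtype.ext hzy
      rw [← this]
      exact hz
    refine g.ne_top_of_span x hx ?_
    intro i
    obtain ⟨j, hj⟩ := hs (s.equivFin.symm i).2
    let ev : W →ₗ[Rᵐᵒᵖ] Y :=
      { toFun := fun u => ⟨(u : J R →ₗ[R] M) j, hWY u u.2 j⟩
        map_add' := fun x y => rfl
        map_smul' := fun c x => rfl }
    have h3 : Submodule.span Rᵐᵒᵖ {x i} ≤ LinearMap.range ev := by
      rw [Submodule.span_singleton_le_iff_mem]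
      exact ⟨⟨v, Submodule.mem_span_singleton_self v⟩, Subtype.ext hj⟩
    have h5 : g.f (LinearMap.range ev) ≤ g.f W := by
      refine g.le_of_surj (M := W) (N := LinearMap.range ev) ev.rangeRestrict ?_
      rintro ⟨z, y, hy⟩
      exact ⟨y, Subtype.ext hy⟩
    exact ne_top_of_le_ne_top hgWt ((g.le_of_le h3).trans h5)
  let F : (W × Y) →ₗ[Rᵐᵒᵖ] homInto Y :=
    { toFun := fun p => ⟨(p.1 : J R →ₗ[R] M) + ρ p.2, fun j => by
        rw [LinearMap.add_apply]
        exact Y.add_mem (hWY _ p.1.2 j) (hYst _ _ p.2.2)⟩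
      map_add' := fun p q => by
        apply Subtype.ext
        change ((p.1 + q.1 : W) : J R →ₗ[R] M) + ρ ((p.2 + q.2 : Y) : M) = 
          ((p.1 : J R →ₗ[R] M) + ρ p.2) + ((q.1 : J R →ₗ[R] M) + ρ q.2)
        rw [Submodule.coe_add, Submodule.coe_add, map_add]
        abel
      map_smul' := fun c p => by
        apply Subtype.ext
        change ((c • p.1 : W) : J R →ₗ[R] M) + ρ ((c • p.2 : Y) : M) = 
          c • ((p.1 : J R →ₗ[R] M) + ρ p.2)
        rw [Submodule.coe_smul, Submodule.coe_smul, map_smul, smul_add] }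
  have hF : Function.Injective F := by
    rintro ⟨u, y⟩ ⟨u', y'⟩ hp
    have h3 : (u : J R →ₗ[R] M) + ρ y = (u' : J R →ₗ[R] M) + ρ y' := congrArg Subtype.val hp
    have h4 := congrArg B h3
    rw [map_add, hWB _ u.2, map_add, hWB _ u'.2, zero_add, zero_add, hBρ, hBρ] at h4
    have h5 : (y : M) = y' := by
      rw [← sub_eq_zero]
      apply hinj
      rw [Matrix.mulVec_sub, h4, sub_self]
    have h6 : (u : J R →ₗ[R] M) = u' := by
      rw [h5] at h3
      exact add_right_cancel h3
    exact Prod.ext (Subtype.ext h6) (Subtype.ext h5)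
  have h7 : g.f (W × Y) ≤ g.f Y :=
    (g.le_of_inj F hF).trans (E_ineq g (fun X _ _ hX => hg0 X hX) Y hYst)
  rw [g.prod] at h7
  apply hgW0
  have h8 : g.f W + g.f Y ≤ 0 + g.f Y := by rw [zero_add]; exact h7
  have h9 := (ENat.add_le_add_iff_right hgY).1 h8
  exact le_antisymm h9 zero_le

end GD4
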