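import Pool.Agent.Helper576_GD4.Loc
import Pool.Agent.Helper576_GD4.Length

set_option autoImplicit false

open MulOpposite

namespace GD4

section T5aHelpers

variable {R : Type} [Ring R] {Y : Type} [AddCommGroup Y] [Module Rᵐᵒᵖ Y]

theorem rAct_add_mat {m n : ℕ} (y : Fin m → Y) (A B : Matrix (Fin m) (Fin n) R) :
    rAct y (A + B) = rAct y A + rAct y B := by
  funext j
  simp [rAct, Matrix.add_apply, add_smul, Finset.sum_add_distrib]

theorem rAct_zero_mat {m n : ℕ} (y : Fin m → Y) :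
    rAct y (0 : Matrix (Fin m) (Fin n) R) = 0 := by
  funext j
  simp [rAct]

theorem rAct_neg_mat {m n : ℕ} (y : Fin m → Y) (A : Matrix (Fin m) (Fin n) R) :
    rAct y (-A) = - rAct y A := by
  funext j
  simp [rAct, Matrix.neg_apply, Finset.sum_neg_distrib]

theorem rAct_sub_mat {m n : ℕ} (y : Fin m → Y) (A B : Matrix (Fin m) (Fin n) R) :
    rAct y (A - B) = rAct y A - rAct y B := by
  rw [sub_eq_add_neg, rAct_add_mat, rAct_neg_mat, ← sub_eq_add_neg]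

theorem rAct_add_row {m n : ℕ} (y y' : Fin m → Y) (A : Matrix (Fin m) (Fin n) R) :
    rAct (y + y') A = rAct y A + rAct y' A := by
  funext j
  simp [rAct, smul_add, Finset.sum_add_distrib]

theorem rAct_zero_row {m n : ℕ} (A : Matrix (Fin m) (Fin n) R) :
    rAct (0 : Fin m → Y) A = 0 := by
  funext j
  simp [rAct]

theorem rAct_mul {m n p : ℕ} (y : Fin m → Y) (A : Matrix (Fin m) (Fin n) R)
    (B : Matrix (Fin n) (Fin p) R) : rAct y (A * B) = rAct (rAct y A) B := by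
  funext k
  simp only [rAct, Matrix.mul_apply, Finset.smul_sum, smul_smul]
  rw [Finset.sum_comm]
  refine Finset.sum_congr rfl fun i _ => ?_
  rw [← Finset.sum_smul]
  congr 1
  have := map_sum (MulOpposite.opAddEquiv : R ≃+ Rᵐᵒᵖ) (fun j => A i j * B j k) Finset.univ
  simp only [MulOpposite.opAddEquiv_apply, MulOpposite.op_mul] at this
  exact this

theorem rAct_smul [Module R Y] [SMulCommClass R Rᵐᵒᵖ Y] {m n : ℕ} (s : R) (y : Fin m → Y)
    (A : Matrix (Fin m) (Fin n) R) : s • rAct y A = rAct (s • y) A := by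
  funext j
  simp only [rAct, Pi.smul_apply, Finset.smul_sum]
  refine Finset.sum_congr rfl fun i _ => ?_
  rw [smul_comm]

theorem colLift {a b c : ℕ} (A : Matrix (Fin a) (Fin b) R) (B : Matrix (Fin b) (Fin c) R)
    (h : ∀ y : Fin b → R, Matrix.mulVec A y = 0 ↔ ∃ z, y = Matrix.mulVec B z) {n : ℕ}
    (Z : Matrix (Fin b) (Fin n) R) (hZ : A * Z = 0) :
    ∃ T : Matrix (Fin c) (Fin n) R, Z = B * T := by
  have h' : ∀ j : Fin n, ∃ z, (fun i => Z i j) = Matrix.mulVec B z := by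
    intro j
    refine (h _).1 ?_
    funext i
    have := congrFun (congrFun hZ i) j
    simpa [Matrix.mul_apply, Matrix.mulVec, dotProduct] using this
  choose T hT using h'
  refine ⟨Matrix.of fun i j => T j i, ?_⟩
  ext i j
  have := congrFun (hT j) i
  simpa [Matrix.mul_apply, Matrix.mulVec, dotProduct] using this

theorem rowLift {a b c : ℕ} (A : Matrix (Fin b) (Fin a) R) (B : Matrix (Fin c) (Fin b) R)
    (h : ∀ y : Fin b → R, Matrix.vecMul y A = 0 ↔ ∃ z, y = Matrix.vecMul z B) {n : ℕ}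
    (Z : Matrix (Fin n) (Fin b) R) (hZ : Z * A = 0) :
    ∃ T : Matrix (Fin n) (Fin c) R, Z = T * B := by
  have h' : ∀ i : Fin n, ∃ z, Z i = Matrix.vecMul z B := by
    intro i
    refine (h _).1 ?_
    funext j
    have := congrFun (congrFun hZ i) j
    simpa [Matrix.mul_apply, Matrix.vecMul, dotProduct] using this
  choose T hT using h'
  refine ⟨Matrix.of T, ?_⟩
  ext i j
  have := congrFun (hT i) j
  simpa [Matrix.mul_apply, Matrix.vecMul, dotProduct] using this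

theorem colZero {a b c : ℕ} (A : Matrix (Fin a) (Fin b) R) (B : Matrix (Fin b) (Fin c) R)
    (h : ∀ y : Fin b → R, Matrix.mulVec A y = 0 ↔ ∃ z, y = Matrix.mulVec B z) : A * B = 0 := by
  ext i j
  have := (h (fun i => B i j)).2 ⟨Pi.single j 1, by funext k; simp⟩
  have := congrFun this i
  simpa [Matrix.mul_apply, Matrix.mulVec, dotProduct] using this

theorem rowZero {a b c : ℕ} (A : Matrix (Fin b) (Fin a) R) (B : Matrix (Fin c) (Fin b) R)
    (h : ∀ y : Fin b → R, Matrix.vecMul y A = 0 ↔ ∃ z, y = Matrix.vecMul z B) : B * A = 0 := by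
  ext i j
  have := (h (B i)).2 ⟨Pi.single i 1, by funext k; simp⟩
  have := congrFun this j
  simpa [Matrix.mul_apply, Matrix.vecMul, dotProduct] using this

end T5aHelpers

/-- TARGET -/
theorem T5a {R : Type} [Ring R] [IsLocalRing R]
    {Y : Type} [AddCommGroup Y] [Module R Y] [Module Rᵐᵒᵖ Y] [SMulCommClass R Rᵐᵒᵖ Y]
    {b1 b2 b3 b4 : ℕ} (m : Fin b1 → R) (M2 : Matrix (Fin b2) (Fin b1) R)
    (M3 : Matrix (Fin b3) (Fin b2) R) (M4 : Matrix (Fin b4) (Fin b3) R)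
    (hm : ∀ x : R, x ∈ J R ↔ ∃ r : Fin b1 → R, x = ∑ i, r i * m i)
    (h1 : ∀ r : Fin b1 → R, ∑ i, r i * m i = 0 ↔ ∃ z, r = Matrix.vecMul z M2)
    (h2 : ∀ y : Fin b2 → R, Matrix.vecMul y M2 = 0 ↔ ∃ z, y = Matrix.vecMul z M3)
    (h3 : ∀ y : Fin b3 → R, Matrix.vecMul y M3 = 0 ↔ ∃ z, y = Matrix.vecMul z M4)
    {g0 g1 g2 g3 : ℕ} (e : Fin g0 → Y) (A1 : Matrix (Fin g0) (Fin g1) R)
    (A2 : Matrix (Fin g1) (Fin g2) R) (A3 : Matrix (Fin g2) (Fin g3) R)
    (k0 : ∀ y : Y, ∃ x : Fin g0 → R, y = ∑ i, op (x i) • e i)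
    (k1 : ∀ x : Fin g0 → R, ∑ i, op (x i) • e i = 0 ↔ ∃ z, x = Matrix.mulVec A1 z)
    (k2 : ∀ y : Fin g1 → R, Matrix.mulVec A1 y = 0 ↔ ∃ z, y = Matrix.mulVec A2 z)
    (k3 : ∀ y : Fin g2 → R, Matrix.mulVec A2 y = 0 ↔ ∃ z, y = Matrix.mulVec A3 z)
    (k4 : ∀ z : Fin g3 → R, Matrix.mulVec A3 z = 0 → z = 0) (kJ : ∀ i j, A3 i j ∈ J R) :
    ∃ Θ : AddSubgroup ((Fin g3 → R) × (Fin b3 → Y)),
      (∀ x, ∃ y, (x, y) ∈ Θ) ∧
      (∀ y : Fin b3 → Y, rAct y M3 = 0 → ∃ x, (x, y) ∈ Θ) ∧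
      (∀ x y, (x, y) ∈ Θ → rAct y M3 = 0) ∧
      (∀ x y, (x, y) ∈ Θ → ((∀ i, x i ∈ J R) ↔ ∃ z : Fin b4 → Y, y = rAct z M4)) ∧
      (∀ s : R, ∃ S : (Fin g3 → R) →ₗ[Rᵐᵒᵖ] (Fin g3 → R), ∀ x y, (x, y) ∈ Θ → (S x, s • y) ∈ Θ) := by
  -- matrix forms of the hypotheses
  have K0 : ∀ {n : ℕ} (y : Fin n → Y), ∃ Z : Matrix (Fin g0) (Fin n) R, y = rAct e Z := by
    intro n y
    choose Z hZ using fun j => k0 (y j)
    exact ⟨Matrix.of fun i j => Z j i, by funext j; simpa [rAct] using hZ j⟩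
  have K1 : ∀ {n : ℕ} (Z : Matrix (Fin g0) (Fin n) R), rAct e Z = 0 →
      ∃ T : Matrix (Fin g1) (Fin n) R, Z = A1 * T := by
    intro n Z hZ
    have h' : ∀ j : Fin n, ∃ z, (fun i => Z i j) = Matrix.mulVec A1 z := by
      intro j
      exact (k1 _).1 (congrFun hZ j)
    choose T hT using h'
    refine ⟨Matrix.of fun i j => T j i, ?_⟩
    ext i j
    have := congrFun (hT j) i
    simpa [Matrix.mul_apply, Matrix.mulVec, dotProduct] using this
  have eA1 : rAct e A1 = 0 := by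
    funext j
    have := (k1 (fun i => A1 i j)).2 ⟨Pi.single j 1, by funext k; simp⟩
    simpa [rAct] using this
  have A12 : A1 * A2 = 0 := colZero A1 A2 k2
  have A23 : A2 * A3 = 0 := colZero A2 A3 k3
  have M32 : M3 * M2 = 0 := rowZero M2 M3 h2
  have M43 : M4 * M3 = 0 := rowZero M3 M4 h3
  have K3' : ∀ (z : Fin g2 → R), Matrix.mulVec A2 z = 0 → ∃ w, z = Matrix.mulVec A3 w :=
    fun z hz => (k3 z).1 hz
  have H1 : ∀ {n : ℕ} (Z : Matrix (Fin n) (Fin b1) R), Matrix.mulVec Z m = 0 →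
      ∃ T : Matrix (Fin n) (Fin b2) R, Z = T * M2 := by
    intro n Z hZ
    have h' : ∀ i : Fin n, ∃ z, Z i = Matrix.vecMul z M2 := by
      intro i
      exact (h1 _).1 (congrFun hZ i)
    choose T hT using h'
    refine ⟨Matrix.of T, ?_⟩
    ext i j
    have := congrFun (hT i) j
    simpa [Matrix.mul_apply, Matrix.vecMul, dotProduct] using this
  have M2m : Matrix.mulVec M2 m = 0 := by
    funext i
    have := (h1 (M2 i)).2 ⟨Pi.single i 1, by funext k; simp⟩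
    simpa [Matrix.mulVec, dotProduct] using this
  have HM : ∀ {n : ℕ} (v : Fin n → R), (∀ i, v i ∈ J R) →
      ∃ w : Matrix (Fin n) (Fin b1) R, v = Matrix.mulVec w m := by
    intro n v hv
    choose w hw using fun i => (hm (v i)).1 (hv i)
    exact ⟨Matrix.of w, by funext i; simpa [Matrix.mulVec, dotProduct] using hw i⟩
  have HM' : ∀ {n : ℕ} (w : Matrix (Fin n) (Fin b1) R) (i : Fin n), Matrix.mulVec w m i ∈ J R := by
    intro n w i
    exact (hm _).2 ⟨w i, rfl⟩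
  let Θ : AddSubgroup ((Fin g3 → R) × (Fin b3 → Y)) :=
    { carrier := {p | ∃ (z1 : Matrix (Fin g2) (Fin b1) R) (z2 : Matrix (Fin g1) (Fin b2) R)
        (z3 : Matrix (Fin g0) (Fin b3) R), Matrix.mulVec A3 p.1 = Matrix.mulVec z1 m ∧
        A2 * z1 = z2 * M2 ∧ A1 * z2 = z3 * M3 ∧ p.2 = rAct e z3}
      add_mem' := by
        rintro ⟨v, y⟩ ⟨v', y'⟩ ⟨z1, z2, z3, e1, e2, e3, e4⟩ ⟨w1, w2, w3, f1, f2, f3, f4⟩
        refine ⟨z1 + w1, z2 + w2, z3 + w3, ?_, ?_, ?_, ?_⟩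
        · simp only [Prod.mk_add_mk] at *
          rw [Matrix.mulVec_add, e1, f1, Matrix.add_mulVec]
        · rw [Matrix.mul_add, e2, f2, Matrix.add_mul]
        · rw [Matrix.mul_add, e3, f3, Matrix.add_mul]
        · simp only [Prod.mk_add_mk] at *
          rw [e4, f4, rAct_add_mat]
      zero_mem' := by
        refine ⟨0, 0, 0, ?_, ?_, ?_, ?_⟩
        · simp
        · simp
        · simp
        · rw [rAct_zero_mat]; rfl
      neg_mem' := by
        rintro ⟨v, y⟩ ⟨z1, z2, z3, e1, e2, e3, e4⟩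
        refine ⟨-z1, -z2, -z3, ?_, ?_, ?_, ?_⟩
        · simp only [Prod.neg_mk] at *
          rw [Matrix.mulVec_neg, e1, Matrix.neg_mulVec]
        · rw [Matrix.mul_neg, e2, Matrix.neg_mul]
        · rw [Matrix.mul_neg, e3, Matrix.neg_mul]
        · simp only [Prod.neg_mk] at *
          rw [e4, rAct_neg_mat] }
  have memΘ : ∀ (v : Fin g3 → R) (y : Fin b3 → Y), (v, y) ∈ Θ ↔
      ∃ (z1 : Matrix (Fin g2) (Fin b1) R) (z2 : Matrix (Fin g1) (Fin b2) R)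
        (z3 : Matrix (Fin g0) (Fin b3) R), Matrix.mulVec A3 v = Matrix.mulVec z1 m ∧
        A2 * z1 = z2 * M2 ∧ A1 * z2 = z3 * M3 ∧ y = rAct e z3 := fun v y => Iff.rfl
  refine ⟨Θ, ?_, ?_, ?_, ?_, ?_⟩
  · -- (ha)
    intro v
    have hJ : ∀ i, Matrix.mulVec A3 v i ∈ J R := by
      intro i
      have : Matrix.mulVec A3 v i = ∑ j, A3 i j * v j := rfl
      rw [this]
      exact Submodule.sum_mem _ fun j _ => Ideal.IsTwoSided.mul_mem_of_left _ (kJ i j)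
    obtain ⟨z1, hz1⟩ := HM _ hJ
    obtain ⟨z2, hz2⟩ := H1 (A2 * z1) (by
      rw [← Matrix.mulVec_mulVec, ← hz1, Matrix.mulVec_mulVec, A23, Matrix.zero_mulVec])
    obtain ⟨z3, hz3⟩ := rowLift M2 M3 h2 (A1 * z2) (by
      rw [Matrix.mul_assoc, ← hz2, ← Matrix.mul_assoc, A12, Matrix.zero_mul])
    exact ⟨rAct e z3, (memΘ _ _).2 ⟨z1, z2, z3, hz1, hz2, hz3, rfl⟩⟩
  · -- (hb)
    intro y hy
    obtain ⟨z3, rfl⟩ := K0 y
    rw [← rAct_mul] at hy
    obtain ⟨z2, hz2⟩ := K1 _ hy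
    obtain ⟨z1, hz1⟩ := colLift A1 A2 k2 (z2 * M2) (by
      rw [← Matrix.mul_assoc, ← hz2, Matrix.mul_assoc, M32, Matrix.mul_zero])
    obtain ⟨v, hv⟩ := K3' (Matrix.mulVec z1 m) (by
      rw [Matrix.mulVec_mulVec, ← hz1, ← Matrix.mulVec_mulVec, M2m, Matrix.mulVec_zero])
    exact ⟨v, (memΘ _ _).2 ⟨z1, z2, z3, hv.symm, hz1.symm, hz2.symm, rfl⟩⟩
  · -- (hb')
    intro v y hvy
    obtain ⟨z1, z2, z3, e1, e2, e3, rfl⟩ := (memΘ _ _).1 hvy
    rw [← rAct_mul, ← e3, rAct_mul, eA1, rAct_zero_row]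
  · -- (hc)
    intro v y hvy
    obtain ⟨z1, z2, z3, e1, e2, e3, rfl⟩ := (memΘ _ _).1 hvy
    constructor
    · intro hv
      obtain ⟨w, rfl⟩ := HM v hv
      obtain ⟨u1, hu1⟩ := H1 (z1 - A3 * w) (by
        rw [Matrix.sub_mulVec, ← e1, Matrix.mulVec_mulVec, sub_self])
      obtain ⟨u2, hu2⟩ := rowLift M2 M3 h2 (z2 - A2 * u1) (by
        rw [Matrix.sub_mul, ← e2, Matrix.mul_assoc, ← hu1, Matrix.mul_sub, ← Matrix.mul_assoc,
          A23, Matrix.zero_mul, sub_zero, sub_self])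
      obtain ⟨u3, hu3⟩ := rowLift M3 M4 h3 (z3 - A1 * u2) (by
        rw [Matrix.sub_mul, ← e3, Matrix.mul_assoc, ← hu2, Matrix.mul_sub, ← Matrix.mul_assoc,
          A12, Matrix.zero_mul, sub_zero, sub_self])
      refine ⟨rAct e u3, ?_⟩
      rw [← rAct_mul, ← hu3, rAct_sub_mat, rAct_mul e A1 u2, eA1, rAct_zero_row, sub_zero]
    · rintro ⟨z, hz⟩
      obtain ⟨U, rfl⟩ := K0 z
      obtain ⟨T0, hT0⟩ := K1 (z3 - U * M4) (by
        rw [rAct_sub_mat, hz, ← rAct_mul, sub_self])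
      obtain ⟨T1, hT1⟩ := colLift A1 A2 k2 (z2 - T0 * M3) (by
        rw [Matrix.mul_sub, e3, ← Matrix.mul_assoc, ← hT0, Matrix.sub_mul, Matrix.mul_assoc,
          M43, Matrix.mul_zero, sub_zero, sub_self])
      obtain ⟨T2, hT2⟩ := colLift A2 A3 k3 (z1 - T1 * M2) (by
        rw [Matrix.mul_sub, e2, ← Matrix.mul_assoc, ← hT1, Matrix.sub_mul, Matrix.mul_assoc,
          M32, Matrix.mul_zero, sub_zero, sub_self])
      have hv : Matrix.mulVec A3 (v - Matrix.mulVec T2 m) = 0 := by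
        rw [Matrix.mulVec_sub, e1, Matrix.mulVec_mulVec, ← hT2, Matrix.sub_mulVec,
          ← Matrix.mulVec_mulVec m T1 M2, M2m, Matrix.mulVec_zero, sub_zero, sub_self]
      have hv' : v = Matrix.mulVec T2 m := sub_eq_zero.1 (k4 _ hv)
      intro i
      rw [hv']
      exact HM' T2 i
  · -- (hd)
    intro s
    obtain ⟨S0, hS0⟩ := K0 (s • e)
    obtain ⟨S1, hS1⟩ := K1 (S0 * A1) (by
      rw [rAct_mul, ← hS0, ← rAct_smul, eA1, smul_zero])
    obtain ⟨S2, hS2⟩ := colLift A1 A2 k2 (S1 * A2) (by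
      rw [← Matrix.mul_assoc, ← hS1, Matrix.mul_assoc, A12, Matrix.mul_zero])
    obtain ⟨S3, hS3⟩ := colLift A2 A3 k3 (S2 * A3) (by
      rw [← Matrix.mul_assoc, ← hS2, Matrix.mul_assoc, A23, Matrix.mul_zero])
    refine ⟨{ toFun := Matrix.mulVec S3, map_add' := fun x y => Matrix.mulVec_add _ _ _,
              map_smul' := fun c x => ?_ }, ?_⟩
    · funext i
      simp [Matrix.mulVec, dotProduct, Finset.sum_mul, mul_assoc]
    · intro v y hvy
      obtain ⟨z1, z2, z3, e1, e2, e3, rfl⟩ := (memΘ _ _).1 hvy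
      refine (memΘ _ _).2 ⟨S2 * z1, S1 * z2, S0 * z3, ?_, ?_, ?_, ?_⟩
      · show Matrix.mulVec A3 (Matrix.mulVec S3 v) = _
        rw [Matrix.mulVec_mulVec, ← hS3, ← Matrix.mulVec_mulVec, e1, Matrix.mulVec_mulVec]
      · rw [← Matrix.mul_assoc, ← hS2, Matrix.mul_assoc, e2, Matrix.mul_assoc]
      · rw [← Matrix.mul_assoc, ← hS1, Matrix.mul_assoc, e3, Matrix.mul_assoc]
      · rw [rAct_mul, ← hS0, rAct_smul]

end GD4
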