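import Pool.Agent.Helper576_GD4.Lenagan
import Pool.Agent.Helper576_GD4.Length
import Pool.Agent.Helper576_GD4.T5a

set_option autoImplicit false

open MulOpposite

namespace GD4

/-- `rAct` as a left linear map -/
def T5_L {R : Type} [Ring R] {Y : Type} [AddCommGroup Y] [Module R Y] [Module Rᵐᵒᵖ Y]
    [SMulCommClass R Rᵐᵒᵖ Y] {m n : ℕ} (A : Matrix (Fin m) (Fin n) R) :
    (Fin m → Y) →ₗ[R] (Fin n → Y) where
  toFun y := rAct y A
  map_add' y z := by
    ext j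
    simp [rAct, Finset.sum_add_distrib]
  map_smul' s y := by
    ext j
    simp only [rAct, Pi.smul_apply, RingHom.id_apply, Finset.smul_sum]
    exact Finset.sum_congr rfl fun i _ => (smul_comm s (op (A i j)) (y i)).symm

theorem T5_L_apply {R : Type} [Ring R] {Y : Type} [AddCommGroup Y] [Module R Y] [Module Rᵐᵒᵖ Y]
    [SMulCommClass R Rᵐᵒᵖ Y] {m n : ℕ} (A : Matrix (Fin m) (Fin n) R) (y : Fin m → Y) :
    T5_L A y = rAct y A := rfl

theorem T5_rAct_rAct {R : Type} [Ring R] {Y : Type} [AddCommGroup Y] [Module Rᵐᵒᵖ Y]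
    {m n k : ℕ} (z : Fin m → Y) (A : Matrix (Fin m) (Fin n) R) (B : Matrix (Fin n) (Fin k) R) :
    rAct (rAct z A) B = rAct z (A * B) := by
  ext j
  simp only [rAct, Finset.smul_sum, Matrix.mul_apply, Finset.op_sum, Finset.sum_smul]
  rw [Finset.sum_comm]
  refine Finset.sum_congr rfl fun i _ => Finset.sum_congr rfl fun l _ => ?_
  rw [smul_smul, ← op_mul]

/-- the submodule of the rows with entries in the maximal ideal -/
def T5_X0 (R : Type) [Ring R] [IsLocalRing R] (n : ℕ) : Submodule Rᵐᵒᵖ (Fin n → R) where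
  carrier := {x | ∀ i, x i ∈ J R}
  add_mem' hx hy i := (J R).add_mem (hx i) (hy i)
  zero_mem' _ := (J R).zero_mem
  smul_mem' c x hx i := by
    show c • x i ∈ J R
    rw [MulOpposite.smul_eq_mul_unop]
    exact Ideal.mul_mem_right _ _ (hx i)

theorem T5_artinian (R : Type) [Ring R] [IsLocalRing R] (n : ℕ) :
    IsArtinian Rᵐᵒᵖ ((Fin n → R) ⧸ T5_X0 R n) := by
  have h1 : Module.Finite Rᵐᵒᵖ R := by
    refine Module.Finite.of_surjective (LinearMap.toSpanSingleton Rᵐᵒᵖ R 1) ?_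
    intro r
    exact ⟨op r, by simp⟩
  refine artinian_of_killed ?_
  intro j hj v
  obtain ⟨x, rfl⟩ := (T5_X0 R n).mkQ_surjective v
  rw [← map_smul, Submodule.mkQ_apply, Submodule.Quotient.mk_eq_zero]
  intro i
  show j • x i ∈ J R
  rw [MulOpposite.smul_eq_mul_unop]
  exact (J R).mul_mem_left _ (mem_J_op.1 hj)

/-- TARGET -/
theorem T5 {R : Type} [Ring R] [IsLocalRing R] [IsNoetherianRing R] [IsNoetherianRing Rᵐᵒᵖ]
    {Y : Type} [AddCommGroup Y] [Module R Y] [Module Rᵐᵒᵖ Y] [SMulCommClass R Rᵐᵒᵖ Y]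
    [IsNoetherian R Y]
    (hY4 : ∀ y : Y, (∀ j ∈ J R, j • y = 0) → y = 0)
    (hY5 : ∀ h : J R →ₗ[R] Y, ∃ y, ∀ j : J R, h j = (j : R) • y)
    (θ : Y →ₗ[Rᵐᵒᵖ] R) (hθ : Function.Injective θ)
    {b1 b2 b3 b4 : ℕ} (m : Fin b1 → R) (M2 : Matrix (Fin b2) (Fin b1) R)
    (M3 : Matrix (Fin b3) (Fin b2) R) (M4 : Matrix (Fin b4) (Fin b3) R)
    (hm : ∀ x : R, x ∈ J R ↔ ∃ r : Fin b1 → R, x = ∑ i, r i * m i)
    (h1 : ∀ r : Fin b1 → R, ∑ i, r i * m i = 0 ↔ ∃ z, r = Matrix.vecMul z M2)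
    (h2 : ∀ y : Fin b2 → R, Matrix.vecMul y M2 = 0 ↔ ∃ z, y = Matrix.vecMul z M3)
    (h3 : ∀ y : Fin b3 → R, Matrix.vecMul y M3 = 0 ↔ ∃ z, y = Matrix.vecMul z M4)
    (h4 : ∀ z : Fin b4 → R, Matrix.vecMul z M4 = 0 → z = 0)
    {g0 g1 g2 g3 : ℕ} (e : Fin g0 → Y) (A1 : Matrix (Fin g0) (Fin g1) R)
    (A2 : Matrix (Fin g1) (Fin g2) R) (A3 : Matrix (Fin g2) (Fin g3) R)
    (k0 : ∀ y : Y, ∃ x : Fin g0 → R, y = ∑ i, op (x i) • e i)
    (k1 : ∀ x : Fin g0 → R, ∑ i, op (x i) • e i = 0 ↔ ∃ z, x = Matrix.mulVec A1 z)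
    (k2 : ∀ y : Fin g1 → R, Matrix.mulVec A1 y = 0 ↔ ∃ z, y = Matrix.mulVec A2 z)
    (k3 : ∀ y : Fin g2 → R, Matrix.mulVec A2 y = 0 ↔ ∃ z, y = Matrix.mulVec A3 z)
    (k4 : ∀ z : Fin g3 → R, Matrix.mulVec A3 z = 0 → z = 0) (kJ : ∀ i j, A3 i j ∈ J R) :
    g3 = 0 := by
  obtain ⟨Θ, ha, hb, hb', hc, hd⟩ := T5a (Y := Y) m M2 M3 M4 hm h1 h2 h3 e A1 A2 A3 k0 k1 k2 k3 k4 kJ
  set V1 : Submodule R (Fin b3 → Y) := LinearMap.ker (T5_L M3) with hV1
  set V0 : Submodule R (Fin b3 → Y) := LinearMap.range (T5_L M4) with hV0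
  have mem1 : ∀ y, y ∈ V1 ↔ rAct y M3 = 0 := fun y => LinearMap.mem_ker
  have mem0 : ∀ y, y ∈ V0 ↔ ∃ z, y = rAct z M4 := by
    intro y
    rw [hV0, LinearMap.mem_range]
    exact ⟨fun ⟨z, hz⟩ => ⟨z, hz.symm⟩, fun ⟨z, hz⟩ => ⟨z, hz.symm⟩⟩
  have hM : M4 * M3 = 0 := by
    ext k j
    have h5 := (h3 (M4 k)).2 ⟨Pi.single k 1, by
      ext i
      simp [Matrix.vecMul, dotProduct, Pi.single_apply]⟩
    have h6 := congrFun h5 j
    simpa [Matrix.vecMul, dotProduct, Matrix.mul_apply] using h6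
  have hle : V0 ≤ V1 := by
    intro y hy
    rw [mem0] at hy
    obtain ⟨z, rfl⟩ := hy
    rw [mem1, T5_rAct_rAct, hM]
    ext j
    simp [rAct]
  have hinj : Function.Injective (T5_L (Y := Y) M4) := by
    rw [← LinearMap.ker_eq_bot, LinearMap.ker_eq_bot']
    intro z hz
    have h5 : Matrix.vecMul (fun i => θ (z i)) M4 = 0 := by
      ext j
      have h6 : θ (rAct z M4 j) = 0 := by
        rw [T5_L_apply] at hz
        rw [hz]
        simp
      rw [rAct, map_sum] at h6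
      simpa [Matrix.vecMul, dotProduct, map_smul] using h6
    have h7 := h4 _ h5
    ext i
    apply hθ
    have := congrFun h7 i
    simpa using this
  have hV : V0 = V1 := by
    by_contra hne
    have hlt : V0 < V1 := lt_of_le_of_ne hle hne
    have := T5_artinian R g3
    obtain ⟨y, hy1, hy0, hJ⟩ := lenagan (A := R) (B := Rᵐᵒᵖ) V0 V1 hlt (T5_X0 R g3) Θ ha
      (fun y hy => hb y ((mem1 y).1 hy)) (fun x y h => (mem1 y).2 (hb' x y h))
      (fun x y h => (hc x y h).trans (mem0 y).symm) hd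
    apply hy0
    let L' := LinearEquiv.ofInjective (T5_L (Y := Y) M4) hinj
    let k : J R →ₗ[R] LinearMap.range (T5_L (Y := Y) M4) :=
      { toFun := fun j => ⟨(j : R) • y, hJ j j.2⟩
        map_add' := fun a b => by
          apply Subtype.ext
          simp [add_smul]
        map_smul' := fun a b => by
          apply Subtype.ext
          simp [mul_smul] }
    let h : J R →ₗ[R] (Fin b4 → Y) := L'.symm.toLinearMap ∘ₗ k
    have hh : ∀ j : J R, T5_L M4 (h j) = (j : R) • y := by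
      intro j
      have h8 : L' (L'.symm (k j)) = k j := L'.apply_symm_apply _
      exact congrArg Subtype.val h8
    have h9 : ∀ i, ∃ y', ∀ j : J R, h j i = (j : R) • y' := fun i =>
      hY5 (LinearMap.proj i ∘ₗ h)
    choose y' hy' using h9
    have h10 : y - T5_L M4 y' = 0 := by
      ext i
      apply hY4
      intro j hj
      have h11 : h ⟨j, hj⟩ = j • y' := by
        ext i
        exact hy' i ⟨j, hj⟩
      have h12 := hh ⟨j, hj⟩
      rw [h11, map_smul] at h12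
      have h13 := congrFun h12 i
      simp only [Pi.sub_apply, smul_sub]
      simp only [Pi.smul_apply] at h13
      rw [h13, sub_self]
    rw [mem0]
    exact ⟨y', by rw [← T5_L_apply]; exact sub_eq_zero.1 h10⟩
  by_contra hg
  obtain ⟨y, hy⟩ := ha (fun _ => 1)
  have h14 : y ∈ V0 := by
    rw [hV, mem1]
    exact hb' _ _ hy
  have h15 := (hc _ _ hy).2 ((mem0 y).1 h14) ⟨0, Nat.pos_of_ne_zero hg⟩
  exact h15 isUnit_one

end GD4
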