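import Pool.Agent.Helper576_GD4.Loc
import Pool.Agent.Helper576_GD4.Length

set_option autoImplicit false

open MulOpposite

namespace GD4

/-- TARGET -/
theorem exists_X {R : Type} [Ring R] [IsNoetherianRing R] (N : Ideal R) [N.IsTwoSided]
    (hN0 : N ≠ ⊥) (hprime : ∀ a b : R, a * b ∈ N → a ∈ N ∨ b ∈ N) (b0 : R) (hb0 : b0 ∉ N)
    (hb : ∀ x ∈ N, x * b0 = 0) :
    ∃ (P X : Ideal R), P.IsTwoSided ∧ X.IsTwoSided ∧ X ≤ N ∧ X ≠ ⊥ ∧
      (∀ x, x ∈ X ↔ ∀ p ∈ P, x * p = 0) ∧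
      (∀ Z : Ideal R, Z.IsTwoSided → Z ≤ X → Z ≠ ⊥ → ∀ r : R, (∀ z ∈ Z, z * r = 0) → r ∈ P) := by
  classical
  let rann : (Z : Ideal R) → Z.IsTwoSided → Ideal R := fun Z hZ =>
    { carrier := {r | ∀ z ∈ Z, z * r = 0}
      add_mem' := by
        intro a b ha hb z hz
        rw [mul_add, ha z hz, hb z hz, add_zero]
      zero_mem' := fun z _ => mul_zero z
      smul_mem' := by
        intro c x hx z hz
        rw [smul_eq_mul, ← mul_assoc]
        exact hx _ (hZ.mul_mem_of_left c hz) }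
  have hrann : ∀ (Z : Ideal R) (hZ : Z.IsTwoSided) (r : R), r ∈ rann Z hZ ↔ ∀ z ∈ Z, z * r = 0 :=
    fun Z hZ r => Iff.rfl
  obtain ⟨P, ⟨Z0, hZ0t, hZ0N, hZ0ne, rfl⟩, hmax⟩ := WellFounded.has_min
    (wellFounded_gt (α := Ideal R))
    {P | ∃ (Z : Ideal R) (hZ : Z.IsTwoSided), Z ≤ N ∧ Z ≠ ⊥ ∧ P = rann Z hZ}
    ⟨rann N inferInstance, N, inferInstance, le_rfl, hN0, rfl⟩
  have hPt : (rann Z0 hZ0t).IsTwoSided := by
    refine ⟨fun {a} b ha => ?_⟩
    intro z hz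
    have h1 : z * a = 0 := ha z hz
    rw [← mul_assoc, h1, zero_mul]
  let X : Ideal R :=
    { carrier := {x | ∀ p ∈ rann Z0 hZ0t, x * p = 0}
      add_mem' := by
        intro a b ha hb p hp
        rw [add_mul, ha p hp, hb p hp, add_zero]
      zero_mem' := fun p _ => zero_mul p
      smul_mem' := by
        intro c x hx p hp
        rw [smul_eq_mul, mul_assoc, hx p hp, mul_zero] }
  have hXmem : ∀ x, x ∈ X ↔ ∀ p ∈ rann Z0 hZ0t, x * p = 0 := fun x => Iff.rfl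
  have hXt : X.IsTwoSided := by
    refine ⟨fun {a} b ha => ?_⟩
    intro p hp
    rw [mul_assoc]
    exact ha _ ((rann Z0 hZ0t).mul_mem_left b hp)
  have hb0P : b0 ∈ rann Z0 hZ0t := fun z hz => hb z (hZ0N hz)
  have hXN : X ≤ N := by
    intro x hx
    have h1 : x * b0 = 0 := hx b0 hb0P
    have h2 : x * b0 ∈ N := by rw [h1]; exact N.zero_mem
    exact (hprime x b0 h2).resolve_right hb0
  have hZX : Z0 ≤ X := fun z hz p hp => hp z hz
  have hX0 : X ≠ ⊥ := by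
    intro h
    apply hZ0ne
    rw [← le_bot_iff, ← h]
    exact hZX
  refine ⟨rann Z0 hZ0t, X, hPt, hXt, hXN, hX0, hXmem, ?_⟩
  intro Z hZt hZX' hZne r hr
  have hle : rann Z0 hZ0t ≤ rann Z hZt := fun p hp z hz => hZX' hz p hp
  have hnlt := hmax (rann Z hZt) ⟨Z, hZt, hZX'.trans hXN, hZne, rfl⟩
  rcases eq_or_lt_of_le hle with h | h
  · rw [h]; exact hr
  · exact absurd h hnlt

end GD4
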