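import Pool.Agent.Helper576_GD4.OreQuot

set_option autoImplicit false

open MulOpposite

namespace GD4

/-- the submodule of the elements `v` with `J • v` contained in `L` -/
def colJ {R : Type} [Ring R] [IsLocalRing R] {V : Type} [AddCommGroup V] [Module R V]
    (L : Submodule R V) : Submodule R V where
  carrier := {v | ∀ j ∈ J R, j • v ∈ L}
  add_mem' := by
    intro a b ha hb j hj
    rw [smul_add]
    exact L.add_mem (ha j hj) (hb j hj)
  zero_mem' := by
    intro j _
    rw [smul_zero]; exact L.zero_mem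
  smul_mem' := by
    intro c x hx j hj
    rw [← mul_smul]
    exact hx _ (Ideal.IsTwoSided.mul_mem_of_left c hj)

theorem mem_colJ {R : Type} [Ring R] [IsLocalRing R] {V : Type} [AddCommGroup V] [Module R V]
    {L : Submodule R V} {v : V} : v ∈ colJ L ↔ ∀ j ∈ J R, j • v ∈ L := Iff.rfl

theorem le_colJ {R : Type} [Ring R] [IsLocalRing R] {V : Type} [AddCommGroup V] [Module R V]
    (L : Submodule R V) : L ≤ colJ L := fun _ hv j _ => L.smul_mem j hv

/-- the iterated construction -/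
def Lam {R : Type} [Ring R] [IsLocalRing R] {V : Type} [AddCommGroup V] [Module R V]
    (v0 : V) : ℕ → Submodule R V
  | 0 => Submodule.span R {v0}
  | (n + 1) => colJ (Lam v0 n)

theorem Lam_mono {R : Type} [Ring R] [IsLocalRing R] {V : Type} [AddCommGroup V] [Module R V]
    (v0 : V) : Monotone (Lam (R := R) v0) := monotone_nat_of_le_succ fun n => le_colJ _

theorem isNoeth_op {R : Type} [Ring R] [IsNoetherianRing Rᵐᵒᵖ] : IsNoetherian Rᵐᵒᵖ R := by
  let f : R →ₗ[Rᵐᵒᵖ] Rᵐᵒᵖ :=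
    { toFun := op
      map_add' := fun x y => rfl
      map_smul' := fun s x => rfl }
  exact isNoetherian_of_injective f op_injective

theorem exists_Y_aux {R : Type} [Ring R] [IsLocalRing R] [IsNoetherianRing R]
    [IsNoetherianRing Rᵐᵒᵖ]
    (N : Ideal R) (hNtop : N ≠ ⊤)
    (hprime : ∀ a b : R, a * b ∈ N → a ∈ N ∨ b ∈ N) (hJN : ¬ J R ≤ N)
    (c0 b0 : R) (hc0 : c0 ∉ N) (hc : ∀ x ∈ N, c0 * x = 0) (hb0 : b0 ∉ N)
    (hb : ∀ x ∈ N, x * b0 = 0)
    (hsoc : ∀ x : R, (∀ j ∈ J R, j * x = 0) → x = 0)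
    (hHom : ∀ w : J R →ₗ[R] R, ∃ r : R, ∀ j : J R, w j = (j : R) * r)
    (Q : Type) [DivisionRing Q] (ψ : R →+* Q) (hψ : ∀ r, ψ r = 0 ↔ r ∈ N)
    (hψ2 : ∀ q : Q, ∃ s a : R, s ∉ N ∧ ψ s * q = ψ a) :
    ∃ (Y : Type) (_ : AddCommGroup Y) (_ : Module R Y) (_ : Module Rᵐᵒᵖ Y)
      (_ : SMulCommClass R Rᵐᵒᵖ Y) (o : Y),
      IsNoetherian R Y ∧ IsNoetherian Rᵐᵒᵖ Y ∧ (∀ r : R, r • o = op r • o) ∧
      (∀ r : R, r • o = 0 ↔ r ∈ N) ∧ IsArtinian R (Y ⧸ Submodule.span R {o}) ∧
      (∀ y : Y, (∀ j ∈ J R, j • y = 0) → y = 0) ∧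
      (∀ h : J R →ₗ[R] Y, ∃ y, ∀ j : J R, h j = (j : R) • y) ∧
      (∃ θ : Y →ₗ[Rᵐᵒᵖ] R, Function.Injective θ) := by
  letI mQ : Module R Q := Module.compHom Q ψ
  have sQ : ∀ (r : R) (q : Q), r • q = ψ r * q := fun _ _ => rfl
  obtain ⟨j0, hj0, hj0N⟩ := Set.not_subset.1 hJN
  have hj0' : j0 ∈ J R := hj0
  have hψj0 : ψ j0 ≠ 0 := fun h => hj0N ((hψ j0).1 h)
  have hψc0 : ψ c0 ≠ 0 := fun h => hc0 ((hψ c0).1 h)
  -- the modules Λ n
  set Λ : ℕ → Submodule R (Q × R) := Lam ((1, b0) : Q × R) with hΛ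
  have hΛ0 : ∀ z, z ∈ Λ 0 ↔ ∃ a : R, a • ((1, b0) : Q × R) = z := fun z =>
    Submodule.mem_span_singleton
  have hΛs : ∀ n z, z ∈ Λ (n + 1) ↔ ∀ j ∈ J R, j • z ∈ Λ n := fun n z => Iff.rfl
  have hmono : Monotone Λ := Lam_mono _
  have ha : ∀ n (r : R), ((0, r) : Q × R) ∈ Λ n → r = 0 := by
    intro n
    induction n with
    | zero =>
      intro r hr
      obtain ⟨a, ha⟩ := (hΛ0 _).1 hr
      have h1 : ψ a * 1 = 0 := congrArg Prod.fst ha
      have h2 : a * b0 = r := congrArg Prod.snd ha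
      rw [mul_one] at h1
      rw [← h2]
      exact hb a ((hψ a).1 h1)
    | succ n ih =>
      intro r hr
      refine hsoc r fun j hj => ?_
      have h1 := (hΛs n _).1 hr j hj
      have h2 : j • ((0, r) : Q × R) = (0, j * r) := by
        ext
        · show j • (0 : Q) = 0
          rw [smul_zero]
        · rfl
      rw [h2] at h1
      exact ih _ h1
  have hbb : ∀ n (q : Q), ((q, 0) : Q × R) ∈ Λ n → q = 0 := by
    intro n
    induction n with
    | zero =>
      intro q hq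
      obtain ⟨a, ha⟩ := (hΛ0 _).1 hq
      have h1 : ψ a * 1 = q := congrArg Prod.fst ha
      have h2 : a * b0 = 0 := congrArg Prod.snd ha
      have h3 : a ∈ N := by
        rcases hprime a b0 (by rw [h2]; exact N.zero_mem) with h | h
        · exact h
        · exact absurd h hb0
      rw [← h1, (hψ a).2 h3, zero_mul]
    | succ n ih =>
      intro q hq
      have h1 := (hΛs n _).1 hq j0 hj0'
      have h2 : j0 • ((q, 0) : Q × R) = (ψ j0 * q, 0) := by
        ext
        · rfl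
        · show j0 • (0 : R) = 0
          rw [smul_zero]
      rw [h2] at h1
      have h3 := ih _ h1
      exact (mul_eq_zero.1 h3).resolve_left hψj0
  -- stabilisation
  obtain ⟨n, hn⟩ : ∃ n, Λ (n + 1) = Λ n := by
    obtain ⟨n, hn⟩ := monotone_stabilizes_iff_noetherian.2 (inferInstance : IsNoetherian R R)
      ⟨fun n => (Λ n).map (LinearMap.snd R Q R), fun a b hab => Submodule.map_mono (hmono hab)⟩
    refine ⟨n, le_antisymm ?_ (hmono (Nat.le_succ n))⟩
    intro z hz
    have h1 : (Λ n).map (LinearMap.snd R Q R) = (Λ (n + 1)).map (LinearMap.snd R Q R) :=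
      hn (n + 1) (Nat.le_succ n)
    have h2 : z.2 ∈ (Λ (n + 1)).map (LinearMap.snd R Q R) := ⟨z, hz, rfl⟩
    rw [← h1] at h2
    obtain ⟨z', hz', hzz⟩ := h2
    have h3 : z - z' ∈ Λ (n + 1) := Submodule.sub_mem _ hz (hmono (Nat.le_succ n) hz')
    have h4 : z - z' = (z.1 - z'.1, 0) := by
      ext
      · rfl
      · show z.2 - z'.2 = 0
        rw [sub_eq_zero]; exact hzz.symm
    rw [h4] at h3
    have h5 := hbb _ _ h3
    have h6 : z = z' := by
      ext
      · exact sub_eq_zero.1 h5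
      · exact hzz.symm
    rw [h6]; exact hz'
  -- the submodules Y_k
  set Yk : ℕ → Submodule R Q := fun k => (Λ k).map (LinearMap.fst R Q R) with hYk
  have hY0 : ∀ q, q ∈ Yk 0 ↔ ∃ a, ψ a = q := by
    intro q
    constructor
    · rintro ⟨z, hz, rfl⟩
      obtain ⟨a, rfl⟩ := (hΛ0 _).1 hz
      exact ⟨a, (mul_one (ψ a)).symm⟩
    · rintro ⟨a, rfl⟩
      exact ⟨a • ((1, b0) : Q × R), (hΛ0 _).2 ⟨a, rfl⟩, mul_one (ψ a)⟩
  have hYs : ∀ k q, q ∈ Yk (k + 1) ↔ ∀ j ∈ J R, j • q ∈ Yk k := by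
    intro k q
    constructor
    · rintro ⟨z, hz, rfl⟩ j hj
      exact ⟨j • z, (hΛs k z).1 hz j hj, rfl⟩
    · intro h
      have h1 : ∀ j : J R, ∃ r : R, (((j : R) • q, r) : Q × R) ∈ Λ k := by
        intro j
        obtain ⟨z, hz, hz1⟩ := h j j.2
        refine ⟨z.2, ?_⟩
        have : (((j : R) • q, z.2) : Q × R) = z := by
          ext
          · exact hz1.symm
          · rfl
        rw [this]; exact hz
      choose w hw using h1
      have huniq : ∀ (x : Q) (r r' : R), ((x, r) : Q × R) ∈ Λ k → ((x, r') : Q × R) ∈ Λ k →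
          r = r' := by
        intro x r r' h1 h2
        have h3 := Submodule.sub_mem _ h1 h2
        have h4 : ((x, r) : Q × R) - (x, r') = (0, r - r') := by
          ext
          · exact sub_self x
          · rfl
        rw [h4] at h3
        exact sub_eq_zero.1 (ha _ _ h3)
      let W : J R →ₗ[R] R :=
        { toFun := w
          map_add' := by
            intro a b
            refine huniq _ _ _ (hw (a + b)) ?_
            have h2 := Submodule.add_mem _ (hw a) (hw b)
            have h3 : (((a : R) • q, w a) : Q × R) + ((b : R) • q, w b) =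
                (((a + b : J R) : R) • q, w a + w b) := by
              ext
              · show (a : R) • q + (b : R) • q = ((a : R) + (b : R)) • q
                rw [add_smul]
              · rfl
            rw [h3] at h2
            exact h2
          map_smul' := by
            intro c a
            refine huniq _ _ _ (hw (c • a)) ?_
            have h2 := Submodule.smul_mem _ c (hw a)
            have h3 : c • (((a : R) • q, w a) : Q × R) =
                (((c • a : J R) : R) • q, c • w a) := by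
              ext
              · show c • ((a : R) • q) = (c * (a : R)) • q
                rw [mul_smul]
              · rfl
            rw [h3] at h2
            exact h2 }
      obtain ⟨r, hr⟩ := hHom W
      refine ⟨(q, r), (hΛs k _).2 fun j hj => ?_, rfl⟩
      have h2 := hw ⟨j, hj⟩
      have h3 : w ⟨j, hj⟩ = j * r := hr ⟨j, hj⟩
      rw [h3] at h2
      exact h2
  have hYmono : Monotone Yk := fun a b hab => Submodule.map_mono (hmono hab)
  have hYright : ∀ k q (s : R), q ∈ Yk k → q * ψ s ∈ Yk k := by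
    intro k
    induction k with
    | zero =>
      intro q s hq
      obtain ⟨a, rfl⟩ := (hY0 q).1 hq
      exact (hY0 _).2 ⟨a * s, ψ.map_mul a s⟩
    | succ k ih =>
      intro q s hq
      refine (hYs k _).2 fun j hj => ?_
      have h1 := ih _ s ((hYs k q).1 hq j hj)
      have h2 : (j • q) * ψ s = j • (q * ψ s) := mul_assoc _ _ _
      rw [h2] at h1
      exact h1
  set Y : Submodule R Q := Yk n with hYdef
  have hYst : ∀ q, (∀ j ∈ J R, j • q ∈ Y) → q ∈ Y := by
    intro q hq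
    have h1 : q ∈ Yk (n + 1) := (hYs n q).2 hq
    have h2 : Yk (n + 1) = Yk n := by
      simp only [hYk]; rw [hn]
    rw [h2] at h1
    exact h1
  letI mY : Module Rᵐᵒᵖ Y :=
    { smul := fun s y => ⟨y.1 * ψ s.unop, hYright n y.1 s.unop y.2⟩
      one_smul := fun y => Subtype.ext (by
        show y.1 * ψ (unop 1) = y.1
        rw [unop_one, map_one, mul_one])
      mul_smul := fun a b y => Subtype.ext (by
        show y.1 * ψ (unop (a * b)) = y.1 * ψ (unop b) * ψ (unop a)
        rw [unop_mul, map_mul, mul_assoc])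
      smul_zero := fun a => Subtype.ext (by
        show (0 : Q) * ψ (unop a) = 0
        rw [zero_mul])
      smul_add := fun a x y => Subtype.ext (by
        show (x.1 + y.1) * ψ (unop a) = x.1 * ψ (unop a) + y.1 * ψ (unop a)
        rw [add_mul])
      add_smul := fun a b y => Subtype.ext (by
        show y.1 * ψ (unop (a + b)) = y.1 * ψ (unop a) + y.1 * ψ (unop b)
        rw [unop_add, map_add, mul_add])
      zero_smul := fun y => Subtype.ext (by
        show y.1 * ψ (unop 0) = 0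
        rw [unop_zero, map_zero, mul_zero]) }
  have sY : ∀ (s : R) (y : Y), ((op s • y : Y) : Q) = (y : Q) * ψ s := fun _ _ => rfl
  have sY' : ∀ (s : Rᵐᵒᵖ) (y : Y), ((s • y : Y) : Q) = (y : Q) * ψ s.unop := fun _ _ => rfl
  have sL : ∀ (s : R) (y : Y), ((s • y : Y) : Q) = ψ s * (y : Q) := fun _ _ => rfl
  have hcomm : SMulCommClass R Rᵐᵒᵖ Y := ⟨fun r s y => Subtype.ext (by
    rw [sL, sY', sY', sL, mul_assoc])⟩
  have ho1 : (1 : Q) ∈ Y := hYmono (Nat.zero_le n) ((hY0 1).2 ⟨1, ψ.map_one⟩)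
  have hNoethL : IsNoetherian R Y := by
    have h1 : IsNoetherian R (Λ n) := by
      refine isNoetherian_of_injective ((LinearMap.snd R Q R).domRestrict (Λ n)) ?_
      rw [injective_iff_map_eq_zero]
      rintro ⟨z, hz⟩ hz0
      have hz2 : z.2 = 0 := hz0
      have h2 : z = (z.1, 0) := by
        ext
        · rfl
        · exact hz2
      have h3 := hz
      rw [h2] at h3
      have h4 := hbb n _ h3
      apply Subtype.ext
      show z = 0
      rw [h2, h4]; rfl
    refine isNoetherian_of_surjective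
      (((LinearMap.fst R Q R).domRestrict (Λ n)).codRestrict Y fun z => ⟨z.1, z.2, rfl⟩) ?_
    rw [LinearMap.range_eq_top]
    rintro ⟨q, ⟨z, hz, hzq⟩⟩
    exact ⟨⟨z, hz⟩, Subtype.ext hzq⟩
  -- θ
  have hd : ∀ k, j0 ^ k ∉ N := by
    intro k
    induction k with
    | zero =>
      rw [pow_zero]
      exact fun h => hNtop ((Ideal.eq_top_iff_one N).2 h)
    | succ k ih =>
      rw [pow_succ]
      intro h
      rcases hprime _ _ h with h | h
      · exact ih h
      · exact hj0N h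
  have hdY : ∀ k q, q ∈ Yk k → ψ (j0 ^ k) * q ∈ Yk 0 := by
    intro k
    induction k with
    | zero =>
      intro q hq
      rw [pow_zero, map_one, one_mul]; exact hq
    | succ k ih =>
      intro q hq
      have h1 := ih _ ((hYs k q).1 hq j0 hj0')
      rw [pow_succ, map_mul, mul_assoc]
      exact h1
  have hex : ∀ y : Y, ∃ r : R, ψ r = ψ (j0 ^ n) * y.1 := fun y => (hY0 _).1 (hdY n _ y.2)
  choose ρ hρ using hex
  have hρu : ∀ (y : Y) (r : R), ψ r = ψ (j0 ^ n) * y.1 → c0 * ρ y = c0 * r := by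
    intro y r hr
    have h1 : ρ y - r ∈ N := by
      rw [← hψ, map_sub, hρ, hr, sub_self]
    have h2 := hc _ h1
    rw [mul_sub] at h2
    exact sub_eq_zero.1 h2
  let θ : Y →ₗ[Rᵐᵒᵖ] R :=
    { toFun := fun y => c0 * ρ y
      map_add' := by
        intro x y
        show c0 * ρ (x + y) = c0 * ρ x + c0 * ρ y
        rw [← mul_add]
        refine hρu _ _ ?_
        rw [map_add, hρ, hρ, ← mul_add]
        rfl
      map_smul' := by
        intro s y
        show c0 * ρ (s • y) = (c0 * ρ y) * s.unop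
        rw [mul_assoc]
        refine hρu _ _ ?_
        rw [map_mul, hρ, sY', mul_assoc] }
  have hθ : Function.Injective θ := by
    rw [injective_iff_map_eq_zero]
    intro y hy
    have h1 : c0 * ρ y = 0 := hy
    have h2 : ρ y ∈ N := by
      rcases hprime c0 (ρ y) (by rw [h1]; exact N.zero_mem) with h | h
      · exact absurd h hc0
      · exact h
    have h3 : ψ (j0 ^ n) * y.1 = 0 := by rw [← hρ, (hψ _).2 h2]
    have h4 : ψ (j0 ^ n) ≠ 0 := fun h => hd n ((hψ _).1 h)
    exact Subtype.ext ((mul_eq_zero.1 h3).resolve_left h4)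
  have hNoethR : IsNoetherian Rᵐᵒᵖ Y := by
    have := isNoeth_op (R := R)
    exact isNoetherian_of_injective θ hθ
  refine ⟨Y, inferInstance, inferInstance, mY, hcomm, ⟨1, ho1⟩, hNoethL, hNoethR, ?_, ?_, ?_, ?_,
    ?_, θ, hθ⟩
  · intro r
    apply Subtype.ext
    show ψ r * 1 = 1 * ψ r
    rw [mul_one, one_mul]
  · intro r
    rw [← hψ]
    constructor
    · intro h
      have h1 : ψ r * 1 = 0 := congrArg Subtype.val h
      rwa [mul_one] at h1
    · intro h
      apply Subtype.ext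
      show ψ r * 1 = 0
      rw [h, zero_mul]
  · -- artinian
    refine artinian_of_socles ?_
    intro A hA
    set π := (Submodule.span R {(⟨1, ho1⟩ : Y)}).mkQ with hπ
    have hP0 : ∀ y : Y, y.1 ∈ Yk 0 → π y ∈ A := by
      intro y hy
      obtain ⟨a, ha⟩ := (hY0 _).1 hy
      have h1 : y = a • (⟨1, ho1⟩ : Y) := by
        apply Subtype.ext
        show y.1 = ψ a * 1
        rw [mul_one, ha]
      have h2 : π y = 0 := by
        rw [hπ, Submodule.mkQ_apply, Submodule.Quotient.mk_eq_zero, h1]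
        exact Submodule.smul_mem _ _ (Submodule.mem_span_singleton_self _)
      rw [h2]; exact A.zero_mem
    have hPn : ∃ k, ¬ ∀ y : Y, y.1 ∈ Yk k → π y ∈ A := by
      refine ⟨n, fun h => hA ?_⟩
      rw [eq_top_iff]
      rintro x -
      obtain ⟨y, rfl⟩ := Submodule.mkQ_surjective _ x
      exact h y y.2
    classical
    obtain ⟨k, hk, hk'⟩ : ∃ k, (¬ ∀ y : Y, y.1 ∈ Yk k → π y ∈ A) ∧
        ∀ m, m < k → ∀ y : Y, y.1 ∈ Yk m → π y ∈ A :=
      ⟨Nat.find hPn, Nat.find_spec hPn, fun m hm => not_not.1 (Nat.find_min hPn hm)⟩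
    rcases k with _ | k
    · exact absurd hP0 hk
    · have hprev := hk' k (Nat.lt_succ_self k)
      push Not at hk
      obtain ⟨y, hy, hyA⟩ := hk
      refine ⟨π y, hyA, fun j hj => ?_⟩
      rw [← map_smul]
      exact hprev (j • y) ((hYs _ _).1 hy j hj)
  · intro y hy
    have h1 : ψ j0 * y.1 = 0 := congrArg Subtype.val (hy j0 hj0')
    exact Subtype.ext ((mul_eq_zero.1 h1).resolve_left hψj0)
  · intro h
    have hvan : ∀ x : J R, (x : R) ∈ N → h x = 0 := by
      intro x hx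
      have h1 : c0 • x = 0 := Subtype.ext (hc _ hx)
      have h2 : c0 • h x = 0 := by rw [← map_smul, h1, map_zero]
      have h3 : ψ c0 * (h x).1 = 0 := congrArg Subtype.val h2
      exact Subtype.ext ((mul_eq_zero.1 h3).resolve_left hψc0)
    set q : Q := (ψ j0)⁻¹ * (h ⟨j0, hj0'⟩).1 with hq
    have hq0 : ψ j0 * q = (h ⟨j0, hj0'⟩).1 := by
      rw [hq, ← mul_assoc, mul_inv_cancel₀ hψj0, one_mul]
    have hmain : ∀ j : J R, (h j).1 = ψ (j : R) * q := by
      intro j
      obtain ⟨s, t, hs, hst⟩ := hψ2 (ψ (j : R) * (ψ j0)⁻¹)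
      have hs0 : ψ s ≠ 0 := fun h => hs ((hψ s).1 h)
      have h1 : ψ s * ψ (j : R) = ψ t * ψ j0 := by
        rw [← hst, mul_assoc, mul_assoc, inv_mul_cancel₀ hψj0, mul_one]
      have h2 : h (s • j - t • (⟨j0, hj0'⟩ : J R)) = 0 := by
        refine hvan _ ?_
        rw [← hψ]
        show ψ (s * (j : R) - t * j0) = 0
        rw [map_sub, map_mul, map_mul, h1, sub_self]
      rw [map_sub, map_smul, map_smul, sub_eq_zero] at h2
      have h3 : ψ s * (h j).1 = ψ t * (h ⟨j0, hj0'⟩).1 := congrArg Subtype.val h2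
      rw [← hq0, ← mul_assoc, ← h1, mul_assoc] at h3
      exact mul_left_cancel₀ hs0 h3
    have hqY : q ∈ Y := by
      refine hYst q fun j hj => ?_
      show ψ j * q ∈ Y
      rw [← hmain ⟨j, hj⟩]
      exact (h ⟨j, hj⟩).2
    exact ⟨⟨q, hqY⟩, fun j => Subtype.ext (hmain j)⟩

/-- TARGET -/
theorem exists_Y {R : Type} [Ring R] [IsLocalRing R] [IsNoetherianRing R] [IsNoetherianRing Rᵐᵒᵖ]
    (N : Ideal R) [N.IsTwoSided] (hNtop : N ≠ ⊤)
    (hprime : ∀ a b : R, a * b ∈ N → a ∈ N ∨ b ∈ N) (hJN : ¬ J R ≤ N)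
    (c0 b0 : R) (hc0 : c0 ∉ N) (hc : ∀ x ∈ N, c0 * x = 0) (hb0 : b0 ∉ N)
    (hb : ∀ x ∈ N, x * b0 = 0)
    (hsoc : ∀ x : R, (∀ j ∈ J R, j * x = 0) → x = 0)
    (hHom : ∀ w : J R →ₗ[R] R, ∃ r : R, ∀ j : J R, w j = (j : R) * r) :
    ∃ (Y : Type) (_ : AddCommGroup Y) (_ : Module R Y) (_ : Module Rᵐᵒᵖ Y)
      (_ : SMulCommClass R Rᵐᵒᵖ Y) (o : Y),
      IsNoetherian R Y ∧ IsNoetherian Rᵐᵒᵖ Y ∧ (∀ r : R, r • o = op r • o) ∧
      (∀ r : R, r • o = 0 ↔ r ∈ N) ∧ IsArtinian R (Y ⧸ Submodule.span R {o}) ∧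
      (∀ y : Y, (∀ j ∈ J R, j • y = 0) → y = 0) ∧
      (∀ h : J R →ₗ[R] Y, ∃ y, ∀ j : J R, h j = (j : R) • y) ∧
      (∃ θ : Y →ₗ[Rᵐᵒᵖ] R, Function.Injective θ) := by
  obtain ⟨Q, _, ψ, hψ, hψ2⟩ := exists_quot N hNtop hprime
  exact exists_Y_aux N hNtop hprime hJN c0 b0 hc0 hc hb0 hb hsoc hHom Q ψ hψ hψ2

end GD4
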