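import Pool.Agent.Helper576_GD4.DomPhi
import Pool.Agent.Helper576_GD4.LRes2
import Pool.Agent.Helper576_GD4.LRes3
import Pool.Agent.Helper576_GD4.RRes1
import Pool.Agent.Helper576_GD4.RRes2
import Pool.Agent.Helper576_GD4.RRes3
import Pool.Agent.Helper576_GD4.NLeft
import Pool.Agent.Helper576_GD4.LenRight
import Pool.Agent.Helper576_GD4.StepB
import Pool.Agent.Helper576_GD4.YMod
import Pool.Agent.Helper576_GD4.XIdeal
import Pool.Agent.Helper576_GD4.S3
import Pool.Agent.Helper576_GD4.S4
import Pool.Agent.Helper576_GD4.S9a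
import Pool.Agent.Helper576_GD4.S9b
import Pool.Agent.Helper576_GD4.T5
import Pool.Agent.Helper576_GD4.Pd
import Pool.Agent.Helper576_GD4.PdRes

set_option autoImplicit false

open MulOpposite CategoryTheory

namespace GD4

/-- `R` as a right module is the regular module of `Rᵐᵒᵖ`. -/
def opEquiv (R : Type) [Ring R] : R ≃ₗ[Rᵐᵒᵖ] Rᵐᵒᵖ where
  toFun := op
  invFun := unop
  map_add' := fun _ _ => rfl
  map_smul' := fun _ _ => rfl
  left_inv := fun _ => rfl
  right_inv := fun _ => rfl

theorem isNoetherian_right (R : Type) [Ring R] [IsNoetherianRing Rᵐᵒᵖ] : IsNoetherian Rᵐᵒᵖ R :=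
  isNoetherian_of_linearEquiv (opEquiv R).symm

theorem projective_right (R : Type) [Ring R] : Module.Projective Rᵐᵒᵖ R :=
  Module.Projective.of_equiv (opEquiv R).symm

/-- a two-sided ideal as an ideal of the opposite ring -/
def opIdeal {R : Type} [Ring R] (N : Ideal R) [N.IsTwoSided] : Ideal Rᵐᵒᵖ where
  carrier := {x | unop x ∈ N}
  add_mem' := fun ha hb => N.add_mem ha hb
  zero_mem' := N.zero_mem
  smul_mem' := fun c _ hx => Ideal.IsTwoSided.mul_mem_of_left (I := N) (unop c) hx

theorem mem_opIdeal {R : Type} [Ring R] {N : Ideal R} [N.IsTwoSided] {x : Rᵐᵒᵖ} :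
    x ∈ opIdeal N ↔ unop x ∈ N := Iff.rfl

instance {R : Type} [Ring R] (N : Ideal R) [N.IsTwoSided] : (opIdeal N).IsTwoSided :=
  ⟨fun {_} b ha => N.mul_mem_left (unop b) ha⟩

/-- an ideal of the opposite ring, two-sided, as a left ideal -/
def unopIdeal {R : Type} [Ring R] (N : Ideal Rᵐᵒᵖ) [N.IsTwoSided] : Ideal R where
  carrier := {x | op x ∈ N}
  add_mem' := fun ha hb => N.add_mem ha hb
  zero_mem' := N.zero_mem
  smul_mem' := fun c _ hx => Ideal.IsTwoSided.mul_mem_of_left (I := N) (op c) hx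

instance {R : Type} [Ring R] (N : Ideal Rᵐᵒᵖ) [N.IsTwoSided] : (unopIdeal N).IsTwoSided :=
  ⟨fun {_} b ha => N.mul_mem_left (op b) ha⟩

/-- a two-sided ideal as a right submodule -/
def rsub {R : Type} [Ring R] (N : Ideal R) [N.IsTwoSided] : Submodule Rᵐᵒᵖ R where
  carrier := N
  add_mem' := fun ha hb => N.add_mem ha hb
  zero_mem' := N.zero_mem
  smul_mem' := fun c _ hx => Ideal.IsTwoSided.mul_mem_of_left (I := N) (unop c) hx

theorem mem_rsub {R : Type} [Ring R] {N : Ideal R} [N.IsTwoSided] {x : R} :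
    x ∈ rsub N ↔ x ∈ N := Iff.rfl

/-- submodules of projective modules: one dimension shift -/
theorem pd_sub {T : Type} [Ring T] {F : Type} [AddCommGroup F] [Module T F]
    (hF : Module.Projective T F) (K : Submodule T F) (n : ℕ) (h : PdLE T (F ⧸ K) (n + 1)) :
    PdLE T K n := by
  have h1 := (pd_ker K.mkQ K.mkQ_surjective hF n).1 h
  rwa [Submodule.ker_mkQ] at h1

theorem pd_ker_map {T : Type} [Ring T] {F G : Type} [AddCommGroup F] [Module T F]
    [AddCommGroup G] [Module T G] (hF : Module.Projective T F) (hG : Module.Projective T G)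
    (u : F →ₗ[T] G) (n : ℕ) (h : PdLE T (G ⧸ LinearMap.range u) (n + 2)) :
    PdLE T (LinearMap.ker u) n := by
  have h1 : PdLE T (LinearMap.range u) (n + 1) := pd_sub hG _ _ h
  have h2 := (pd_ker u.rangeRestrict u.surjective_rangeRestrict hF n).1 h1
  rwa [LinearMap.ker_rangeRestrict] at h2

/-- Main theorem in `PdLE` form. -/
theorem main {R : Type} [Ring R] [IsLocalRing R] [IsNoetherianRing R] [IsNoetherianRing Rᵐᵒᵖ]
    (hl : ∀ (M : Type) [AddCommGroup M] [Module R M], PdLE R M 4)
    (hr : ∀ (M : Type) [AddCommGroup M] [Module Rᵐᵒᵖ M], PdLE Rᵐᵒᵖ M 4) :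
    ∀ x y : R, x * y = 0 → x = 0 ∨ y = 0 := by
  have hnR : IsNoetherian Rᵐᵒᵖ R := isNoetherian_right R
  have hpR : Module.Projective Rᵐᵒᵖ R := projective_right R
  rcases domain_or_Phi (R := R) 4 (fun M _ _ _ => hr M) with h | ⟨a, b, c, Φ, Φ', hb, hJ, hcomp, hinj, hex⟩
  · exact h
  obtain ⟨hsoc, hHom⟩ := stepB Φ Φ' hb hJ hcomp hinj hex
  -- the ideal N
  obtain ⟨f, N, hfR, hfN, hN2, hNtop, hprime, hmin, c0, hc0, hc⟩ :=
    exists_N_left (T := R) 4 (fun M _ _ _ => hl M)
  have hRopop : IsNoetherianRing Rᵐᵒᵖᵐᵒᵖ :=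
    isNoetherianRing_of_ringEquiv R (RingEquiv.opOp R)
  obtain ⟨g, hg1, hgN, b0', hb0', hb'⟩ := exists_length_right (T := Rᵐᵒᵖ) 4 (fun M _ _ _ => hr M)
    (opIdeal N) (by
      intro h
      apply hNtop
      rw [Ideal.eq_top_iff_one]
      have : (1 : Rᵐᵒᵖ) ∈ opIdeal N := h ▸ Submodule.mem_top
      exact this)
    (by
      intro a b hab
      rcases hprime _ _ (show unop b * unop a ∈ N from hab) with h | h
      · exact Or.inr h
      · exact Or.inl h)
    (by
      intro Q hQ2 hQtop hQprime hQN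
      have := hmin (unopIdeal Q) inferInstance (by
        intro h
        apply hQtop
        rw [Ideal.eq_top_iff_one]
        have : (1 : R) ∈ unopIdeal Q := h ▸ Submodule.mem_top
        exact this) (by
        intro a b hab
        rcases hQprime (op b) (op a) (fun s => by
          have := hab (unop s)
          have h2 : op (a * unop s * b) ∈ Q := this
          rw [mul_assoc] at h2
          simpa using h2) with h | h
        · exact Or.inr h
        · exact Or.inl h) (fun x hx => hQN hx)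
      ext x
      constructor
      · intro hx; exact hQN hx
      · intro hx
        have h2 : unop x ∈ unopIdeal Q := this ▸ hx
        exact h2)
  set b0 : R := unop b0' with hb0def
  have hb0 : b0 ∉ N := hb0'
  have hb : ∀ x ∈ N, x * b0 = 0 := by
    intro x hx
    have := hb' (op x) hx
    have h2 := congrArg unop this
    simpa using h2
  have hgR : g.f R = 1 := by rw [g.congr (opEquiv R), hg1]
  have hgNr : g.f (rsub N) = 0 := by
    have e : (rsub N) ≃ₗ[Rᵐᵒᵖ] (opIdeal N) :=
      { toFun := fun x => ⟨op x.1, x.2⟩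
        invFun := fun x => ⟨unop x.1, x.2⟩
        map_add' := fun _ _ => rfl
        map_smul' := fun _ _ => rfl
        left_inv := fun _ => rfl
        right_inv := fun _ => rfl }
    rw [g.congr e, hgN]
  by_cases hN0 : N = ⊥
  · intro x y hxy
    rcases hprime x y (by rw [hxy]; exact N.zero_mem) with h | h
    · left; rw [hN0] at h; simpa using h
    · right; rw [hN0] at h; simpa using h
  exfalso
  have hJN : ¬ J R ≤ N := by
    intro h
    have hu : IsUnit c0 := by
      by_contra h'
      exact hc0 (h h')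
    apply hN0
    rw [eq_bot_iff]
    intro x hx
    have := hc x hx
    rw [Submodule.mem_bot]
    exact (hu.mul_right_eq_zero).1 this
  -- the bimodule Y
  obtain ⟨Y, iY1, iY2, iY3, iY4, o, hYl, hYr, ho, ho0, hart, hY4, hY5, θ, hθ⟩ :=
    exists_Y N hNtop hprime hJN c0 b0 hc0 hc hb0 hb hsoc hHom
  have hYpd3 : PdLE Rᵐᵒᵖ Y 3 := by
    rw [pd_congr (LinearEquiv.ofInjective θ hθ)]
    exact pd_sub hpR _ _ (hr _)
  have hJpd3 : PdLE R (J R) 3 := pd_sub inferInstance _ _ (hl _)
  have hYpd2 : PdLE Rᵐᵒᵖ Y 2 := by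
    obtain ⟨b1, b2, b3, b4, m', M2, M3, M4, l0, l1, l2, l3, l4⟩ := leftRes3 hJpd3
    obtain ⟨g0, g1, g2, g3, e, A1, A2, A3, k0, k1, k2, k3, k4, kJ, k5⟩ := rightRes3 hYpd3
    apply k5
    refine T5 hY4 hY5 θ hθ (fun i => (m' i : R)) M2 M3 M4 ?_ ?_ l2 l3 l4 e A1 A2 A3 k0 k1 k2 k3 k4 kJ
    · intro x
      constructor
      · intro hx
        obtain ⟨r, hr'⟩ := l0 ⟨x, hx⟩
        refine ⟨r, ?_⟩
        have := congrArg (Submodule.subtype (J R)) hr'
        simpa using this
      · rintro ⟨r, rfl⟩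
        exact Submodule.sum_mem _ (fun i _ => (J R).mul_mem_left _ (m' i).2)
    · intro r
      rw [← l1]
      rw [← Submodule.coe_eq_zero]
      simp
  obtain ⟨g0, g1, g2, e, A1, A2, k0, k1, k2, k3, -⟩ := rightRes2 hYpd2
  -- the ideals P and X
  obtain ⟨P, X, hP2, hX2, hXN, hX0, hXP, hmax⟩ := exists_X N hN0 hprime b0 hb0 hb
  have hXpd2 : PdLE R X 2 := by
    -- X is the kernel of R → R^s
    have hPfg : (rsub P).FG := IsNoetherian.noetherian _
    obtain ⟨s, p, hp⟩ := Submodule.fg_iff_exists_fin_generating_family.1 hPfg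
    let u : R →ₗ[R] (Fin s → R) := LinearMap.pi (fun i => LinearMap.toSpanSingleton R R (p i))
    have hu : LinearMap.ker u = X := by
      ext x
      rw [LinearMap.mem_ker, hXP]
      constructor
      · intro h q hq
        have hq' : q ∈ Submodule.span Rᵐᵒᵖ (Set.range p) := by rw [hp]; exact hq
        clear hq
        induction hq' using Submodule.span_induction with
        | mem y hy =>
          obtain ⟨i, rfl⟩ := hy
          have := congrFun h i
          simpa [u] using this
        | zero => simp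
        | add y z _ _ hy hz => rw [mul_add, hy, hz, add_zero]
        | smul r y _ hy => rw [MulOpposite.smul_eq_mul_unop, ← mul_assoc, hy, zero_mul]
      · intro h
        ext i
        have hpi : p i ∈ P := by
          have : p i ∈ Submodule.span Rᵐᵒᵖ (Set.range p) := Submodule.subset_span ⟨i, rfl⟩
          rw [hp] at this; exact this
        simpa [u] using h (p i) hpi
    have := pd_ker_map (T := R) inferInstance inferInstance u 2 (hl _)
    rwa [hu] at this
  obtain ⟨cc, bb, aa, t, B1, B2, l0, l1, l2, l3, lJ, lf⟩ := leftRes2 hXpd2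
  have hbac : bb = cc + aa := by
    have h1 := lf f hfR
    have h2 : f.f X = 0 := le_antisymm (hfN ▸ f.le_of_le hXN) zero_le
    rw [h2, zero_add] at h1
    exact_mod_cast h1
  have hcc : 0 < cc := by
    rcases Nat.eq_zero_or_pos cc with h | h
    · exfalso
      apply hX0
      rw [eq_bot_iff]
      intro x hx
      obtain ⟨r, hr'⟩ := l0 ⟨x, hx⟩
      subst h
      have := congrArg (Submodule.subtype X) hr'
      simpa using this
    · exact h
  -- NX = 0
  have hNpd2 : PdLE Rᵐᵒᵖ (rsub N) 2 := by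
    let u : R →ₗ[Rᵐᵒᵖ] R :=
      { toFun := fun x => c0 * x
        map_add' := fun x y => mul_add _ _ _
        map_smul' := fun r x => by simp [MulOpposite.smul_eq_mul_unop, mul_assoc] }
    have hu : LinearMap.ker u = rsub N := by
      ext x
      rw [LinearMap.mem_ker, mem_rsub]
      constructor
      · intro h
        have h' : c0 * x = 0 := h
        exact (hprime c0 x (by rw [h']; exact N.zero_mem)).resolve_left hc0
      · intro h; exact hc x h
    have := pd_ker_map (T := Rᵐᵒᵖ) hpR hpR u 2 (hr _)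
    rwa [hu] at this
  have hNX : ∀ n ∈ N, ∀ x ∈ X, n * x = 0 := by
    obtain ⟨m0, m1, m2, ν, C1, C2, n0, n1, n2, n3, nf⟩ := rightRes2 hNpd2
    have hm : m1 = m0 + m2 := by
      have h1 := nf g hgR
      rw [hgNr, zero_add] at h1
      exact_mod_cast h1
    refine S4 N X P hX0 hXP hmax hm (fun i => (ν i : R)) (fun i => (ν i).2) ?_ C1 C2 ?_ n2 n3
    · intro n hn
      obtain ⟨x, hx⟩ := n0 ⟨n, hn⟩
      refine ⟨x, ?_⟩
      have := congrArg (Submodule.subtype (rsub N)) hx
      simpa [MulOpposite.smul_eq_mul_unop] using this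
    · intro x
      rw [← n1, ← Submodule.coe_eq_zero]
      simp [MulOpposite.smul_eq_mul_unop]
  -- Y = R o
  have hYo : ∀ y : Y, ∃ r : R, y = r • o := by
    refine S9b o ho hart hcc hbac B1 B2 lJ ?_
    intro x y hxy
    exact S9a N X P hXP hNX hsoc o ho ho0 hart t B1 B2 l0 l1 l2 e A1 A2 k0 k1 k2 k3 x y hxy
  -- pd N ≤ 1
  have hNpd1 : PdLE Rᵐᵒᵖ (rsub N) 1 := by
    let u : R →ₗ[Rᵐᵒᵖ] Y := LinearMap.toSpanSingleton Rᵐᵒᵖ Y o ∘ₗ (opEquiv R).toLinearMap
    have hu1 : Function.Surjective u := by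
      intro y
      obtain ⟨r, rfl⟩ := hYo y
      exact ⟨r, (ho r).symm⟩
    have hu2 : LinearMap.ker u = rsub N := by
      ext x
      rw [LinearMap.mem_ker, mem_rsub, ← ho0, ho]
      rfl
    have := (pd_ker u hu1 hpR 1).1 hYpd2
    rwa [hu2] at this
  obtain ⟨m0, m1, ν, C1, n0, n1, n2, nJ, nf⟩ := rightRes1 hNpd1
  have hm : m1 = m0 := by
    have h1 := nf g hgR
    rw [hgNr, zero_add] at h1
    exact_mod_cast h1
  subst hm
  have hm0 : 0 < m1 := by
    rcases Nat.eq_zero_or_pos m1 with h | h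
    · exfalso
      apply hN0
      rw [eq_bot_iff]
      intro x hx
      obtain ⟨r, hr'⟩ := n0 ⟨x, hx⟩
      subst h
      have := congrArg (Submodule.subtype (rsub N)) hr'
      simpa using this
    · exact h
  apply hX0
  refine S3 N X P hXP hNX hm0 (fun i => (ν i : R)) (fun i => (ν i).2) C1 nJ ?_ n2
  intro x hx
  rw [← n1, ← Submodule.coe_eq_zero]
  simpa [MulOpposite.smul_eq_mul_unop] using hx

end GD4
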