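import Pool.Agent.Helper576_GD4.Loc
import Pool.Agent.Helper576_GD4.Length

set_option autoImplicit false

open MulOpposite

namespace GD4

open scoped nonZeroDivisors in
theorem exists_quot_domain {D : Type} [Ring D] [IsDomain D] [IsNoetherianRing D] :
    ∃ (Q : Type) (_ : DivisionRing Q) (ψ : D →+* Q), Function.Injective ψ ∧
      (∀ q : Q, ∃ s a : D, s ≠ 0 ∧ ψ s * q = ψ a) := by
  obtain ⟨hore⟩ := nonempty_oreSet_of_strongRankCondition (R := D)
  refine ⟨OreLocalization D⁰ D, inferInstance, OreLocalization.numeratorRingHom, ?_, ?_⟩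
  · exact OreLocalization.numeratorHom_inj (inf_le_left)
  · intro q
    induction q using OreLocalization.ind with
    | _ r s =>
      refine ⟨s, r, nonZeroDivisors.coe_ne_zero s, ?_⟩
      exact OreLocalization.mul_cancel

/-- TARGET -/
theorem exists_quot {R : Type} [Ring R] [IsNoetherianRing R] (N : Ideal R) [N.IsTwoSided]
    (hNtop : N ≠ ⊤) (hprime : ∀ a b : R, a * b ∈ N → a ∈ N ∨ b ∈ N) :
    ∃ (Q : Type) (_ : DivisionRing Q) (ψ : R →+* Q), (∀ r, ψ r = 0 ↔ r ∈ N) ∧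
      (∀ q : Q, ∃ s a : R, s ∉ N ∧ ψ s * q = ψ a) := by
  have hnt : Nontrivial (R ⧸ N) := Ideal.Quotient.nontrivial_iff.2 hNtop
  have hnz : NoZeroDivisors (R ⧸ N) := by
    refine ⟨fun {a b} h => ?_⟩
    obtain ⟨a, rfl⟩ := Ideal.Quotient.mk_surjective a
    obtain ⟨b, rfl⟩ := Ideal.Quotient.mk_surjective b
    rw [← map_mul, Ideal.Quotient.eq_zero_iff_mem] at h
    rw [Ideal.Quotient.eq_zero_iff_mem, Ideal.Quotient.eq_zero_iff_mem]
    exact hprime a b h
  have hdom : IsDomain (R ⧸ N) := NoZeroDivisors.to_isDomain _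
  have hnoe : IsNoetherianRing (R ⧸ N) :=
    isNoetherianRing_of_surjective R (R ⧸ N) (Ideal.Quotient.mk N) Ideal.Quotient.mk_surjective
  obtain ⟨Q, hQ, ψ, hinj, hfrac⟩ := exists_quot_domain (D := R ⧸ N)
  refine ⟨Q, hQ, ψ.comp (Ideal.Quotient.mk N), ?_, ?_⟩
  · intro r
    rw [RingHom.comp_apply, map_eq_zero_iff ψ hinj, Ideal.Quotient.eq_zero_iff_mem]
  · intro q
    obtain ⟨s, a, hs, h⟩ := hfrac q
    obtain ⟨s, rfl⟩ := Ideal.Quotient.mk_surjective s
    obtain ⟨a, rfl⟩ := Ideal.Quotient.mk_surjective a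
    refine ⟨s, a, ?_, h⟩
    intro hsN
    exact hs (Ideal.Quotient.eq_zero_iff_mem.2 hsN)

end GD4
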