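import Pool.Agent.Helper576_GD4.Cover
import Pool.Agent.Helper576_GD4.Pd

set_option autoImplicit false

open MulOpposite

namespace GD4

/-- TARGET -/
theorem exists_PhiT {T : Type} [Ring T] [IsLocalRing T] [IsNoetherianRing T] (n : ℕ) :
    ∀ (a c : ℕ) (u : (Fin a → T) →ₗ[T] (Fin c → T)), PdLE T (LinearMap.ker u) n →
      (∀ x, u x = 0 → ∀ i, x i ∈ J T) → LinearMap.ker u ≠ ⊥ →
    ∃ (a' b' c' : ℕ) (Φ : (Fin b' → T) →ₗ[T] (Fin a' → T)) (Φ' : (Fin a' → T) →ₗ[T] (Fin c' → T)),
      0 < b' ∧ Function.Injective Φ ∧ LinearMap.range Φ = LinearMap.ker Φ' ∧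
      (∀ x i, Φ x i ∈ J T) := by
  have step : ∀ (a c : ℕ) (u : (Fin a → T) →ₗ[T] (Fin c → T)),
      (∀ x, u x = 0 → ∀ i, x i ∈ J T) → LinearMap.ker u ≠ ⊥ →
      ∃ (b : ℕ) (e : (Fin b → T) →ₗ[T] LinearMap.ker u), 0 < b ∧ Function.Surjective e ∧
        (∀ x, e x = 0 → ∀ i, x i ∈ J T) ∧
        (Module.Projective T (LinearMap.ker u) → Function.Injective e) ∧
        LinearMap.range ((LinearMap.ker u).subtype ∘ₗ e) = LinearMap.ker u ∧
        LinearMap.ker ((LinearMap.ker u).subtype ∘ₗ e) = LinearMap.ker e ∧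
        (∀ x i, ((LinearMap.ker u).subtype ∘ₗ e) x i ∈ J T) := by
    intro a c u hJ hne
    have hfin : Module.Finite T (LinearMap.ker u) := inferInstance
    obtain ⟨b, e, he, hJe, hinj⟩ := exists_cover (T := T) (LinearMap.ker u)
    refine ⟨b, e, ?_, he, hJe, hinj inferInstance, ?_, ?_, ?_⟩
    · rcases Nat.eq_zero_or_pos b with hb | hb
      · exfalso
        apply hne
        subst hb
        rw [Submodule.eq_bot_iff]
        intro x hx
        obtain ⟨y, hy⟩ := he ⟨x, hx⟩
        have hy0 : y = 0 := Subsingleton.elim _ _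
        rw [hy0, map_zero] at hy
        exact (congrArg Subtype.val hy).symm
      · exact hb
    · rw [LinearMap.range_comp, LinearMap.range_eq_top.2 he, Submodule.map_top,
        Submodule.range_subtype]
    · ext x
      simp only [LinearMap.mem_ker, LinearMap.comp_apply, Submodule.subtype_apply,
        ZeroMemClass.coe_eq_zero]
    · intro x i
      exact hJ _ (e x).2 i
  induction n with
  | zero =>
    intro a c u hpd hJ hne
    obtain ⟨b, e, hb, he, hJe, hinj, hr, hk, hJv⟩ := step a c u hJ hne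
    have hei : Function.Injective e := hinj (pd_zero.1 hpd)
    exact ⟨a, b, c, (LinearMap.ker u).subtype ∘ₗ e, u, hb,
      (Submodule.injective_subtype _).comp hei, hr, hJv⟩
  | succ k ih =>
    intro a c u hpd hJ hne
    obtain ⟨b, e, hb, he, hJe, hinj, hr, hk, hJv⟩ := step a c u hJ hne
    by_cases hei : Function.Injective e
    · exact ⟨a, b, c, (LinearMap.ker u).subtype ∘ₗ e, u, hb,
        (Submodule.injective_subtype _).comp hei, hr, hJv⟩
    · have hP : Module.Projective T (Fin b → T) := inferInstance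
      have h1 : PdLE T (LinearMap.ker e) k := (pd_ker e he hP k).1 hpd
      have h2 : PdLE T (LinearMap.ker ((LinearMap.ker u).subtype ∘ₗ e)) k :=
        (pd_congr (LinearEquiv.ofEq _ _ hk) k).2 h1
      refine ih b a ((LinearMap.ker u).subtype ∘ₗ e) h2 ?_ ?_
      · intro x hx
        have hx' : x ∈ LinearMap.ker ((LinearMap.ker u).subtype ∘ₗ e) := hx
        rw [hk] at hx'
        exact hJe x hx'
      · rw [hk]
        intro h
        exact hei (LinearMap.ker_eq_bot.1 h)

end GD4
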