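import Pool.Agent.Helper576_GD4.Loc
import Pool.Agent.Helper576_GD4.Length
import Pool.Agent.Helper576_GD4.SerreLen

set_option autoImplicit false

open MulOpposite

namespace GD4

namespace Reg

section
variable {S : Type} [Ring S]

/-- killed by a nonzero two-sided ideal -/
def Kill {M : Type} [AddCommGroup M] [Module S M] (x : S) (m : M) : Prop :=
  ∀ t : S, (x * t) • m = 0

theorem Kill.mul_left {M : Type} [AddCommGroup M] [Module S M] {x : S} {m : M} (h : Kill x m)
    (s : S) : Kill (s * x) m := by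
  intro t
  rw [mul_assoc, mul_smul, h t, smul_zero]

theorem Kill.mul_right {M : Type} [AddCommGroup M] [Module S M] {x : S} {m : M} (h : Kill x m)
    (s : S) : Kill (x * s) m := by
  intro t
  rw [mul_assoc]
  exact h _

theorem kill_span {M : Type} [AddCommGroup M] [Module S M] {x : S} {s : Set M}
    (h : ∀ m ∈ s, Kill x m) {m : M} (hm : m ∈ Submodule.span S s) : Kill x m := by
  induction hm using Submodule.span_induction with
  | mem m hm => exact h m hm
  | zero => intro t; rw [smul_zero]
  | add a b _ _ ha hb => intro t; rw [smul_add, ha t, hb t, add_zero]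
  | smul r a _ ha => intro t; rw [← mul_smul, mul_assoc]; exact ha _

variable (hprime : ∀ a b : S, (∀ s, a * s * b = 0) → a = 0 ∨ b = 0)

include hprime in
theorem prime_ne {a b : S} (ha : a ≠ 0) (hb : b ≠ 0) : ∃ s, a * s * b ≠ 0 := by
  by_contra hcon
  push Not at hcon
  rcases hprime a b hcon with h | h
  · exact ha h
  · exact hb h

include hprime in
theorem kill_finset [Nontrivial S] {M : Type} [AddCommGroup M] [Module S M] (s : Finset M)
    (h : ∀ m ∈ s, ∃ x : S, x ≠ 0 ∧ Kill x m) : ∃ x : S, x ≠ 0 ∧ ∀ m ∈ s, Kill x m := by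
  classical
  induction s using Finset.induction_on with
  | empty => exact ⟨1, one_ne_zero, by simp⟩
  | insert a s ha ih =>
    obtain ⟨x, hx, hxs⟩ := ih fun m hm => h m (Finset.mem_insert_of_mem hm)
    obtain ⟨y, hy, hya⟩ := h a (Finset.mem_insert_self _ _)
    obtain ⟨t, ht⟩ := prime_ne hprime hx hy
    refine ⟨x * t * y, ht, fun m hm => ?_⟩
    rcases Finset.mem_insert.1 hm with rfl | hm
    · exact hya.mul_left _
    · exact ((hxs m hm).mul_right t).mul_right y

/-- the Serre class -/
def cls [Nontrivial S] [IsNoetherianRing S]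
    (hprime : ∀ a b : S, (∀ s, a * s * b = 0) → a = 0 ∨ b = 0) : SerreClass S where
  mem M _ _ := ∀ m : M, ∃ x : S, x ≠ 0 ∧ Kill x m
  of_inj := by
    intro M N _ _ _ _ g hg h m
    obtain ⟨x, hx, hk⟩ := h (g m)
    refine ⟨x, hx, fun t => hg ?_⟩
    rw [map_smul, map_zero]
    exact hk t
  of_surj := by
    intro M N _ _ _ _ g hg h n
    obtain ⟨m, rfl⟩ := hg n
    obtain ⟨x, hx, hk⟩ := h m
    refine ⟨x, hx, fun t => ?_⟩
    rw [← map_smul, hk t, map_zero]
  ext := by
    intro M _ _ N hN hQ m
    obtain ⟨x, hx, hk⟩ := hQ (N.mkQ m)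
    have hxN : ∀ t : S, (x * t) • m ∈ N := by
      intro t
      have := hk t
      rw [← map_smul, Submodule.mkQ_apply, Submodule.Quotient.mk_eq_zero] at this
      exact this
    -- the submodule generated by the elements `x t m`
    have hle : Submodule.span S (Set.range fun t : S => (x * t) • m) ≤ Submodule.span S {m} := by
      rw [Submodule.span_le]
      rintro _ ⟨t, rfl⟩
      exact Submodule.smul_mem _ _ (Submodule.mem_span_singleton_self m)
    have hfg : (Submodule.span S (Set.range fun t : S => (x * t) • m)).FG := by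
      have : IsNoetherian S (Submodule.span S {m}) :=
        isNoetherian_of_fg_of_noetherian _ (Submodule.fg_span_singleton m)
      exact (isNoetherian_submodule.1 this) _ hle
    obtain ⟨s, hs, hspan⟩ := (Submodule.fg_span_iff_fg_span_finset_subset _).1 hfg
    obtain ⟨y, hy, hys⟩ := kill_finset hprime s (fun n hn => by
      obtain ⟨t, ht⟩ := hs hn
      obtain ⟨z, hz, hkz⟩ := hN ⟨n, by rw [← ht]; exact hxN t⟩
      refine ⟨z, hz, fun t => ?_⟩
      have := congrArg Subtype.val (hkz t)
      simpa using this)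
    obtain ⟨w, hw⟩ := prime_ne hprime hy hx
    refine ⟨y * w * x, hw, fun t => ?_⟩
    have h1 : Kill y ((x * t) • m) := by
      refine kill_span (s := (s : Set M)) (fun n hn => hys n hn) ?_
      rw [← hspan]
      exact Submodule.subset_span ⟨t, rfl⟩
    have h2 := h1 w
    rw [← mul_smul] at h2
    rw [mul_assoc (y * w)]
    exact h2
  zero := by
    intro M _ _ _ m
    exact ⟨1, one_ne_zero, fun t => Subsingleton.elim _ _⟩

theorem lt_add' {a b : ℕ∞} (ha : a ≠ ⊤) (hb : b ≠ 0) : a < a + b := by
  have h := (ENat.add_lt_add_iff_left ha).2 (pos_iff_ne_zero.2 hb)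
  simpa using h

theorem span_finset_zero (f : LengthFn S) {Q : Type} [AddCommGroup Q] [Module S Q] (s : Finset Q)
    (h : ∀ q ∈ s, f.f (Submodule.span S {q}) = 0) : f.f (Submodule.span S (s : Set Q)) = 0 := by
  classical
  induction s using Finset.induction_on with
  | empty =>
    have : Subsingleton (Submodule.span S (((∅ : Finset Q)) : Set Q)) := by
      simp only [Finset.coe_empty, Submodule.span_empty]
      infer_instance
    exact f.zero _
  | insert a s ha ih =>
    rw [Finset.coe_insert, Submodule.span_insert]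
    have h1 := f.sup_le (Submodule.span S {a}) (Submodule.span S (s : Set Q))
    rw [h a (Finset.mem_insert_self _ _), ih fun q hq => h q (Finset.mem_insert_of_mem hq),
      zero_add] at h1
    exact le_antisymm h1 zero_le

theorem f_map (f : LengthFn S) {M N : Type} [AddCommGroup M] [Module S M] [AddCommGroup N]
    [Module S N] (g : M →ₗ[S] N) (hg : Function.Injective g) (K : Submodule S M) :
    f.f (K.map g) = f.f K := (f.congr (Submodule.equivMapOfInjective g hg K)).symm

/-- the annihilator of a nonzero left ideal is that of finitely many elements -/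
theorem fin_ann [IsNoetherianRing Sᵐᵒᵖ] (U : Ideal S) : ∃ s : Finset S, (∀ x ∈ s, x ∈ U) ∧
    ∀ r : S, (∀ x ∈ s, r * x = 0) → ∀ u ∈ U, r * u = 0 := by
  classical
  have hfg : (Submodule.span Sᵐᵒᵖ {y : Sᵐᵒᵖ | unop y ∈ U}).FG := IsNoetherian.noetherian _
  obtain ⟨s, hs, hspan⟩ := (Submodule.fg_span_iff_fg_span_finset_subset _).1 hfg
  refine ⟨s.image unop, ?_, ?_⟩
  · intro x hx
    obtain ⟨y, hy, rfl⟩ := Finset.mem_image.1 hx
    exact hs hy
  · intro r hr u hu
    have h1 : op u ∈ Submodule.span Sᵐᵒᵖ ((s : Finset Sᵐᵒᵖ) : Set Sᵐᵒᵖ) := by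
      rw [← hspan]
      exact Submodule.subset_span hu
    have h2 : ∀ y ∈ Submodule.span Sᵐᵒᵖ ((s : Finset Sᵐᵒᵖ) : Set Sᵐᵒᵖ), r * unop y = 0 := by
      intro y hy
      induction hy using Submodule.span_induction with
      | mem y hy => exact hr _ (Finset.mem_image_of_mem _ hy)
      | zero => simp
      | add a b _ _ ha hb => rw [unop_add, mul_add, ha, hb, add_zero]
      | smul c a _ ha => rw [smul_eq_mul, unop_mul, ← mul_assoc, ha, zero_mul]
    exact h2 _ h1

include hprime in
theorem f_ne_zero [IsNoetherianRing Sᵐᵒᵖ] (f : LengthFn S) (hf : f.f S ≠ 0) {U : Ideal S}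
    (hU : U ≠ ⊥) : f.f U ≠ 0 := by
  intro h0
  apply hf
  obtain ⟨s, hs, hann⟩ := fin_ann U
  let x : Fin s.card → S := fun i => (s.equivFin.symm i : S)
  have hx : ∀ i, x i ∈ U := fun i => hs _ (s.equivFin.symm i).2
  let g : S →ₗ[S] (Fin s.card → U) := LinearMap.pi fun i =>
    (LinearMap.toSpanSingleton S S (x i)).codRestrict U (fun r => U.mul_mem_left r (hx i))
  have hg : Function.Injective g := by
    rw [← LinearMap.ker_eq_bot, LinearMap.ker_eq_bot']
    intro r hr
    have h1 : ∀ y ∈ s, r * y = 0 := by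
      intro y hy
      have h2 := congrFun hr (s.equivFin ⟨y, hy⟩)
      have h3 := congrArg Subtype.val h2
      simpa [g, x] using h3
    obtain ⟨u, hu, hu0⟩ := Submodule.exists_mem_ne_zero_of_ne_bot hU
    have h2 : ∀ t, r * t * u = 0 := fun t => by
      rw [mul_assoc]
      exact hann r h1 _ (U.mul_mem_left t hu)
    exact (hprime r u h2).resolve_right hu0
  have h1 := f.le_of_inj g hg
  rw [f.pi, h0, mul_zero] at h1
  exact le_antisymm h1 zero_le

end

end Reg

/-- TARGET -/
theorem exists_regular {S : Type} [Ring S] [Nontrivial S] [IsNoetherianRing S]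
    [IsNoetherianRing Sᵐᵒᵖ] (hprime : ∀ a b : S, (∀ s, a * s * b = 0) → a = 0 ∨ b = 0)
    (I : Ideal S) [I.IsTwoSided] (hI : I ≠ ⊥) :
    ∃ f : LengthFn S, f.f S ≠ 0 ∧ f.f S ≠ ⊤ ∧ ∃ c ∈ I, ∀ r : S, r * c = 0 → r = 0 := by
  have hS : ¬ (Reg.cls hprime).mem S := by
    intro h
    obtain ⟨x, hx, hk⟩ := h 1
    apply hx
    have := hk 1
    simpa using this
  obtain ⟨f, hf0, hf1, hf2, -⟩ := exists_lengthFn (Reg.cls hprime) S hS
  refine ⟨f, hf1, hf2, ?_⟩
  have hfin : ∀ U : Ideal S, f.f U ≠ ⊤ := fun U => ne_top_of_le_ne_top hf2 (f.le_top U)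
  have hne : ∀ U : Ideal S, U ≠ ⊥ → f.f U ≠ 0 := fun U hU => Reg.f_ne_zero hprime f hf1 hU
  -- two-sided ideals have full length
  have htwo : ∀ B : Ideal S, B ≠ ⊥ → (∀ b ∈ B, ∀ s, b * s ∈ B) → f.f B = f.f S := by
    intro B hB hB2
    have h1 : f.f (S ⧸ B) = 0 := by
      refine hf0 _ ?_
      intro m
      obtain ⟨s, rfl⟩ := B.mkQ_surjective m
      obtain ⟨b, hb, hb0⟩ := Submodule.exists_mem_ne_zero_of_ne_bot hB
      refine ⟨b, hb0, fun t => ?_⟩
      rw [← map_smul, Submodule.mkQ_apply, Submodule.Quotient.mk_eq_zero, smul_eq_mul, mul_assoc]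
      exact hB2 b hb _
    have h2 := f.sub_add_quot (M := S) B
    rw [h1, add_zero] at h2
    exact h2.symm
  -- a left ideal of minimal length
  obtain ⟨U, hU0, hUmin⟩ := (InvImage.wf (fun U : Ideal S => f.f U) wellFounded_lt).has_min
    {U | U ≠ ⊥} ⟨⊤, top_ne_bot⟩
  have hUmin' : ∀ U' : Ideal S, U' ≠ ⊥ → f.f U ≤ f.f U' := fun U' hU' =>
    not_lt.1 (hUmin U' hU')
  -- step (iv)
  have step4 : ∀ a : S, f.f (Submodule.span S {a}) < f.f S →
      ∃ x : S, ∀ u ∈ U, u * x ∈ Submodule.span S {a} → u = 0 := by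
    intro a ha
    by_contra hcon
    push Not at hcon
    set A : Ideal S := Submodule.span S {a} with hA
    -- the images have length zero
    have hz : ∀ x : S, ∀ u ∈ U, f.f (Submodule.span S {A.mkQ (u * x)}) = 0 := by
      intro x u hu
      let φ : U →ₗ[S] (S ⧸ A) := A.mkQ ∘ₗ (LinearMap.toSpanSingleton S S x) ∘ₗ U.subtype
      obtain ⟨v, hv, hvx, hv0⟩ := hcon x
      have hk : (LinearMap.ker φ).map U.subtype ≠ ⊥ := by
        intro h
        have : v ∈ (LinearMap.ker φ).map U.subtype := by
          refine ⟨⟨v, hv⟩, ?_, rfl⟩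
          show φ ⟨v, hv⟩ = 0
          simp only [φ, LinearMap.comp_apply, Submodule.subtype_apply,
            LinearMap.toSpanSingleton_apply, Submodule.mkQ_apply]
          rw [Submodule.Quotient.mk_eq_zero]
          exact hvx
        rw [h] at this
        exact hv0 (by simpa using this)
      have h1 := hUmin' _ hk
      rw [Reg.f_map f U.subtype U.subtype_injective] at h1
      have h2 := f.ker_add_range φ
      have h3 : f.f (LinearMap.range φ) = 0 := by
        by_contra h4
        have h5 : f.f (LinearMap.ker φ) ≠ ⊤ := by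
          have := f.le_top (LinearMap.ker φ)
          exact ne_top_of_le_ne_top (hfin U) this
        have h6 : f.f (LinearMap.ker φ) < f.f (LinearMap.ker φ) + f.f (LinearMap.range φ) :=
          Reg.lt_add' h5 h4
        rw [← h2] at h6
        exact absurd h1 (not_le.2 h6)
      have h4 : Submodule.span S {A.mkQ (u * x)} ≤ LinearMap.range φ := by
        rw [Submodule.span_le]
        rintro _ rfl
        exact ⟨⟨u, hu⟩, rfl⟩
      have h5 := f.le_of_le h4
      rw [h3] at h5
      exact le_antisymm h5 zero_le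
    -- the two-sided ideal U S
    set B : Ideal S := Submodule.span S {y | ∃ u ∈ U, ∃ x, y = u * x} with hB
    obtain ⟨u0, hu0, hu00⟩ := Submodule.exists_mem_ne_zero_of_ne_bot hU0
    have hBne : B ≠ ⊥ := by
      intro h
      have : u0 ∈ B := Submodule.subset_span ⟨u0, hu0, 1, (mul_one _).symm⟩
      rw [h] at this
      exact hu00 (by simpa using this)
    have hB2 : ∀ b ∈ B, ∀ s, b * s ∈ B := by
      intro b hb s
      induction hb using Submodule.span_induction with
      | mem y hy =>
        obtain ⟨u, hu, x, rfl⟩ := hy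
        exact Submodule.subset_span ⟨u, hu, x * s, mul_assoc _ _ _⟩
      | zero => rw [zero_mul]; exact B.zero_mem
      | add c d _ _ hc hd => rw [add_mul]; exact B.add_mem hc hd
      | smul r c _ hc => rw [smul_eq_mul, mul_assoc]; exact B.mul_mem_left r hc
    have hBf := htwo B hBne hB2
    obtain ⟨s, hs, hspan⟩ := (Submodule.fg_span_iff_fg_span_finset_subset (R := S)
      {y : S | ∃ u ∈ U, ∃ x, y = u * x}).1 (IsNoetherian.noetherian _)
    classical
    have h1 : f.f (Submodule.map A.mkQ B) = 0 := by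
      rw [hB, hspan, Submodule.map_span, ← Finset.coe_image]
      refine Reg.span_finset_zero f _ ?_
      intro q hq
      obtain ⟨y, hy, rfl⟩ := Finset.mem_image.1 hq
      obtain ⟨u, hu, x, rfl⟩ := hs hy
      exact hz x u hu
    let g : B →ₗ[S] (S ⧸ A) := A.mkQ ∘ₗ B.subtype
    have h2 := f.ker_add_range g
    have h3 : LinearMap.range g = Submodule.map A.mkQ B := by
      rw [LinearMap.range_comp, Submodule.range_subtype]
    rw [h3, h1, add_zero] at h2
    have h4 : (LinearMap.ker g).map B.subtype ≤ A := by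
      rintro _ ⟨b, hb, rfl⟩
      have hb' : A.mkQ (b : S) = 0 := hb
      rw [Submodule.mkQ_apply, Submodule.Quotient.mk_eq_zero] at hb'
      exact hb'
    have h5 := f.le_of_le h4
    rw [Reg.f_map f B.subtype B.subtype_injective, ← h2, hBf] at h5
    exact absurd h5 (not_le.2 ha)
  -- minimal annihilator
  let ann : S → Ideal S := fun a => LinearMap.ker (LinearMap.toSpanSingleton S S a)
  have hann : ∀ a r, r ∈ ann a ↔ r * a = 0 := by
    intro a r
    simp [ann]
  obtain ⟨a, haI, hamin⟩ := (InvImage.wf (fun a : S => f.f (ann a)) wellFounded_lt).has_min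
    {a | a ∈ I} ⟨0, I.zero_mem⟩
  refine ⟨a, haI, fun r hr => ?_⟩
  by_contra hr0
  have hΛ : ann a ≠ ⊥ := by
    intro h
    have : r ∈ ann a := (hann a r).2 hr
    rw [h] at this
    exact hr0 (by simpa using this)
  have hΛf := hne _ hΛ
  have hSa : f.f (Submodule.span S {a}) < f.f S := by
    have h1 := f.ker_add_range (LinearMap.toSpanSingleton S S a)
    have h2 : LinearMap.range (LinearMap.toSpanSingleton S S a) = Submodule.span S {a} :=
      (LinearMap.span_singleton_eq_range S S a).symm
    rw [h2] at h1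
    rw [h1, add_comm]
    exact Reg.lt_add' (hfin _) hΛf
  obtain ⟨x, hx⟩ := step4 a hSa
  obtain ⟨u0, hu0, hu00⟩ := Submodule.exists_mem_ne_zero_of_ne_bot hU0
  have hκ : u0 * x ≠ 0 := by
    intro h
    exact hu00 (hx u0 hu0 (by rw [h]; exact Submodule.zero_mem _))
  obtain ⟨i, hi, hi0⟩ := Submodule.exists_mem_ne_zero_of_ne_bot hI
  obtain ⟨s, hs⟩ := Reg.prime_ne hprime hr0 hi0
  obtain ⟨s', hs'⟩ := Reg.prime_ne hprime hs hκ
  set w : S := s * i * s' * u0 with hw
  have hwU : w ∈ U := U.mul_mem_left _ hu0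
  set b : S := w * x with hb
  have hbI : b ∈ I := by
    rw [hb, hw]
    exact I.mul_mem_right _ (I.mul_mem_right _ (I.mul_mem_right _ (I.mul_mem_left _ hi)))
  have hrb : r * b ≠ 0 := by
    intro h
    apply hs'
    calc r * s * i * s' * (u0 * x) = r * (s * i * s' * u0 * x) := by simp only [mul_assoc]
      _ = 0 := h
  refine hamin (a + b) (I.add_mem haI hbI) ?_
  show f.f (ann (a + b)) < f.f (ann a)
  let ψ : (ann a) →ₗ[S] S := (LinearMap.toSpanSingleton S S b) ∘ₗ (ann a).subtype
  have h1 := f.ker_add_range ψ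
  have h2 : LinearMap.range ψ ≠ ⊥ := by
    intro h
    have : r * b ∈ LinearMap.range ψ := ⟨⟨r, (hann a r).2 hr⟩, rfl⟩
    rw [h] at this
    exact hrb (by simpa using this)
  have h3 := hne _ h2
  have h4 : ann (a + b) ≤ (LinearMap.ker ψ).map (ann a).subtype := by
    intro t ht
    rw [hann, mul_add] at ht
    have e1 : t * b = (t * w) * x := (mul_assoc t w x).symm
    have e2 : t * b = -(t * a) := (neg_eq_of_add_eq_zero_right ht).symm
    have e3 : t * w = 0 := by
      refine hx _ (U.mul_mem_left _ hwU) ?_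
      rw [← e1, e2]
      exact Submodule.neg_mem _ (Submodule.smul_mem _ t (Submodule.mem_span_singleton_self a))
    have e4 : t * b = 0 := by rw [e1, e3, zero_mul]
    have e5 : t * a = 0 := by rw [e4, add_zero] at ht; exact ht
    exact ⟨⟨t, (hann a t).2 e5⟩, e4, rfl⟩
  have h5 := f.le_of_le h4
  rw [Reg.f_map f (ann a).subtype (ann a).subtype_injective] at h5
  refine lt_of_le_of_lt h5 ?_
  rw [h1]
  exact Reg.lt_add' (ne_top_of_le_ne_top (hfin (ann a)) (f.le_top _)) h3

end GD4
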