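import Pool.Agent.Helper576_GD4.Cover
import Pool.Agent.Helper576_GD4.Pd
import Pool.Agent.Helper576_GD4.Length

set_option autoImplicit false

open MulOpposite

namespace GD4

/-- TARGET -/
theorem res1 {T : Type} [Ring T] [IsLocalRing T] [IsNoetherianRing T] {M : Type}
    [AddCommGroup M] [Module T M] [Module.Finite T M] (h : PdLE T M 1) :
    ∃ (c b : ℕ) (t : (Fin c → T) →ₗ[T] M) (d1 : (Fin b → T) →ₗ[T] (Fin c → T)),
      Function.Surjective t ∧ LinearMap.range d1 = LinearMap.ker t ∧ Function.Injective d1 ∧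
      (∀ x i, d1 x i ∈ J T) ∧
      (∀ f : LengthFn T, f.f T = 1 → f.f M + (b : ℕ∞) = (c : ℕ∞)) := by
  obtain ⟨c, t, ht, hker, -⟩ := exists_cover (T := T) M
  have hP : Module.Projective T (Fin c → T) := inferInstance
  have hKp : Module.Projective T (LinearMap.ker t) := pd_zero.1 ((pd_ker t ht hP 0).1 h)
  have hKf : Module.Finite T (LinearMap.ker t) := inferInstance
  obtain ⟨b, e1, he1, -, hinj⟩ := exists_cover (T := T) (LinearMap.ker t)
  have he1i := hinj inferInstance hKp
  refine ⟨c, b, t, (LinearMap.ker t).subtype ∘ₗ e1, ht, ?_, ?_, ?_, ?_⟩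
  · rw [LinearMap.range_comp, LinearMap.range_eq_top.2 he1, Submodule.map_top,
      Submodule.range_subtype]
  · exact (LinearMap.ker t).subtype_injective.comp he1i
  · intro x i
    exact hker _ (e1 x).2 i
  · intro f hf
    have h1 := f.add (LinearMap.ker t).subtype t (LinearMap.ker t).subtype_injective ht (by simp)
    rw [f.pi, hf, mul_one] at h1
    have h2 := f.congr (LinearEquiv.ofBijective e1 ⟨he1i, he1⟩)
    rw [f.pi, hf, mul_one] at h2
    rw [h1, ← h2, add_comm]

end GD4
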