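import Pool.Agent.Helper576_GD4.Res1

set_option autoImplicit false

open MulOpposite

namespace GD4

/-- TARGET -/
theorem res2 {T : Type} [Ring T] [IsLocalRing T] [IsNoetherianRing T] {M : Type}
    [AddCommGroup M] [Module T M] [Module.Finite T M] (h : PdLE T M 2) :
    ∃ (c b a : ℕ) (t : (Fin c → T) →ₗ[T] M) (d1 : (Fin b → T) →ₗ[T] (Fin c → T))
      (d2 : (Fin a → T) →ₗ[T] (Fin b → T)),
      Function.Surjective t ∧ LinearMap.range d1 = LinearMap.ker t ∧
      LinearMap.range d2 = LinearMap.ker d1 ∧ Function.Injective d2 ∧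
      (∀ x i, d1 x i ∈ J T) ∧
      (∀ f : LengthFn T, f.f T = 1 → f.f M + (b : ℕ∞) = (c : ℕ∞) + (a : ℕ∞)) := by
  obtain ⟨c, t, ht, htJ, -⟩ := exists_cover (T := T) M
  have hK : PdLE T (LinearMap.ker t) 1 := (pd_ker t ht inferInstance 1).1 h
  have hfin : Module.Finite T (LinearMap.ker t) := inferInstance
  obtain ⟨b, a, t1, d, ht1, hd, hdi, -, hf⟩ := res1 hK
  refine ⟨c, b, a, t, (LinearMap.ker t).subtype ∘ₗ t1, d, ht, ?_, ?_, hdi, ?_, ?_⟩
  · rw [LinearMap.range_comp, LinearMap.range_eq_top.2 ht1, Submodule.map_top,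
      Submodule.range_subtype]
  · rw [LinearMap.ker_comp_of_ker_eq_bot _ (LinearMap.ker t).ker_subtype]
    exact hd
  · intro x i
    exact htJ _ (t1 x).2 i
  · intro f hfT
    have e1 := f.add (LinearMap.ker t).subtype t (LinearMap.ker t).subtype_injective ht (by simp)
    have e2 : f.f (Fin c → T) = (c : ℕ∞) := by rw [f.pi, hfT, mul_one]
    have e3 := hf f hfT
    rw [← e3, ← e2, e1, ← add_assoc, add_comm (f.f M)]

end GD4
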