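import Pool.Agent.Helper576_GD4.Cover
import Pool.Agent.Helper576_GD4.Pd
import Pool.Agent.Helper576_GD4.Length

set_option autoImplicit false

open MulOpposite

namespace GD4

/-- TARGET -/
theorem res3 {T : Type} [Ring T] [IsLocalRing T] [IsNoetherianRing T] {M : Type}
    [AddCommGroup M] [Module T M] [Module.Finite T M] (h : PdLE T M 3) :
    ∃ (g0 g1 g2 g3 : ℕ) (e : (Fin g0 → T) →ₗ[T] M) (d1 : (Fin g1 → T) →ₗ[T] (Fin g0 → T))
      (d2 : (Fin g2 → T) →ₗ[T] (Fin g1 → T)) (d3 : (Fin g3 → T) →ₗ[T] (Fin g2 → T)),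
      Function.Surjective e ∧ LinearMap.range d1 = LinearMap.ker e ∧
      LinearMap.range d2 = LinearMap.ker d1 ∧ LinearMap.range d3 = LinearMap.ker d2 ∧
      Function.Injective d3 ∧ (∀ x i, d3 x i ∈ J T) ∧ (g3 = 0 → PdLE T M 2) := by
  obtain ⟨g0, e0, he0s, -, -⟩ := exists_cover (T := T) M
  have hK0 : PdLE T (LinearMap.ker e0) 2 := (pd_ker e0 he0s inferInstance 2).1 h
  obtain ⟨g1, e1, he1s, -, -⟩ := exists_cover (T := T) (LinearMap.ker e0)
  have hK1 : PdLE T (LinearMap.ker e1) 1 := (pd_ker e1 he1s inferInstance 1).1 hK0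
  obtain ⟨g2, e2, he2s, he2J, -⟩ := exists_cover (T := T) (LinearMap.ker e1)
  have hK2 : PdLE T (LinearMap.ker e2) 0 := (pd_ker e2 he2s inferInstance 0).1 hK1
  have hK2p : Module.Projective T (LinearMap.ker e2) := pd_zero.1 hK2
  obtain ⟨g3, e3, he3s, -, he3i⟩ := exists_cover (T := T) (LinearMap.ker e2)
  have he3i' : Function.Injective e3 := he3i inferInstance hK2p
  refine ⟨g0, g1, g2, g3, e0, (LinearMap.ker e0).subtype ∘ₗ e1, (LinearMap.ker e1).subtype ∘ₗ e2,
    (LinearMap.ker e2).subtype ∘ₗ e3, he0s, ?_, ?_, ?_, ?_, ?_, ?_⟩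
  · rw [LinearMap.range_comp, LinearMap.range_eq_top.2 he1s, Submodule.map_top,
      Submodule.range_subtype]
  · rw [LinearMap.range_comp, LinearMap.range_eq_top.2 he2s, Submodule.map_top,
      Submodule.range_subtype, LinearMap.ker_comp_of_ker_eq_bot _ (Submodule.ker_subtype _)]
  · rw [LinearMap.range_comp, LinearMap.range_eq_top.2 he3s, Submodule.map_top,
      Submodule.range_subtype, LinearMap.ker_comp_of_ker_eq_bot _ (Submodule.ker_subtype _)]
  · rw [LinearMap.coe_comp]
    exact (Submodule.subtype_injective _).comp he3i'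
  · intro x i
    exact he2J _ (e3 x).2 i
  · intro hg3
    subst hg3
    have hsub : Subsingleton (LinearMap.ker e2) := he3s.subsingleton
    have hker : LinearMap.ker e2 = ⊥ := by
      rw [eq_bot_iff]
      intro x hx
      have := Subsingleton.elim (⟨x, hx⟩ : LinearMap.ker e2) 0
      simpa using congrArg Subtype.val this
    have eq2 : (Fin g2 → T) ≃ₗ[T] LinearMap.ker e1 :=
      LinearEquiv.ofBijective e2 ⟨LinearMap.ker_eq_bot.1 hker, he2s⟩
    have hp1 : Module.Projective T (LinearMap.ker e1) := Module.Projective.of_equiv eq2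
    exact (pd_ker e0 he0s inferInstance 1).2 ((pd_ker e1 he1s inferInstance 0).2 (pd_zero.2 hp1))

end GD4
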