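import Pool.Agent.Helper576_GD4.Loc
import Pool.Agent.Helper576_GD4.Length

set_option autoImplicit false

open MulOpposite

namespace GD4

theorem S9a_rAct_mul {R : Type} [Ring R] {Y : Type} [AddCommGroup Y] [Module Rᵐᵒᵖ Y] {m n l : ℕ}
    (y : Fin m → Y) (A : Matrix (Fin m) (Fin n) R) (B : Matrix (Fin n) (Fin l) R) :
    rAct (rAct y A) B = rAct y (A * B) := by
  funext j
  simp only [rAct, Finset.smul_sum, smul_smul, ← op_mul, Matrix.mul_apply, Finset.op_sum, Finset.sum_smul]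
  rw [Finset.sum_comm]

theorem S9a_rAct_sub {R : Type} [Ring R] {Y : Type} [AddCommGroup Y] [Module Rᵐᵒᵖ Y] {m n : ℕ}
    (y y' : Fin m → Y) (A : Matrix (Fin m) (Fin n) R) :
    rAct (y - y') A = rAct y A - rAct y' A := by
  funext j
  simp only [rAct, Pi.sub_apply, smul_sub, Finset.sum_sub_distrib]

theorem S9a_rAct_add {R : Type} [Ring R] {Y : Type} [AddCommGroup Y] [Module Rᵐᵒᵖ Y] {m n : ℕ}
    (y : Fin m → Y) (A B : Matrix (Fin m) (Fin n) R) :
    rAct y (A + B) = rAct y A + rAct y B := by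
  funext j
  simp only [rAct, Matrix.add_apply, Pi.add_apply, op_add, add_smul, Finset.sum_add_distrib]

theorem S9a_rAct_zero {R : Type} [Ring R] {Y : Type} [AddCommGroup Y] [Module Rᵐᵒᵖ Y] {m n : ℕ}
    (A : Matrix (Fin m) (Fin n) R) : rAct (0 : Fin m → Y) A = 0 := by
  funext j
  simp only [rAct, Pi.zero_apply, smul_zero, Finset.sum_const_zero]

theorem S9a_rAct_smul {R : Type} [Ring R] {Y : Type} [AddCommGroup Y] [Module R Y] [Module Rᵐᵒᵖ Y]
    [SMulCommClass R Rᵐᵒᵖ Y] {m n : ℕ} (s : R)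
    (y : Fin m → Y) (A : Matrix (Fin m) (Fin n) R) :
    rAct (fun i => s • y i) A = fun k => s • rAct y A k := by
  funext j
  simp only [rAct, Finset.smul_sum]
  refine Finset.sum_congr rfl fun i _ => ?_
  exact (smul_comm s (op (A i j)) (y i)).symm

theorem S9a_rAct_o {R : Type} [Ring R] {Y : Type} [AddCommGroup Y] [Module R Y] [Module Rᵐᵒᵖ Y]
    [SMulCommClass R Rᵐᵒᵖ Y] (o : Y) (ho : ∀ r : R, r • o = op r • o) {m n : ℕ}
    (r : Fin m → R) (B : Matrix (Fin m) (Fin n) R) :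
    rAct (fun i => r i • o) B = fun k => (Matrix.vecMul r B) k • o := by
  funext k
  simp only [rAct, Matrix.vecMul, dotProduct, Finset.sum_smul]
  refine Finset.sum_congr rfl fun i _ => ?_
  rw [← smul_comm (r i) (op (B i k)) o, ← ho, smul_smul]

/-- TARGET -/
theorem S9a {R : Type} [Ring R] [IsLocalRing R]
    {Y : Type} [AddCommGroup Y] [Module R Y] [Module Rᵐᵒᵖ Y] [SMulCommClass R Rᵐᵒᵖ Y]
    (N X P : Ideal R) [N.IsTwoSided] [X.IsTwoSided] [P.IsTwoSided]
    (hXP : ∀ x, x ∈ X ↔ ∀ p ∈ P, x * p = 0) (hNX : ∀ n ∈ N, ∀ x ∈ X, n * x = 0)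
    (hsoc : ∀ x : R, (∀ j ∈ J R, j * x = 0) → x = 0)
    (o : Y) (ho : ∀ r : R, r • o = op r • o) (ho0 : ∀ r : R, r • o = 0 ↔ r ∈ N)
    (hart : IsArtinian R (Y ⧸ Submodule.span R {o}))
    {a b c : ℕ} (t : Fin c → X) (B1 : Matrix (Fin b) (Fin c) R) (B2 : Matrix (Fin a) (Fin b) R)
    (l0 : ∀ y : X, ∃ x : Fin c → R, y = ∑ i, x i • t i)
    (l1 : ∀ x : Fin c → R, ∑ i, x i • t i = 0 ↔ ∃ y, x = Matrix.vecMul y B1)
    (l2 : ∀ y : Fin b → R, Matrix.vecMul y B1 = 0 ↔ ∃ z, y = Matrix.vecMul z B2)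
    {g0 g1 g2 : ℕ} (e : Fin g0 → Y) (A1 : Matrix (Fin g0) (Fin g1) R)
    (A2 : Matrix (Fin g1) (Fin g2) R)
    (k0 : ∀ y : Y, ∃ x : Fin g0 → R, y = ∑ i, op (x i) • e i)
    (k1 : ∀ x : Fin g0 → R, ∑ i, op (x i) • e i = 0 ↔ ∃ z, x = Matrix.mulVec A1 z)
    (k2 : ∀ y : Fin g1 → R, Matrix.mulVec A1 y = 0 ↔ ∃ z, y = Matrix.mulVec A2 z)
    (k3 : ∀ z : Fin g2 → R, Matrix.mulVec A2 z = 0 → z = 0)
    (x : Fin b → Y) (y : Fin c → R) (hxy : rAct x B1 = fun k => y k • o) :
    ∃ (r : Fin b → R) (z : Fin a → Y), x = (fun i => r i • o) + rAct z B2 := by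
  classical
  -- row-wise version of `l1`
  have l1' : ∀ w : Fin c → R, ∑ k, w k * (t k : R) = 0 ↔ ∃ v, w = Matrix.vecMul v B1 := by
    intro w
    rw [← l1 w, ← Subtype.coe_inj]
    have : ((∑ i, w i • t i : X) : R) = ∑ k, w k * (t k : R) := by
      rw [AddSubmonoidClass.coe_finset_sum]
      rfl
    rw [this]
    rfl
  -- Step 1
  have hu : ∑ k, y k * (t k : R) = 0 := by
    set u : R := ∑ k, y k * (t k : R) with hu
    let φ : R →ₗ[R] (Fin b → Y ⧸ Submodule.span R {o}) :=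
      LinearMap.pi fun i => (Submodule.span R {o}).mkQ ∘ₗ (LinearMap.toSpanSingleton R Y (x i))
    let ψ : R →ₗ[R] R := LinearMap.toSpanSingleton R R u
    have hker : LinearMap.ker φ ≤ LinearMap.ker ψ := by
      intro s hs
      rw [LinearMap.mem_ker] at hs ⊢
      have h1 : ∀ i, ∃ r : R, r • o = s • x i := by
        intro i
        have h2 := congrFun hs i
        have h3 : s • x i ∈ Submodule.span R {o} := by
          rw [← Submodule.Quotient.mk_eq_zero]
          exact h2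
        exact Submodule.mem_span_singleton.1 h3
      choose z hz using h1
      show s • u = 0
      have h4 : (fun k => (Matrix.vecMul z B1) k • o) = fun k => s • rAct x B1 k := by
        rw [← S9a_rAct_o o ho, ← S9a_rAct_smul]
        congr 1
        funext i
        exact hz i
      have h5 : ∀ k, (Matrix.vecMul z B1) k * (t k : R) = s * y k * (t k : R) := by
        intro k
        have h6 := congrFun h4 k
        rw [hxy] at h6
        simp only at h6
        rw [smul_smul] at h6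
        have h7 : (Matrix.vecMul z B1) k - s * y k ∈ N := by
          rw [← ho0, sub_smul, h6, sub_self]
        have h8 := hNX _ h7 _ (t k).2
        rw [sub_mul, sub_eq_zero] at h8
        exact h8
      have h9 : ∑ k, (Matrix.vecMul z B1) k * (t k : R) = 0 := (l1' _).2 ⟨z, rfl⟩
      rw [smul_eq_mul, hu, Finset.mul_sum, ← h9]
      refine Finset.sum_congr rfl fun k _ => ?_
      rw [h5, mul_assoc]
    let ψ' : (R ⧸ LinearMap.ker φ) →ₗ[R] R := (LinearMap.ker φ).liftQ ψ hker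
    have a1 : IsArtinian R (R ⧸ LinearMap.ker φ) := isArtinian_of_linearEquiv (φ.quotKerEquivRange).symm
    have a2 : IsArtinian R (LinearMap.range ψ') :=
      isArtinian_of_surjective _ ψ'.rangeRestrict ψ'.surjective_rangeRestrict
    by_contra hne
    have a3 : ψ' (Submodule.Quotient.mk 1) = u := by
      show (LinearMap.ker φ).liftQ ψ hker (Submodule.Quotient.mk 1) = u
      rw [Submodule.liftQ_apply]
      show (1 : R) • u = u
      rw [one_smul]
    have a4 : Nontrivial (LinearMap.range ψ') :=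
      ⟨⟨⟨u, ⟨_, a3⟩⟩, 0, fun h => hne (congrArg Subtype.val h)⟩⟩
    obtain ⟨w, hw0, hw⟩ := exists_socle (T := R) (V := LinearMap.range ψ')
    apply hw0
    apply Subtype.ext
    refine hsoc _ fun j hj => ?_
    exact congrArg Subtype.val (hw j hj)
  -- Step 2
  obtain ⟨z, hz⟩ := (l1' y).1 hu
  have hx' : rAct (x - fun i => z i • o) B1 = 0 := by
    rw [S9a_rAct_sub, hxy, S9a_rAct_o o ho, ← hz, sub_self]
  suffices hs : ∃ z' : Fin a → Y, (x - fun i => z i • o) = rAct z' B2 by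
    obtain ⟨z', hz'⟩ := hs
    exact ⟨z, z', by rw [← hz']; abel⟩
  -- Step 3
  choose w hw using fun i => k0 ((x - fun i => z i • o) i)
  let Z : Matrix (Fin g0) (Fin b) R := fun j i => w i j
  have hZ : (x - fun i => z i • o) = rAct e Z := funext fun i => hw i
  rw [hZ] at hx' ⊢
  rw [S9a_rAct_mul] at hx'
  have hcol : ∀ k, ∃ v, (fun i => (Z * B1) i k) = Matrix.mulVec A1 v := fun k => (k1 _).1 (congrFun hx' k)
  choose v1 hv1 using hcol
  let Y1 : Matrix (Fin g1) (Fin c) R := fun i k => v1 k i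
  have hY1 : Z * B1 = A1 * Y1 := by
    ext i k
    exact congrFun (hv1 k) i
  let tt : Fin c → R := fun k => t k
  have l1m : ∀ {n : ℕ} (W : Matrix (Fin n) (Fin c) R), W.mulVec tt = 0 → ∃ T : Matrix (Fin n) (Fin b) R, W = T * B1 := by
    intro n W hW
    have h1 : ∀ i, ∃ v, (fun k => W i k) = Matrix.vecMul v B1 := fun i => (l1' _).1 (congrFun hW i)
    choose T hT using h1
    refine ⟨T, ?_⟩
    ext i k
    exact congrFun (hT i) k
  have l1m' : ∀ {n : ℕ} (T : Matrix (Fin n) (Fin b) R), (T * B1).mulVec tt = 0 := by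
    intro n T
    funext i
    exact (l1' _).2 ⟨T i, rfl⟩
  have hA1 : A1.mulVec (Y1.mulVec tt) = 0 := by
    rw [Matrix.mulVec_mulVec, ← hY1]
    exact l1m' Z
  obtain ⟨v, hv⟩ := (k2 _).1 hA1
  have hvX : ∀ k, v k ∈ X := by
    intro k
    rw [hXP]
    intro p hp
    have h1 : A2.mulVec (fun k => v k * p) = 0 := by
      funext i
      have h2 : A2.mulVec (fun k => v k * p) i = (A2.mulVec v) i * p := by
        simp only [Matrix.mulVec, dotProduct, Finset.sum_mul, mul_assoc]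
      rw [h2, ← hv]
      have h3 : Y1.mulVec tt i ∈ X := by
        simp only [Matrix.mulVec, dotProduct]
        exact Submodule.sum_mem _ fun k _ => X.mul_mem_left _ (t k).2
      exact (hXP _).1 h3 p hp
    exact congrFun (k3 _ h1) k
  have hV : ∀ k, ∃ r : Fin c → R, v k = ∑ i, r i * (t i : R) := by
    intro k
    obtain ⟨r, hr⟩ := l0 ⟨v k, hvX k⟩
    refine ⟨r, ?_⟩
    have := congrArg Subtype.val hr
    rw [AddSubmonoidClass.coe_finset_sum] at this
    exact this
  choose V hV using hV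
  have hV' : v = Matrix.mulVec (Matrix.of V) tt := funext hV
  have h4 : (Y1 - A2 * Matrix.of V).mulVec tt = 0 := by
    rw [Matrix.sub_mulVec, ← Matrix.mulVec_mulVec, ← hV', hv, sub_self]
  obtain ⟨Z', hZ'⟩ := l1m _ h4
  have hA12 : A1 * A2 = 0 := by
    ext i j
    have h5 := (k2 _).2 ⟨Pi.single j 1, rfl⟩
    rw [Matrix.mulVec_mulVec] at h5
    have h6 := congrFun h5 i
    rw [Matrix.mulVec_single_one] at h6
    exact h6
  have h7 : (Z - A1 * Z') * B1 = 0 := by
    rw [Matrix.sub_mul, Matrix.mul_assoc, ← hZ', hY1, Matrix.mul_sub, ← Matrix.mul_assoc, hA12, Matrix.zero_mul,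
      sub_zero, sub_self]
  have h8 : ∀ i, ∃ r, (fun k => (Z - A1 * Z') i k) = Matrix.vecMul r B2 := by
    intro i
    refine (l2 _).1 ?_
    funext k
    exact congrFun (congrFun h7 i) k
  choose Z'' hZ'' using h8
  have h9 : Z - A1 * Z' = Matrix.of Z'' * B2 := by
    ext i k
    exact congrFun (hZ'' i) k
  have h10 : Z = A1 * Z' + Matrix.of Z'' * B2 := by rw [← h9]; abel
  have h11 : rAct e A1 = 0 := by
    funext j
    refine (k1 _).2 ⟨Pi.single j 1, ?_⟩
    funext i
    rw [Matrix.mulVec_single_one]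
    rfl
  refine ⟨rAct e (Matrix.of Z''), ?_⟩
  rw [h10, S9a_rAct_add, ← S9a_rAct_mul, h11, S9a_rAct_zero, zero_add, S9a_rAct_mul]

end GD4
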