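import Pool.Agent.Helper576_GD4.Lenagan
import Pool.Agent.Helper576_GD4.Length

set_option autoImplicit false

open MulOpposite

namespace GD4

/-- TARGET -/
theorem step_killed {R : Type} [Ring R] [IsLocalRing R] [IsNoetherianRing R]
    [IsNoetherianRing Rᵐᵒᵖ]
    {M : Type} [AddCommGroup M] [Module R M] [Module Rᵐᵒᵖ M] [SMulCommClass R Rᵐᵒᵖ M]
    [IsNoetherian R M] [IsNoetherian Rᵐᵒᵖ M]
    (W W' : Submodule Rᵐᵒᵖ M) (hW : ∀ (r : R) (y : M), y ∈ W → r • y ∈ W)
    (hW' : ∀ (r : R) (y : M), y ∈ W' → r • y ∈ W') (hlt : W < W')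
    (hJ : ∀ j ∈ J R, ∀ y ∈ W', j • y ∈ W) :
    ∃ W'' : Submodule Rᵐᵒᵖ M, (∀ (r : R) (y : M), y ∈ W'' → r • y ∈ W'') ∧ W < W'' ∧ W'' ≤ W' ∧
      (∀ j ∈ J Rᵐᵒᵖ, ∀ y ∈ W'', j • y ∈ W) := by
  -- `W'` as a left submodule
  let WL : Submodule R M :=
    { carrier := {y | y ∈ W'}
      add_mem' := fun ha hb => W'.add_mem ha hb
      zero_mem' := W'.zero_mem
      smul_mem' := fun r y hy => hW' r y hy }
  have hWL : ∀ y, y ∈ WL ↔ y ∈ W' := fun y => Iff.rfl
  let X0 : Submodule R WL :=
    { carrier := {x | (x : M) ∈ W}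
      add_mem' := fun {a b} ha hb => by
        show ((a + b : WL) : M) ∈ W
        rw [Submodule.coe_add]
        exact W.add_mem ha hb
      zero_mem' := by
        show ((0 : WL) : M) ∈ W
        rw [Submodule.coe_zero]
        exact W.zero_mem
      smul_mem' := fun r y hy => by
        show ((r • y : WL) : M) ∈ W
        rw [Submodule.coe_smul]
        exact hW r y hy }
  have hX0 : ∀ x : WL, x ∈ X0 ↔ (x : M) ∈ W := fun x => Iff.rfl
  have hart : IsArtinian R (WL ⧸ X0) := by
    apply artinian_of_killed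
    intro j hj v
    obtain ⟨b, rfl⟩ := X0.mkQ_surjective v
    rw [← map_smul, Submodule.mkQ_apply, Submodule.Quotient.mk_eq_zero, hX0, Submodule.coe_smul]
    exact hJ j hj _ b.2
  let Θ : AddSubgroup (WL × M) :=
    { carrier := {p | (p.1 : M) = p.2}
      add_mem' := fun {a b} ha hb => by
        show ((a.1 + b.1 : WL) : M) = a.2 + b.2
        rw [Submodule.coe_add]
        exact congrArg₂ _ ha hb
      zero_mem' := by
        show ((0 : WL) : M) = 0
        exact Submodule.coe_zero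
      neg_mem' := fun {a} ha => by
        show ((-a.1 : WL) : M) = - a.2
        rw [Submodule.coe_neg]
        exact congrArg _ ha }
  have hΘ : ∀ (x : WL) (y : M), (x, y) ∈ Θ ↔ (x : M) = y := fun x y => Iff.rfl
  obtain ⟨y, hy1, hy0, hyJ⟩ := lenagan (A := Rᵐᵒᵖ) (B := R) (V := M) (X := WL) W W' hlt X0 Θ
    (fun x => ⟨(x : M), rfl⟩) (fun y hy => ⟨⟨y, hy⟩, rfl⟩)
    (fun x y h => by
      rw [hΘ] at h
      rw [← h]
      exact x.2)
    (fun x y h => by
      rw [hΘ] at h
      rw [hX0, h])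
    (fun s => by
      refine ⟨{ toFun := fun x => ⟨s • (x : M), W'.smul_mem s x.2⟩
                map_add' := fun a b => Subtype.ext (by
                  show s • ((a + b : WL) : M) = s • (a : M) + s • (b : M)
                  rw [Submodule.coe_add, smul_add])
                map_smul' := fun r a => Subtype.ext (by
                  show s • ((r • a : WL) : M) = r • (s • (a : M))
                  rw [Submodule.coe_smul]
                  exact (smul_comm r s (a : M)).symm) }, ?_⟩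
      intro x y h
      rw [hΘ] at h ⊢
      show s • (x : M) = s • y
      rw [h])
  let W'' : Submodule Rᵐᵒᵖ M :=
    { carrier := {y | y ∈ W' ∧ ∀ j ∈ J Rᵐᵒᵖ, j • y ∈ W}
      add_mem' := fun {a b} ha hb => ⟨W'.add_mem ha.1 hb.1, fun j hj => by
        rw [smul_add]
        exact W.add_mem (ha.2 j hj) (hb.2 j hj)⟩
      zero_mem' := ⟨W'.zero_mem, fun j _ => by
        rw [smul_zero]
        exact W.zero_mem⟩
      smul_mem' := fun s y hy => ⟨W'.smul_mem s hy.1, fun j hj => by
        rw [← mul_smul]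
        exact hy.2 _ (Ideal.IsTwoSided.mul_mem_of_left s hj)⟩ }
  have hW'' : ∀ y, y ∈ W'' ↔ (y ∈ W' ∧ ∀ j ∈ J Rᵐᵒᵖ, j • y ∈ W) := fun y => Iff.rfl
  refine ⟨W'', ?_, ?_, ?_, ?_⟩
  · intro r z hz
    rw [hW''] at hz ⊢
    refine ⟨hW' r z hz.1, fun j hj => ?_⟩
    rw [← smul_comm r j z]
    exact hW r _ (hz.2 j hj)
  · refine lt_of_le_of_ne ?_ ?_
    · intro z hz
      rw [hW'']
      exact ⟨hlt.le hz, fun j _ => W.smul_mem j hz⟩
    · intro heq
      apply hy0
      rw [heq, hW'']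
      exact ⟨hy1, hyJ⟩
  · intro z hz
    exact ((hW'' z).1 hz).1
  · intro j hj z hz
    exact ((hW'' z).1 hz).2 j hj

end GD4
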